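import Pool.Agent.K4H50.MB.Spec
import Pool.Agent.K4H74.MB.Met

/-!
From the weights to the numbers of primes, uniformly in the shifts, for almost all coefficients.
-/

set_option autoImplicit false

namespace Pool.Agent.K4H50.MB

open Finset MeasureTheory Filter Topology
open Pool.Agent.K4H74.MB (IsPP PPB logpow ae_ppb_all)

/-- the number of the integers for which all the forms are prime -/
noncomputable def Pcnt {k : ℕ} (α c : Fin k → ℝ) (d : Fin k → ℕ) (N : ℕ) : ℝ :=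
  (((Finset.Icc 1 N).filter fun n : ℕ => ∀ i, (⌊α i * (n : ℝ) ^ (c i)⌋₊ + d i).Prime).card : ℝ)

open Classical in
/-- the number of the integers for which one form is a perfect power -/
noncomputable def Qcnt {k : ℕ} (α c : Fin k → ℝ) (d : Fin k → ℕ) (N : ℕ) (i : Fin k) : ℝ :=
  (((Finset.Icc 1 N).filter fun n : ℕ => IsPP (⌊α i * (n : ℝ) ^ (c i)⌋₊ + d i)).card : ℝ)

lemma log_atTop : Tendsto (fun N : ℕ => Real.log N) atTop atTop :=
  Real.tendsto_log_atTop.comp tendsto_natCast_atTop_atTop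

lemma lam_upper {α c : ℝ} (hα : 0 < α) (hc : 0 < c) (A : ℕ) {δ : ℝ} (hδ : 0 < δ) :
    ∀ᶠ N : ℕ in atTop, ∀ n ∈ Finset.Icc 1 N, ∀ d : ℕ, (d : ℝ) ≤ Real.log N ^ A →
      ArithmeticFunction.vonMangoldt (⌊α * (n : ℝ) ^ c⌋₊ + d) ≤ (1 + δ) * (c * Real.log N) := by
  obtain ⟨C₀, hC₀, hC₀'⟩ := logpow A hc
  filter_upwards [eventually_ge_atTop 1, log_atTop.eventually_ge_atTop
    (Real.log (α + C₀) / (δ * c))] with N hN hNl n hn d hd
  rw [Finset.mem_Icc] at hn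
  have hN1 : (1 : ℝ) ≤ N := by exact_mod_cast hN
  have hN0 : (0 : ℝ) < N := by linarith
  have hL : 0 ≤ Real.log N := Real.log_nonneg hN1
  rw [div_le_iff₀ (by positivity)] at hNl
  by_cases h0 : ⌊α * (n : ℝ) ^ c⌋₊ + d = 0
  · rw [h0]
    simp only [ArithmeticFunction.map_zero]
    positivity
  · refine ArithmeticFunction.vonMangoldt_le_log.trans ?_
    have h1 : (((⌊α * (n : ℝ) ^ c⌋₊ + d : ℕ)) : ℝ) ≤ (α + C₀) * (N : ℝ) ^ c := by
      push_cast
      have h2 : ((⌊α * (n : ℝ) ^ c⌋₊ : ℕ) : ℝ) ≤ α * (n : ℝ) ^ c := Nat.floor_le (by positivity)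
      have h3 : (n : ℝ) ^ c ≤ (N : ℝ) ^ c :=
        Real.rpow_le_rpow (by positivity) (by exact_mod_cast hn.2) hc.le
      have h4 := hC₀' N hN1
      nlinarith
    have h5 : (0 : ℝ) < (((⌊α * (n : ℝ) ^ c⌋₊ + d : ℕ)) : ℝ) := by
      exact_mod_cast Nat.pos_of_ne_zero h0
    have h6 := Real.log_le_log h5 h1
    rw [Real.log_mul (by positivity) (by positivity), Real.log_rpow hN0] at h6
    nlinarith

lemma lam_lower {α c : ℝ} (hα : 0 < α) (hc : 0 < c) (K : ℕ) {δ : ℝ} (hδ : 0 < δ) :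
    ∀ᶠ N : ℕ in atTop, ∀ n ∈ Finset.Icc 1 N, (N : ℝ) ≤ n * Real.log N ^ K → ∀ d : ℕ,
      (⌊α * (n : ℝ) ^ c⌋₊ + d).Prime → (1 - δ) * (c * Real.log N) ≤
        ArithmeticFunction.vonMangoldt (⌊α * (n : ℝ) ^ c⌋₊ + d) := by
  have hlog : ∀ᶠ N : ℕ in atTop, c * (K * Real.log (Real.log N)) - Real.log (α / 2) ≤
      δ * (c * Real.log N) := by
    have h1 : Tendsto (fun x : ℝ => (c * (K * Real.log x) - Real.log (α / 2)) / x) atTop (𝓝 0) := by
      have h2 : Tendsto (fun x : ℝ => Real.log x / x) atTop (𝓝 0) := by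
        have := Real.isLittleO_log_id_atTop.tendsto_div_nhds_zero
        exact this
      have h3 : Tendsto (fun x : ℝ => Real.log (α / 2) / x) atTop (𝓝 0) :=
        tendsto_const_nhds.div_atTop tendsto_id
      have h4 := (h2.const_mul (c * K)).sub h3
      rw [mul_zero, sub_zero] at h4
      refine h4.congr fun x => ?_
      ring
    have h5 := (h1.comp log_atTop).eventually (gt_mem_nhds (show (0 : ℝ) < δ * c by positivity))
    filter_upwards [h5, log_atTop.eventually_gt_atTop 0] with N h6 h7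
    simp only [Function.comp] at h6
    rw [div_lt_iff₀ h7] at h6
    linarith
  filter_upwards [hlog, log_atTop.eventually_gt_atTop 0, eventually_ge_atTop 1]
    with N h1 hL hN n hn hnN d hp
  rw [Finset.mem_Icc] at hn
  rw [ArithmeticFunction.vonMangoldt_apply_prime hp]
  have hn0 : (0 : ℝ) < n := by exact_mod_cast hn.1
  have hN0 : (0 : ℝ) < N := by exact_mod_cast hN
  have ht : 0 < (n : ℝ) ^ c := by positivity
  have h2 : α / 2 * (n : ℝ) ^ c ≤ (((⌊α * (n : ℝ) ^ c⌋₊ + d : ℕ)) : ℝ) := by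
    have h3 : α * (n : ℝ) ^ c < (⌊α * (n : ℝ) ^ c⌋₊ : ℕ) + 1 := Nat.lt_floor_add_one _
    have h4 : (1 : ℝ) ≤ (((⌊α * (n : ℝ) ^ c⌋₊ + d : ℕ)) : ℝ) := by exact_mod_cast hp.one_lt.le
    push_cast at h4 ⊢
    have h5 : (0 : ℝ) ≤ d := by positivity
    nlinarith
  have h3 := Real.log_le_log (by positivity) h2
  rw [Real.log_mul (by positivity) (by positivity), Real.log_rpow hn0] at h3
  have h4 : Real.log N ≤ Real.log n + K * Real.log (Real.log N) := by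
    have h5 := Real.log_le_log hN0 hnN
    rwa [Real.log_mul (by positivity) (by positivity), Real.log_pow] at h5
  nlinarith

lemma isPP_of_lam {m : ℕ} (h : ArithmeticFunction.vonMangoldt m ≠ 0) (hp : ¬ m.Prime) : IsPP m := by
  rw [ArithmeticFunction.vonMangoldt_ne_zero_iff] at h
  obtain ⟨p, j, hp1, hj, hm⟩ := (isPrimePow_nat_iff m).mp h
  refine ⟨p, j, hp1.two_le, ?_, hm.symm⟩
  by_contra h1
  have : j = 1 := by omega
  rw [this, pow_one] at hm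
  exact hp (hm ▸ hp1)

lemma msum_le {k : ℕ} {α c : Fin k → ℝ} {d : Fin k → ℕ} {N : ℕ} (u : Fin k → ℝ) (hu : ∀ i, 0 ≤ u i)
    (hU : ∀ i, ∀ n ∈ Finset.Icc 1 N,
      ArithmeticFunction.vonMangoldt (⌊α i * (n : ℝ) ^ (c i)⌋₊ + d i) ≤ u i) :
    Msum α c d N ≤ (∏ i, u i) * (Pcnt α c d N + ∑ i, Qcnt α c d N i) := by
  classical
  have hB : 0 ≤ ∏ i, u i := Finset.prod_nonneg fun i _ => hu i
  have h1 : ∀ n ∈ Finset.Icc 1 N,
      ∏ i, ArithmeticFunction.vonMangoldt (⌊α i * (n : ℝ) ^ (c i)⌋₊ + d i) ≤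
      (∏ i, u i) * ((if ∀ i, (⌊α i * (n : ℝ) ^ (c i)⌋₊ + d i).Prime then (1 : ℝ) else 0) +
        ∑ i, if IsPP (⌊α i * (n : ℝ) ^ (c i)⌋₊ + d i) then (1 : ℝ) else 0) := by
    intro n hn
    have hS : (0 : ℝ) ≤ ∑ i, if IsPP (⌊α i * (n : ℝ) ^ (c i)⌋₊ + d i) then (1 : ℝ) else 0 :=
      Finset.sum_nonneg fun i _ => by split_ifs <;> norm_num
    by_cases h0 : ∃ i, ArithmeticFunction.vonMangoldt (⌊α i * (n : ℝ) ^ (c i)⌋₊ + d i) = 0
    · obtain ⟨i, hi⟩ := h0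
      rw [Finset.prod_eq_zero (Finset.mem_univ i) hi]
      apply mul_nonneg hB
      apply add_nonneg _ hS
      split_ifs <;> norm_num
    · push Not at h0
      have h2 : ∏ i, ArithmeticFunction.vonMangoldt (⌊α i * (n : ℝ) ^ (c i)⌋₊ + d i) ≤
          ∏ i, u i :=
        Finset.prod_le_prod (fun i _ => ArithmeticFunction.vonMangoldt_nonneg)
          fun i _ => hU i n hn
      refine h2.trans ?_
      have h3 : (1 : ℝ) ≤ (if ∀ i, (⌊α i * (n : ℝ) ^ (c i)⌋₊ + d i).Prime then (1 : ℝ) else 0) +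
          ∑ i, if IsPP (⌊α i * (n : ℝ) ^ (c i)⌋₊ + d i) then (1 : ℝ) else 0 := by
        by_cases h4 : ∀ i, (⌊α i * (n : ℝ) ^ (c i)⌋₊ + d i).Prime
        · rw [if_pos h4]
          linarith
        · rw [if_neg h4]
          push Not at h4
          obtain ⟨i, hi⟩ := h4
          have h5 := isPP_of_lam (h0 i) hi
          have h6 := Finset.single_le_sum (f := fun i =>
            if IsPP (⌊α i * (n : ℝ) ^ (c i)⌋₊ + d i) then (1 : ℝ) else 0)
            (fun i _ => by split_ifs <;> norm_num) (Finset.mem_univ i)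
          simp only [if_pos h5] at h6
          linarith
      nlinarith
  rw [Msum]
  refine (Finset.sum_le_sum h1).trans (le_of_eq ?_)
  rw [← Finset.mul_sum, Finset.sum_add_distrib, Finset.sum_comm]
  congr 2
  · rw [Pcnt, Finset.sum_boole]
  · refine Finset.sum_congr rfl fun i _ => ?_
    rw [Qcnt, Finset.sum_boole]

lemma le_msum {k : ℕ} {α c : Fin k → ℝ} {d : Fin k → ℕ} {N : ℕ} (u : Fin k → ℝ) (hu : ∀ i, 0 ≤ u i)
    {T : ℝ} (hT : 0 < T)
    (hV : ∀ i, ∀ n ∈ Finset.Icc 1 N, (N : ℝ) ≤ n * T →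
      (⌊α i * (n : ℝ) ^ (c i)⌋₊ + d i).Prime → u i ≤
      ArithmeticFunction.vonMangoldt (⌊α i * (n : ℝ) ^ (c i)⌋₊ + d i)) :
    (∏ i, u i) * (Pcnt α c d N - N / T) ≤ Msum α c d N := by
  classical
  have hB : 0 ≤ ∏ i, u i := Finset.prod_nonneg fun i _ => hu i
  have h1 : ∀ n ∈ Finset.Icc 1 N,
      (∏ i, u i) * ((if ∀ i, (⌊α i * (n : ℝ) ^ (c i)⌋₊ + d i).Prime then (1 : ℝ) else 0) -
        if (n : ℝ) * T < N then (1 : ℝ) else 0) ≤
      ∏ i, ArithmeticFunction.vonMangoldt (⌊α i * (n : ℝ) ^ (c i)⌋₊ + d i) := by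
    intro n hn
    have h0 : 0 ≤ ∏ i, ArithmeticFunction.vonMangoldt (⌊α i * (n : ℝ) ^ (c i)⌋₊ + d i) :=
      Finset.prod_nonneg fun i _ => ArithmeticFunction.vonMangoldt_nonneg
    by_cases h2 : (n : ℝ) * T < N
    · rw [if_pos h2]
      refine le_trans ?_ h0
      apply mul_nonpos_of_nonneg_of_nonpos hB
      split_ifs <;> norm_num
    · rw [if_neg h2, sub_zero]
      by_cases h3 : ∀ i, (⌊α i * (n : ℝ) ^ (c i)⌋₊ + d i).Prime
      · rw [if_pos h3, mul_one]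
        exact Finset.prod_le_prod (fun i _ => hu i)
          fun i _ => hV i n hn (not_lt.mp h2) (h3 i)
      · rw [if_neg h3, mul_zero]
        exact h0
  rw [Msum]
  refine le_trans ?_ (Finset.sum_le_sum h1)
  rw [← Finset.mul_sum, Finset.sum_sub_distrib]
  apply mul_le_mul_of_nonneg_left _ hB
  apply sub_le_sub
  · rw [Pcnt, Finset.sum_boole]
  · rw [Finset.sum_boole]
    have h2 : ((Finset.Icc 1 N).filter fun n : ℕ => (n : ℝ) * T < N) ⊆
        Finset.Icc 1 ⌊(N : ℝ) / T⌋₊ := by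
      intro n hn
      rw [Finset.mem_filter, Finset.mem_Icc] at hn
      rw [Finset.mem_Icc]
      refine ⟨hn.1.1, Nat.le_floor ?_⟩
      rw [le_div_iff₀ hT]
      exact hn.2.le
    have h3 : ((((Finset.Icc 1 N).filter fun n : ℕ => (n : ℝ) * T < N).card : ℕ) : ℝ) ≤
        ((Finset.Icc 1 ⌊(N : ℝ) / T⌋₊).card : ℝ) := by
      exact_mod_cast Finset.card_le_card h2
    refine h3.trans ?_
    rw [Nat.card_Icc]
    simp only [Nat.add_sub_cancel]
    exact Nat.floor_le (by positivity)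

/-- the general deterministic statement -/
lemma count_core {k : ℕ} {α c : Fin k → ℝ} (hα : ∀ i, 0 < α i) (hc : ∀ i, 0 < c i)
    (𝒟 : Set (Fin k → ℕ))
    (hP : ∀ i, ∀ A K : ℕ, ∃ C : ℝ, 0 ≤ C ∧ ∀ N : ℕ, 1 ≤ N → ∀ d ∈ 𝒟,
      (∀ i, (d i : ℝ) ≤ (Real.log N) ^ A) → Qcnt α c d N i * Real.log N ^ K ≤ C * N)
    (hH : ∀ A : ℕ, ∀ ε : ℝ, 0 < ε → ∃ N₀ : ℕ, ∀ N : ℕ, N₀ ≤ N → ∀ d ∈ 𝒟,
      (∀ i, (d i : ℝ) ≤ (Real.log N) ^ A) → |Msum α c d N - N| ≤ ε * N)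
    (A : ℕ) {ε : ℝ} (hε : 0 < ε) : ∃ N₀ : ℕ, ∀ N : ℕ, N₀ ≤ N → ∀ d ∈ 𝒟,
      (∀ i, (d i : ℝ) ≤ (Real.log N) ^ A) →
        |Pcnt α c d N * (∏ i, (c i * Real.log N)) / N - 1| ≤ ε := by
  -- the choice of `δ`
  obtain ⟨δ, hδ, hδ1, hδ2, hδ3⟩ : ∃ δ : ℝ, 0 < δ ∧ δ < 1 ∧
      1 - ε / 2 ≤ (1 - δ) / (1 + δ) ^ k ∧ (1 + δ) / (1 - δ) ^ k ≤ 1 + ε / 2 := by
    have h1 : Tendsto (fun δ : ℝ => (1 - δ) / (1 + δ) ^ k) (𝓝 0) (𝓝 1) := by
      have : ContinuousAt (fun δ : ℝ => (1 - δ) / (1 + δ) ^ k) 0 := by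
        apply ContinuousAt.div
        · fun_prop
        · fun_prop
        · simp
      have h2 := this.tendsto
      simpa using h2
    have h2 : Tendsto (fun δ : ℝ => (1 + δ) / (1 - δ) ^ k) (𝓝 0) (𝓝 1) := by
      have : ContinuousAt (fun δ : ℝ => (1 + δ) / (1 - δ) ^ k) 0 := by
        apply ContinuousAt.div
        · fun_prop
        · fun_prop
        · simp
      have h2 := this.tendsto
      simpa using h2
    have h3 : ∀ᶠ δ : ℝ in 𝓝[>] 0, 1 - ε / 2 < (1 - δ) / (1 + δ) ^ k :=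
      nhdsWithin_le_nhds (h1.eventually (lt_mem_nhds (by linarith)))
    have h4 : ∀ᶠ δ : ℝ in 𝓝[>] 0, (1 + δ) / (1 - δ) ^ k < 1 + ε / 2 :=
      nhdsWithin_le_nhds (h2.eventually (gt_mem_nhds (by linarith)))
    have h5 : ∀ᶠ δ : ℝ in 𝓝[>] 0, δ < 1 :=
      nhdsWithin_le_nhds (gt_mem_nhds (by norm_num))
    have h6 : ∀ᶠ δ : ℝ in 𝓝[>] 0, (0 : ℝ) < δ := eventually_mem_nhdsWithin
    obtain ⟨δ, h7, h8, h9, h10⟩ := (h3.and (h4.and (h5.and h6))).exists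
    exact ⟨δ, h10, h9, h7.le, h8.le⟩
  choose C hC hC' using fun i => hP i A (k + 1)
  obtain ⟨N₀, hN₀⟩ := hH A δ hδ
  set R : ℝ := ∏ i, c i with hR
  have hR0 : 0 < R := Finset.prod_pos fun i _ => hc i
  have hev : ∀ᶠ N : ℕ in atTop, ∀ d ∈ 𝒟,
      (∀ i, (d i : ℝ) ≤ (Real.log N) ^ A) →
        |Pcnt α c d N * (∏ i, (c i * Real.log N)) / N - 1| ≤ ε := by
    have hU : ∀ᶠ N : ℕ in atTop, ∀ i, ∀ n ∈ Finset.Icc 1 N, ∀ d : ℕ, (d : ℝ) ≤ Real.log N ^ A →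
      ArithmeticFunction.vonMangoldt (⌊α i * (n : ℝ) ^ (c i)⌋₊ + d) ≤
        (1 + δ) * (c i * Real.log N) := by
      rw [eventually_all]
      exact fun i => lam_upper (hα i) (hc i) A hδ
    have hV : ∀ᶠ N : ℕ in atTop, ∀ i, ∀ n ∈ Finset.Icc 1 N, (N : ℝ) ≤ n * Real.log N ^ (k + 1) →
      ∀ d : ℕ, (⌊α i * (n : ℝ) ^ (c i)⌋₊ + d).Prime → (1 - δ) * (c i * Real.log N) ≤
        ArithmeticFunction.vonMangoldt (⌊α i * (n : ℝ) ^ (c i)⌋₊ + d) := by
      rw [eventually_all]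
      exact fun i => lam_lower (hα i) (hc i) (k + 1) hδ
    filter_upwards [hU, hV, eventually_ge_atTop 1, eventually_ge_atTop N₀,
      log_atTop.eventually_ge_atTop (R / (ε / 2)),
      log_atTop.eventually_ge_atTop (R * (∑ i, C i) / (ε / 2)),
      log_atTop.eventually_gt_atTop 0] with N hU hV hN1 hN2 hN3 hN4 hL d hd hdA
    have hN0 : (0 : ℝ) < N := by exact_mod_cast hN1
    rw [div_le_iff₀ (by positivity)] at hN3 hN4
    have hPk : ∏ i, (c i * Real.log N) = R * Real.log N ^ k := by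
      rw [Finset.prod_mul_distrib, Finset.prod_const, Finset.card_univ, Fintype.card_fin]
    have h1 := abs_le.mp (hN₀ N hN2 d hd hdA)
    have h2 := msum_le (α := α) (c := c) (d := d) (N := N)
      (fun i => (1 + δ) * (c i * Real.log N)) (fun i => by have := hc i; positivity)
      (fun i n hn => hU i n hn (d i) (hdA i))
    have h3 := le_msum (α := α) (c := c) (d := d) (N := N)
      (fun i => (1 - δ) * (c i * Real.log N))
      (fun i => mul_nonneg (by linarith) (by have := hc i; positivity))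
      (T := Real.log N ^ (k + 1)) (by positivity)
      (fun i n hn h => hV i n hn h (d i))
    rw [Finset.prod_mul_distrib, Finset.prod_const, Finset.card_univ, Fintype.card_fin, hPk] at h2 h3
    rw [hPk]
    have hp1 : (0 : ℝ) < (1 + δ) ^ k := by positivity
    have hp2 : (0 : ℝ) < (1 - δ) ^ k := pow_pos (by linarith) k
    have hLk : (0 : ℝ) < Real.log N ^ k := by positivity
    have hQ : (∑ i, Qcnt α c d N i) * (R * Real.log N ^ k) ≤ ε / 2 * N := by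
      have h4 : (∑ i, Qcnt α c d N i) * Real.log N ^ (k + 1) ≤ (∑ i, C i) * N := by
        rw [Finset.sum_mul, Finset.sum_mul]
        exact Finset.sum_le_sum fun i _ => hC' i N hN1 d hd hdA
      have h5 : (∑ i, Qcnt α c d N i) * (R * Real.log N ^ k) * Real.log N ≤
          ε / 2 * N * Real.log N := by
        calc (∑ i, Qcnt α c d N i) * (R * Real.log N ^ k) * Real.log N =
            R * ((∑ i, Qcnt α c d N i) * Real.log N ^ (k + 1)) := by ring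
          _ ≤ R * ((∑ i, C i) * N) := by gcongr
          _ = (R * ∑ i, C i) * N := by ring
          _ ≤ (Real.log N * (ε / 2)) * N := by gcongr
          _ = _ := by ring
      exact le_of_mul_le_mul_right h5 hL
    set P := Pcnt α c d N with hPdef
    rw [abs_le]
    constructor
    · -- lower bound
      have h4 : (1 - δ) / (1 + δ) ^ k * N ≤ R * Real.log N ^ k * (P + ∑ i, Qcnt α c d N i) := by
        rw [div_mul_eq_mul_div, div_le_iff₀ hp1]
        calc (1 - δ) * N ≤ Msum α c d N := by linarith [h1.1]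
          _ ≤ _ := h2
          _ = _ := by ring
      have h5 : (1 - ε / 2) * N ≤ (1 - δ) / (1 + δ) ^ k * N := by gcongr
      have h6 : (1 - ε) * N ≤ P * (R * Real.log N ^ k) := by nlinarith
      have h7 : 1 - ε ≤ P * (R * Real.log N ^ k) / N := by
        rw [le_div_iff₀ hN0]
        exact h6
      linarith
    · -- upper bound
      have h4 : R * Real.log N ^ k * (P - N / Real.log N ^ (k + 1)) ≤
          (1 + δ) / (1 - δ) ^ k * N := by
        rw [div_mul_eq_mul_div, le_div_iff₀ hp2]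
        calc R * Real.log N ^ k * (P - N / Real.log N ^ (k + 1)) * (1 - δ) ^ k =
            (1 - δ) ^ k * (R * Real.log N ^ k) * (P - N / Real.log N ^ (k + 1)) := by ring
          _ ≤ Msum α c d N := h3
          _ ≤ (1 + δ) * N := by linarith [h1.2]
      have h5 : (1 + δ) / (1 - δ) ^ k * N ≤ (1 + ε / 2) * N := by gcongr
      have h6 : R * Real.log N ^ k * (N / Real.log N ^ (k + 1)) ≤ ε / 2 * N := by
        have h7 : R * Real.log N ^ k * (N / Real.log N ^ (k + 1)) = R / Real.log N * N := by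
          rw [pow_succ]
          field_simp
        rw [h7]
        apply mul_le_mul_of_nonneg_right _ hN0.le
        rw [div_le_iff₀ hL]
        linarith
      have h8 : P * (R * Real.log N ^ k) ≤ (1 + ε) * N := by nlinarith
      have h9 : P * (R * Real.log N ^ k) / N ≤ 1 + ε := by
        rw [div_le_iff₀ hN0]
        exact h8
      linarith
  exact eventually_atTop.mp hev

open Classical in
lemma self_count (K : ℕ) : ∃ C : ℝ, 0 ≤ C ∧ ∀ N : ℕ, 1 ≤ N →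
    (((Finset.Icc 1 N).filter fun n : ℕ => IsPP n).card : ℝ) * Real.log N ^ K ≤ C * N := by
  obtain ⟨C₀, hC₀, hC₀'⟩ := logpow K (ε := 3 / 8) (by norm_num)
  refine ⟨34 * C₀, by positivity, fun N hN => ?_⟩
  have hN1 : (1 : ℝ) ≤ N := by exact_mod_cast hN
  have hN0 : (0 : ℝ) < N := by linarith
  have hsub : ((Finset.Icc 1 N).filter fun n : ℕ => IsPP n) ⊆
      ((Finset.range (⌊Real.sqrt N⌋₊ + 1)) ×ˢ
        (Finset.range (⌊16 * (N : ℝ) ^ (1 / 8 : ℝ)⌋₊ + 1))).image (fun p => p.1 ^ p.2) := by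
    intro n hn
    rw [Finset.mem_filter, Finset.mem_Icc] at hn
    obtain ⟨⟨hn1, hn2⟩, y, j, hy, hj, h1⟩ := hn
    rw [Finset.mem_image]
    refine ⟨(y, j), ?_, h1.symm⟩
    have h3 : (y : ℝ) ^ j ≤ N := by
      rw [h1] at hn2
      exact_mod_cast hn2
    have hy2 : (2 : ℝ) ≤ y := by exact_mod_cast hy
    have h5 : (y : ℝ) ^ 2 ≤ N := (pow_le_pow_right₀ (by linarith) hj).trans h3
    have h6 : (2 : ℝ) ^ j ≤ N := (pow_le_pow_left₀ (by norm_num) hy2 j).trans h3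
    rw [Finset.mem_product, Finset.mem_range, Finset.mem_range]
    constructor
    · have : y ≤ ⌊Real.sqrt N⌋₊ := Nat.le_floor (Real.le_sqrt_of_sq_le h5)
      show y < _
      omega
    · have h7 : (j : ℝ) * Real.log 2 ≤ Real.log N := by
        rw [← Real.log_pow]
        exact Real.log_le_log (by positivity) h6
      have h8 : Real.log N ≤ (N : ℝ) ^ (1 / 8 : ℝ) / (1 / 8) :=
        Real.log_le_rpow_div hN0.le (by norm_num)
      have h9 : (0.5 : ℝ) ≤ Real.log 2 := by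
        have := Real.log_two_gt_d9
        linarith
      have hj0 : (0 : ℝ) ≤ j := by positivity
      have h10 : (j : ℝ) ≤ 16 * (N : ℝ) ^ (1 / 8 : ℝ) := by nlinarith
      have : j ≤ ⌊16 * (N : ℝ) ^ (1 / 8 : ℝ)⌋₊ := Nat.le_floor h10
      show j < _
      omega
  have hcard : (((Finset.Icc 1 N).filter fun n : ℕ => IsPP n).card : ℝ) ≤
      34 * (N : ℝ) ^ (5 / 8 : ℝ) := by
    have h1 := (Finset.card_le_card hsub).trans Finset.card_image_le
    rw [Finset.card_product, Finset.card_range, Finset.card_range] at h1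
    have h2 : (((Finset.Icc 1 N).filter fun n : ℕ => IsPP n).card : ℝ) ≤
      (((⌊Real.sqrt N⌋₊ + 1) * (⌊16 * (N : ℝ) ^ (1 / 8 : ℝ)⌋₊ + 1) : ℕ) : ℝ) := by
      exact_mod_cast h1
    refine h2.trans ?_
    have h1 : ((⌊Real.sqrt N⌋₊ : ℕ) : ℝ) ≤ (N : ℝ) ^ (1 / 2 : ℝ) := by
      rw [← Real.sqrt_eq_rpow]
      exact Nat.floor_le (Real.sqrt_nonneg _)
    have h2 : ((⌊16 * (N : ℝ) ^ (1 / 8 : ℝ)⌋₊ : ℕ) : ℝ) ≤ 16 * (N : ℝ) ^ (1 / 8 : ℝ) :=
      Nat.floor_le (by positivity)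
    have h3 : (1 : ℝ) ≤ (N : ℝ) ^ (1 / 2 : ℝ) := Real.one_le_rpow hN1 (by norm_num)
    have h4 : (1 : ℝ) ≤ (N : ℝ) ^ (1 / 8 : ℝ) := Real.one_le_rpow hN1 (by norm_num)
    have h5 : (N : ℝ) ^ (5 / 8 : ℝ) = (N : ℝ) ^ (1 / 2 : ℝ) * (N : ℝ) ^ (1 / 8 : ℝ) := by
      rw [← Real.rpow_add (by linarith)]
      norm_num
    push_cast
    rw [h5]
    calc ((⌊Real.sqrt N⌋₊ : ℕ) + 1 : ℝ) * ((⌊16 * (N : ℝ) ^ (1 / 8 : ℝ)⌋₊ : ℕ) + 1) ≤
        ((N : ℝ) ^ (1 / 2 : ℝ) + (N : ℝ) ^ (1 / 2 : ℝ)) *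
          (16 * (N : ℝ) ^ (1 / 8 : ℝ) + (N : ℝ) ^ (1 / 8 : ℝ)) := by
          gcongr
      _ = _ := by ring
  have h4 : (N : ℝ) ^ (5 / 8 : ℝ) * (N : ℝ) ^ (3 / 8 : ℝ) = N := by
    rw [← Real.rpow_add hN0]
    norm_num
  have hL : 0 ≤ Real.log N := Real.log_nonneg hN1
  calc _ ≤ (34 * (N : ℝ) ^ (5 / 8 : ℝ)) * (C₀ * (N : ℝ) ^ (3 / 8 : ℝ)) := by
        have h5 := hC₀' N hN1
        gcongr
    _ = 34 * C₀ * ((N : ℝ) ^ (5 / 8 : ℝ) * (N : ℝ) ^ (3 / 8 : ℝ)) := by ring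
    _ = _ := by rw [h4]

lemma qcnt_le {k : ℕ} {α c : Fin k → ℝ} {i : Fin k} (h : PPB (α i) (c i)) (A K : ℕ) :
    ∃ C : ℝ, 0 ≤ C ∧ ∀ N : ℕ, 1 ≤ N → ∀ d : Fin k → ℕ,
      (∀ i, (d i : ℝ) ≤ (Real.log N) ^ A) → Qcnt α c d N i * Real.log N ^ K ≤ C * N := by
  classical
  obtain ⟨C, hC, hC'⟩ := h A K
  refine ⟨C, hC, fun N hN d hd => le_trans ?_ (hC' N hN)⟩
  have hN1 : (1 : ℝ) ≤ N := by exact_mod_cast hN
  have hL : 0 ≤ Real.log N := Real.log_nonneg hN1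
  apply mul_le_mul_of_nonneg_right _ (by positivity)
  rw [Qcnt]
  have h1 : ((Finset.Icc 1 N).filter fun n : ℕ => IsPP (⌊α i * (n : ℝ) ^ (c i)⌋₊ + d i)) ⊆
      ((Finset.Icc 1 N).filter fun n : ℕ => ∃ d : ℕ, (d : ℝ) ≤ Real.log N ^ A ∧
        IsPP (⌊α i * (n : ℝ) ^ (c i)⌋₊ + d)) := by
    intro n hn
    rw [Finset.mem_filter] at hn ⊢
    exact ⟨hn.1, d i, hd i, hn.2⟩
  exact_mod_cast Finset.card_le_card h1

/-- (P2'), almost everywhere -/
theorem count_one_ae (k : ℕ) (c : Fin k → ℝ) (hc : ∀ i, 0 < c i) :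
    ∀ᵐ α ∂((volume : Measure (Fin k → ℝ)).restrict {α | ∀ i, 0 < α i}),
    (∀ A : ℕ, ∀ ε : ℝ, 0 < ε → ∃ N₀ : ℕ, ∀ N : ℕ, N₀ ≤ N → ∀ d : Fin k → ℕ,
      (∀ i, (d i : ℝ) ≤ (Real.log N) ^ A) → |Msum α c d N - N| ≤ ε * N) →
    ∀ A : ℕ, ∀ ε : ℝ, 0 < ε → ∃ N₀ : ℕ, ∀ N : ℕ, N₀ ≤ N → ∀ d : Fin k → ℕ,
      (∀ i, (d i : ℝ) ≤ (Real.log N) ^ A) →
      |(((Finset.Icc 1 N).filter fun n : ℕ => ∀ i, (⌊α i * (n : ℝ) ^ (c i)⌋₊ + d i).Prime).card : ℝ) *
        (∏ i, (c i * Real.log N)) / N - 1| ≤ ε := by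
  filter_upwards [ae_ppb_all hc] with α hα hH A ε hε
  obtain ⟨hα0, hα1⟩ := hα
  obtain ⟨N₀, hN₀⟩ := count_core hα0 hc Set.univ
    (fun i A K => by
      obtain ⟨C, hC, hC'⟩ := qcnt_le (α := α) (c := c) (hα1 i) A K
      exact ⟨C, hC, fun N hN d _ hd => hC' N hN d hd⟩)
    (fun A ε hε => by
      obtain ⟨N₀, hN₀⟩ := hH A ε hε
      exact ⟨N₀, fun N hN d _ hd => hN₀ N hN d hd⟩) A hε
  exact ⟨N₀, fun N hN d hd => hN₀ N hN d (Set.mem_univ _) hd⟩

/-- (P2), almost everywhere -/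
theorem count_lam_ae (k : ℕ) (c : Fin k → ℝ) (hc : ∀ i, 0 < c i) :
    ∀ᵐ α ∂((volume : Measure (Fin k → ℝ)).restrict {α | ∀ i, 0 < α i}),
    (∀ A : ℕ, ∀ ε : ℝ, 0 < ε → ∃ N₀ : ℕ, ∀ N : ℕ, N₀ ≤ N → ∀ d : Fin k → ℕ,
      (∀ i, (d i : ℝ) ≤ (Real.log N) ^ A) → |Lsum α c d N - N| ≤ ε * N) →
    ∀ A : ℕ, ∀ ε : ℝ, 0 < ε → ∃ N₀ : ℕ, ∀ N : ℕ, N₀ ≤ N → ∀ d : Fin k → ℕ,
      (∀ i, (d i : ℝ) ≤ (Real.log N) ^ A) →
      |(((Finset.Icc 1 N).filter fun n : ℕ => n.Prime ∧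
          ∀ i, (⌊α i * (n : ℝ) ^ (c i)⌋₊ + d i).Prime).card : ℝ) *
        (Real.log N * ∏ i, (c i * Real.log N)) / N - 1| ≤ ε := by
  filter_upwards [ae_ppb_all hc] with α hα hH A ε hε
  obtain ⟨hα0, hα1⟩ := hα
  have hfl : ∀ n : ℕ, ⌊(1 : ℝ) * (n : ℝ) ^ (1 : ℝ)⌋₊ = n := by
    intro n
    rw [one_mul, Real.rpow_one, Nat.floor_natCast]
  have hM : ∀ (d : Fin (k + 1) → ℕ) (N : ℕ), d 0 = 0 →
      Msum (Fin.cons 1 α : Fin (k + 1) → ℝ) (Fin.cons 1 c : Fin (k + 1) → ℝ) d N =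
        Lsum α c (Fin.tail d) N := by
    intro d N hd
    rw [Msum, Lsum]
    refine Finset.sum_congr rfl fun n _ => ?_
    rw [Fin.prod_univ_succ]
    simp only [Fin.cons_zero, Fin.cons_succ, hd, add_zero, hfl, Fin.tail]
  have hP : ∀ (d : Fin (k + 1) → ℕ) (N : ℕ), d 0 = 0 →
      Pcnt (Fin.cons 1 α : Fin (k + 1) → ℝ) (Fin.cons 1 c : Fin (k + 1) → ℝ) d N =
      (((Finset.Icc 1 N).filter fun n : ℕ => n.Prime ∧
          ∀ i, (⌊α i * (n : ℝ) ^ (c i)⌋₊ + Fin.tail d i).Prime).card : ℝ) := by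
    intro d N hd
    rw [Pcnt]
    congr 2
    refine Finset.filter_congr fun n _ => ?_
    rw [Fin.forall_fin_succ]
    simp only [Fin.cons_zero, Fin.cons_succ, hd, add_zero, hfl, Fin.tail]
  obtain ⟨N₀, hN₀⟩ := count_core (k := k + 1) (α := Fin.cons 1 α) (c := Fin.cons 1 c)
    (fun i => by
      refine Fin.cases ?_ (fun i => ?_) i
      · simp
      · simpa using hα0 i)
    (fun i => by
      refine Fin.cases ?_ (fun i => ?_) i
      · simp
      · simpa using hc i)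
    {d | d 0 = 0}
    (fun i A K => by
      refine Fin.cases ?_ (fun i => ?_) i
      · obtain ⟨C, hC, hC'⟩ := self_count K
        refine ⟨C, hC, fun N hN d hd _ => ?_⟩
        have hd' : d 0 = 0 := hd
        have h1 := hC' N hN
        rw [Qcnt]
        refine le_trans (le_of_eq ?_) h1
        congr 3
        ext n
        simp only [Finset.mem_filter, Fin.cons_zero, hd', add_zero, hfl]
      · obtain ⟨C, hC, hC'⟩ := qcnt_le (α := Fin.cons 1 α) (c := Fin.cons 1 c) (i := i.succ)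
          (by simpa using hα1 i) A K
        exact ⟨C, hC, fun N hN d _ hd => hC' N hN d hd⟩)
    (fun A ε hε => by
      obtain ⟨N₀, hN₀⟩ := hH A ε hε
      refine ⟨N₀, fun N hN d hd hdA => ?_⟩
      rw [hM d N hd]
      exact hN₀ N hN _ fun i => hdA i.succ) A hε
  refine ⟨max N₀ 1, fun N hN d hd => ?_⟩
  have hN1 : (1 : ℝ) ≤ N := by exact_mod_cast (le_max_right _ _).trans hN
  have hL : 0 ≤ Real.log N := Real.log_nonneg hN1
  have h1 := hN₀ N ((le_max_left _ _).trans hN) (Fin.cons 0 d) (by simp) (fun i => by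
    refine Fin.cases ?_ (fun i => ?_) i
    · simp only [Fin.cons_zero, Nat.cast_zero]
      positivity
    · simpa using hd i)
  rw [hP _ _ (by simp), Fin.tail_cons, Fin.prod_univ_succ] at h1
  simp only [Fin.cons_zero, Fin.cons_succ, one_mul] at h1
  exact h1

end Pool.Agent.K4H50.MB
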