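import Pool.Agent.K4H50.MB.Spec

/-!
Fourier coefficients of `Λ(⌊v⌋ + d) - 1` in multiplicative coordinates: summation by parts.
-/

set_option autoImplicit false

namespace Pool.Agent.K4H50.MB

open Finset MeasureTheory Filter Topology
open Pool.Agent.H376R2.MR (er)
open Pool.Agent.Y957.VK (Neg lamw)

theorem er_n (τ x : ℝ) : ‖er τ x‖ = 1 := by
  unfold er
  exact Complex.norm_exp_ofReal_mul_I _

theorem er_sub (τ x y : ℝ) : er τ (x - y) * er τ y = er τ x := by
  unfold er
  rw [← Complex.exp_add]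
  congr 1
  push_cast
  ring

/-- `‖e^{iτx} - e^{iτy}‖ ≤ |τ| |x - y|` -/
theorem er_diff (τ x y : ℝ) : ‖er τ x - er τ y‖ ≤ |τ| * |x - y| := by
  have h1 : er τ x - er τ y = (er τ (x - y) - 1) * er τ y := by
    rw [sub_mul, er_sub, one_mul]
  rw [h1, norm_mul, er_n, mul_one]
  unfold er
  have h2 := Real.norm_exp_I_mul_ofReal_sub_one_le (x := τ * (x - y))
  rw [Real.norm_eq_abs, abs_mul] at h2
  rw [mul_comm Complex.I] at h2
  exact h2

/-- summation by parts -/
theorem abel (a e : ℕ → ℂ) (M : ℝ) (p : ℕ) : ∀ r, p ≤ r → (∀ q, p ≤ q → q ≤ r → ‖∑ j ∈ Ico p q, a j‖ ≤ M) →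
    ‖∑ q ∈ Ico p r, a q * e q‖ ≤ M * (‖e r‖ + ∑ q ∈ Ico p r, ‖e (q + 1) - e q‖) := by
  intro r hr hM
  have key : ∀ r, p ≤ r → ∑ q ∈ Ico p r, a q * e q = (∑ j ∈ Ico p r, a j) * e r -
      ∑ q ∈ Ico p r, (∑ j ∈ Ico p (q + 1), a j) * (e (q + 1) - e q) := by
    intro r hr
    induction r, hr using Nat.le_induction with
    | base => simp
    | succ r hr ih =>
      rw [sum_Ico_succ_top hr, ih, sum_Ico_succ_top hr (fun q => (∑ j ∈ Ico p (q + 1), a j) * (e (q + 1) - e q)),
        sum_Ico_succ_top hr (fun j => a j)]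
      ring
  rw [key r hr, mul_add, mul_sum]
  refine (norm_sub_le _ _).trans (add_le_add ?_ ((norm_sum_le _ _).trans (sum_le_sum fun q hq => ?_)))
  · rw [norm_mul]
    exact mul_le_mul_of_nonneg_right (hM r hr le_rfl) (norm_nonneg _)
  · rw [norm_mul]
    rw [mem_Ico] at hq
    exact mul_le_mul_of_nonneg_right (hM (q + 1) (by omega) (by omega)) (norm_nonneg _)

/-- the normalised integral over a step -/
noncomputable def Ee (t : ℝ) (d : ℕ) (q : ℕ) : ℂ :=
  ∫ s in (0 : ℝ)..1, ((1 / ((q : ℝ) + s) : ℝ) : ℂ) * er (-t) (Real.log (q + s) - Real.log (q + d))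

theorem Ee_ii (t : ℝ) (d q : ℕ) (hq : 1 ≤ q) : IntervalIntegrable (fun s : ℝ => ((1 / ((q : ℝ) + s) : ℝ) : ℂ) *
    er (-t) (Real.log (q + s) - Real.log (q + d))) volume 0 1 := by
  apply ContinuousOn.intervalIntegrable
  rw [Set.uIcc_of_le zero_le_one]
  have hq0 : (1 : ℝ) ≤ q := by exact_mod_cast hq
  have h1 : ∀ s ∈ Set.Icc (0 : ℝ) 1, (q : ℝ) + s ≠ 0 := fun s hs => by have := hs.1; positivity
  unfold er
  refine ContinuousOn.mul ?_ ?_
  · apply Complex.continuous_ofReal.comp_continuousOn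
    exact continuousOn_const.div (continuousOn_const.add continuousOn_id) h1
  · apply Complex.continuous_exp.comp_continuousOn
    refine ContinuousOn.mul ?_ continuousOn_const
    apply Complex.continuous_ofReal.comp_continuousOn
    refine continuousOn_const.mul ?_
    exact (ContinuousOn.log (continuousOn_const.add continuousOn_id) h1).sub continuousOn_const

theorem Ee_le (t : ℝ) (d q : ℕ) (hq : 1 ≤ q) : ‖Ee t d q‖ ≤ 1 / q := by
  have hq0 : (1 : ℝ) ≤ q := by exact_mod_cast hq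
  unfold Ee
  have h1 : ‖∫ s in (0 : ℝ)..1, ((1 / ((q : ℝ) + s) : ℝ) : ℂ) * er (-t) (Real.log (q + s) - Real.log (q + d))‖ ≤
      (1 / q) * |(1 : ℝ) - 0| := by
    refine intervalIntegral.norm_integral_le_of_norm_le_const fun s hs => ?_
    rw [Set.uIoc_of_le zero_le_one] at hs
    rw [norm_mul, er_n, mul_one, Complex.norm_real, Real.norm_eq_abs,
      abs_of_pos (div_pos one_pos (by linarith [hs.1]))]
    exact one_div_le_one_div_of_le (by linarith) (by linarith [hs.1])
  simpa using h1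

/-- `|log (1 + a) - log (1 + b)| ≤ |a - b|` -/
theorem log_one_diff {a b : ℝ} (ha : 0 ≤ a) (hb : 0 ≤ b) : |Real.log (1 + a) - Real.log (1 + b)| ≤ |a - b| := by
  wlog h : b ≤ a generalizing a b
  · rw [abs_sub_comm, abs_sub_comm a b]
    exact this hb ha (by linarith)
  have h1 : Real.log (1 + b) ≤ Real.log (1 + a) := Real.log_le_log (by linarith) (by linarith)
  rw [abs_of_nonneg (by linarith), abs_of_nonneg (by linarith), ← Real.log_div (by linarith) (by linarith)]
  refine (Real.log_le_sub_one_of_pos (by positivity)).trans ?_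
  rw [div_sub_one (by linarith), div_le_iff₀ (by linarith)]
  nlinarith

theorem Ee_diff (t : ℝ) (d q : ℕ) (hq : 1 ≤ q) :
    ‖Ee t d (q + 1) - Ee t d q‖ ≤ 1 / (q : ℝ) ^ 2 + |t| * (d + 1) / (q : ℝ) ^ 3 := by
  have hq0 : (1 : ℝ) ≤ q := by exact_mod_cast hq
  have hd0 : (0 : ℝ) ≤ d := Nat.cast_nonneg d
  have e1 : Ee t d (q + 1) - Ee t d q = ∫ s in (0 : ℝ)..1,
      (((1 / ((q + 1 : ℕ) + s) : ℝ) : ℂ) * er (-t) (Real.log ((q + 1 : ℕ) + s) - Real.log ((q + 1 : ℕ) + d)) -
      ((1 / ((q : ℝ) + s) : ℝ) : ℂ) * er (-t) (Real.log (q + s) - Real.log (q + d))) := by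
    unfold Ee
    rw [intervalIntegral.integral_sub (Ee_ii t d (q + 1) (by omega)) (Ee_ii t d q hq)]
  rw [e1]
  have h1 : ‖∫ s in (0 : ℝ)..1,
      (((1 / ((q + 1 : ℕ) + s) : ℝ) : ℂ) * er (-t) (Real.log ((q + 1 : ℕ) + s) - Real.log ((q + 1 : ℕ) + d)) -
      ((1 / ((q : ℝ) + s) : ℝ) : ℂ) * er (-t) (Real.log (q + s) - Real.log (q + d)))‖ ≤
      (1 / (q : ℝ) ^ 2 + |t| * (d + 1) / (q : ℝ) ^ 3) * |(1 : ℝ) - 0| := by
    refine intervalIntegral.norm_integral_le_of_norm_le_const fun s hs => ?_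
    rw [Set.uIoc_of_le zero_le_one] at hs
    have hs0 : 0 < s := hs.1
    have hs1 : s ≤ 1 := hs.2
    have hqs : 0 < (q : ℝ) + s := by linarith
    have hqs1 : 0 < ((q + 1 : ℕ) : ℝ) + s := by push_cast; linarith
    have e2 : ((1 / ((q + 1 : ℕ) + s) : ℝ) : ℂ) * er (-t) (Real.log ((q + 1 : ℕ) + s) - Real.log ((q + 1 : ℕ) + d)) -
        ((1 / ((q : ℝ) + s) : ℝ) : ℂ) * er (-t) (Real.log (q + s) - Real.log (q + d)) =
        (((1 / ((q + 1 : ℕ) + s) : ℝ) - (1 / ((q : ℝ) + s) : ℝ) : ℝ) : ℂ) *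
          er (-t) (Real.log ((q + 1 : ℕ) + s) - Real.log ((q + 1 : ℕ) + d)) +
        ((1 / ((q : ℝ) + s) : ℝ) : ℂ) * (er (-t) (Real.log ((q + 1 : ℕ) + s) - Real.log ((q + 1 : ℕ) + d)) -
          er (-t) (Real.log (q + s) - Real.log (q + d))) := by
      push_cast
      ring
    rw [e2]
    refine (norm_add_le _ _).trans (add_le_add ?_ ?_)
    · rw [norm_mul, er_n, mul_one, Complex.norm_real, Real.norm_eq_abs, abs_sub_comm, abs_of_nonneg]
      · push_cast
        rw [div_sub_div _ _ hqs.ne' (by positivity), div_le_div_iff₀ (by positivity) (by positivity)]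
        nlinarith
      · rw [sub_nonneg]
        exact one_div_le_one_div_of_le hqs (by push_cast; linarith)
    · rw [norm_mul, Complex.norm_real, Real.norm_eq_abs, abs_of_pos (div_pos one_pos hqs)]
      have h3 := er_diff (-t) (Real.log ((q + 1 : ℕ) + s) - Real.log ((q + 1 : ℕ) + d)) (Real.log (q + s) - Real.log (q + d))
      rw [abs_neg] at h3
      have h4 : |Real.log ((q + 1 : ℕ) + s) - Real.log ((q + 1 : ℕ) + d) - (Real.log (q + s) - Real.log (q + d))| ≤
          (d + 1) / (q : ℝ) ^ 2 := by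
        have hqd : 0 < (q : ℝ) + d := by linarith
        have f1 : Real.log ((q + 1 : ℕ) + s) - Real.log (q + s) = Real.log (1 + 1 / (q + s)) := by
          rw [← Real.log_div hqs1.ne' hqs.ne']
          congr 1
          push_cast
          field_simp
          ring
        have f2 : Real.log ((q + 1 : ℕ) + d) - Real.log (q + d) = Real.log (1 + 1 / (q + d)) := by
          rw [← Real.log_div (by push_cast; positivity) hqd.ne']
          congr 1
          push_cast
          field_simp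
          ring
        have f3 : Real.log ((q + 1 : ℕ) + s) - Real.log ((q + 1 : ℕ) + d) - (Real.log (q + s) - Real.log (q + d)) =
            Real.log (1 + 1 / (q + s)) - Real.log (1 + 1 / (q + d)) := by rw [← f1, ← f2]; ring
        rw [f3]
        refine (log_one_diff (by positivity) (by positivity)).trans ?_
        rw [div_sub_div _ _ hqs.ne' hqd.ne', abs_div, abs_of_pos (mul_pos hqs hqd), div_le_div_iff₀ (mul_pos hqs hqd) (by positivity)]
        have f4 : |1 * ((q : ℝ) + d) - (q + s) * 1| ≤ d + 1 := by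
          rw [abs_le]
          constructor <;> linarith
        have f5 : (q : ℝ) ^ 2 ≤ ((q : ℝ) + s) * (q + d) := by nlinarith
        calc _ ≤ ((d : ℝ) + 1) * (q : ℝ) ^ 2 := mul_le_mul_of_nonneg_right f4 (by positivity)
          _ ≤ _ := mul_le_mul_of_nonneg_left f5 (by positivity)
      calc 1 / ((q : ℝ) + s) * ‖er (-t) (Real.log ((q + 1 : ℕ) + s) - Real.log ((q + 1 : ℕ) + d)) -
            er (-t) (Real.log (q + s) - Real.log (q + d))‖ ≤ 1 / (q : ℝ) * (|t| * ((d + 1) / (q : ℝ) ^ 2)) := by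
            refine mul_le_mul (one_div_le_one_div_of_le (by linarith) (by linarith)) (h3.trans
              (mul_le_mul_of_nonneg_left h4 (abs_nonneg _))) (norm_nonneg _) (by positivity)
        _ = _ := by field_simp
  simpa using h1

end Pool.Agent.K4H50.MB
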