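import Pool.Agent.K4H50.MB.M9

/-!
The full sums in mean square.
-/

set_option autoImplicit false

namespace Pool.Agent.K4H50.MB

open Finset MeasureTheory Filter Topology FourierTransform
open scoped ENNReal
open Pool.Agent.H376R2.MR (er)
open Pool.Agent.Y957.VK

/-- the product of the weights -/
noncomputable def Pw {k : ℕ} (c α : Fin k → ℝ) (d : Fin k → ℕ) (n : ℕ) : ℝ :=
  ∏ i, ArithmeticFunction.vonMangoldt (⌊α i * (n : ℝ) ^ (c i)⌋₊ + d i)

/-- the full sum -/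
noncomputable def Sf (θ : ℕ → ℂ) {k : ℕ} (c α : Fin k → ℝ) (d : Fin k → ℕ) (N : ℕ) : ℂ :=
  ∑ n ∈ Finset.Icc 1 N, θ n * ((Pw c α d n : ℂ) - 1)

theorem Pw_nonneg {k : ℕ} (c α : Fin k → ℝ) (d : Fin k → ℕ) (n : ℕ) : 0 ≤ Pw c α d n :=
  Finset.prod_nonneg fun _ _ => ArithmeticFunction.vonMangoldt_nonneg

/-- each factor -/
theorem fac_le (b c : ℝ) (hc : 0 < c) (A R : ℕ) (hR : c ≤ R) : ∀ᶠ N : ℕ in atTop, ∀ d : ℕ,
    (d : ℝ) ≤ (Real.log N) ^ A → ∀ n : ℕ, n ≤ N → ∀ y : ℝ, y ≤ 1 →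
      ArithmeticFunction.vonMangoldt (⌊Real.exp (b + y) * (n : ℝ) ^ c⌋₊ + d) ≤ la R N := by
  have hlogt : Tendsto (fun N : ℕ => Real.log (N : ℝ)) atTop atTop :=
    Real.tendsto_log_atTop.comp tendsto_natCast_atTop_atTop
  filter_upwards [Q_facts b c hc 0 A R 1 hR, hlogt.eventually_ge_atTop 1, eventually_ge_atTop 2] with N h1 h2 h3 d hd n hn y hy
  obtain ⟨q1, q2, q3, q4, q5, q6, q7⟩ := h1
  have hN1 : (1 : ℝ) ≤ N := by exact_mod_cast (by omega : 1 ≤ N)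
  have h4 : ((⌊Real.exp (b + y) * (n : ℝ) ^ c⌋₊ : ℕ) : ℝ) ≤ Qb b c N := by
    unfold Qb
    have : ⌊Real.exp (b + y) * (n : ℝ) ^ c⌋₊ ≤ ⌊Real.exp (b + 1) * (N : ℝ) ^ c⌋₊ := by
      refine Nat.floor_mono ?_
      have i1 : Real.exp (b + y) ≤ Real.exp (b + 1) := Real.exp_le_exp.2 (by linarith)
      have i2 : (n : ℝ) ≤ N := by exact_mod_cast hn
      have i3 : (n : ℝ) ^ c ≤ (N : ℝ) ^ c := Real.rpow_le_rpow (Nat.cast_nonneg n) i2 hc.le
      exact mul_le_mul i1 i3 (Real.rpow_nonneg (Nat.cast_nonneg n) c) (Real.exp_pos _).le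
    exact_mod_cast this.trans (Nat.le_succ _)
  have h5 : ((⌊Real.exp (b + y) * (n : ℝ) ^ c⌋₊ + d : ℕ) : ℝ) + 3 ≤ (N : ℝ) ^ (R + 1) := by
    push_cast
    linarith
  refine (ArithmeticFunction.vonMangoldt_le_log).trans ?_
  obtain ⟨m, hm⟩ : ∃ m, m = ⌊Real.exp (b + y) * (n : ℝ) ^ c⌋₊ + d := ⟨_, rfl⟩
  rw [← hm] at h5 ⊢
  have h6 : Real.log ((m : ℝ) + 3) ≤ la R N := by
    have h7 := Real.log_le_log (by positivity) h5
    rw [Real.log_pow] at h7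
    unfold la
    push_cast at h7
    exact h7
  refine le_trans ?_ h6
  rcases Nat.eq_zero_or_pos m with h0 | h0
  · rw [h0]
    simp
    exact Real.log_nonneg (by norm_num)
  · exact Real.log_le_log (by exact_mod_cast h0) (by linarith)

theorem Pw_le {k : ℕ} (b c : Fin k → ℝ) (hc : ∀ i, 0 < c i) (A R : ℕ) (hR : ∀ i, c i ≤ R) : ∀ᶠ N : ℕ in atTop,
    ∀ d : Fin k → ℕ, (∀ i, (d i : ℝ) ≤ (Real.log N) ^ A) → ∀ n : ℕ, n ≤ N → ∀ ω : Fin k → ℝ, (∀ i, ω i ≤ 1) →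
      Pw c (fun i => Real.exp (b i + ω i)) d n ≤ (la R N) ^ k := by
  have h1 : ∀ᶠ N : ℕ in atTop, ∀ i : Fin k, ∀ d : ℕ,
    (d : ℝ) ≤ (Real.log N) ^ A → ∀ n : ℕ, n ≤ N → ∀ y : ℝ, y ≤ 1 →
      ArithmeticFunction.vonMangoldt (⌊Real.exp (b i + y) * (n : ℝ) ^ (c i)⌋₊ + d) ≤ la R N := by
    rw [eventually_all]
    exact fun i => fac_le (b i) (c i) (hc i) A R (hR i)
  filter_upwards [h1] with N h1 d hd n hn ω hω
  unfold Pw
  calc _ ≤ ∏ _i : Fin k, la R N := Finset.prod_le_prod (fun _ _ => ArithmeticFunction.vonMangoldt_nonneg)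
        fun i _ => h1 i (d i) (hd i) n hn (ω i) (hω i)
    _ = _ := by simp

theorem term_le {θ : ℕ → ℂ} (hθ1 : ∀ n, ‖θ n‖ ≤ Real.log (n + 3)) {k : ℕ} (b c : Fin k → ℝ) (hc : ∀ i, 0 < c i) (A R : ℕ)
    (hR : ∀ i, c i ≤ R) : ∀ᶠ N : ℕ in atTop,
    ∀ d : Fin k → ℕ, (∀ i, (d i : ℝ) ≤ (Real.log N) ^ A) → ∀ n : ℕ, n ≤ N → ∀ ω : Fin k → ℝ, (∀ i, ω i ≤ 1) →
      ‖θ n * ((Pw c (fun i => Real.exp (b i + ω i)) d n : ℂ) - 1)‖ ≤ 4 * Real.log N * (la R N) ^ k := by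
  have hlogt : Tendsto (fun N : ℕ => Real.log (N : ℝ)) atTop atTop :=
    Real.tendsto_log_atTop.comp tendsto_natCast_atTop_atTop
  filter_upwards [Pw_le b c hc A R hR, hlogt.eventually_ge_atTop 1, eventually_ge_atTop 3] with N h1 h2 h3 d hd n hn ω hω
  have h4 := h1 d hd n hn ω hω
  have h5 := Pw_nonneg c (fun i => Real.exp (b i + ω i)) d n
  have hR0 : (0 : ℝ) ≤ R := Nat.cast_nonneg R
  have hla : 1 ≤ la R N := by
    unfold la
    nlinarith
  have hlk : 1 ≤ (la R N) ^ k := one_le_pow₀ hla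
  have hN3 : (3 : ℝ) ≤ N := by exact_mod_cast h3
  have hn' : (n : ℝ) ≤ N := by exact_mod_cast hn
  have h6 : ‖θ n‖ ≤ 2 * Real.log N := by
    refine (hθ1 n).trans ?_
    have h4 : (n : ℝ) + 3 ≤ (N : ℝ) ^ 2 := by nlinarith
    have h5 := Real.log_le_log (by positivity) h4
    rw [Real.log_pow] at h5
    push_cast at h5
    linarith
  have h7 : ‖((Pw c (fun i => Real.exp (b i + ω i)) d n : ℂ) - 1)‖ ≤ 2 * (la R N) ^ k := by
    refine (norm_sub_le _ _).trans ?_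
    rw [Complex.norm_real, Real.norm_eq_abs, abs_of_nonneg h5, norm_one]
    linarith
  rw [norm_mul]
  calc ‖θ n‖ * ‖((Pw c (fun i => Real.exp (b i + ω i)) d n : ℂ) - 1)‖ ≤ (2 * Real.log N) * (2 * (la R N) ^ k) :=
        mul_le_mul h6 h7 (norm_nonneg _) (by linarith)
    _ = _ := by ring

theorem cube_ae {k : ℕ} : ∀ᵐ ω ∂(Measure.pi fun _ : Fin k => U1), ∀ i, ω i ∈ Set.Icc (0 : ℝ) 1 := by
  rw [ae_all_iff]
  intro i
  exact (Measure.quasiMeasurePreserving_eval (μ := fun _ : Fin k => U1) i).ae (ae_restrict_mem measurableSet_Icc)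

/-- the full sum and the sum over the window -/
theorem Sf_split {θ : ℕ → ℂ} (hθ1 : ∀ n, ‖θ n‖ ≤ Real.log (n + 3)) {k : ℕ} (b c : Fin k → ℝ) (hc : ∀ i, 0 < c i) (C1 A R : ℕ)
    (hR : ∀ i, c i ≤ R) : ∀ᶠ N : ℕ in atTop,
    ∀ d : Fin k → ℕ, (∀ i, (d i : ℝ) ≤ (Real.log N) ^ A) → ∀ ω : Fin k → ℝ, (∀ i, ω i ∈ Set.Icc (0 : ℝ) 1) →
      ‖Sf θ c (fun i => Real.exp (b i + ω i)) d N‖ ≤ 4 * Real.log N * (la R N) ^ k *
        (‖∑ n ∈ Finset.Icc 1 N, DN θ C1 R b c d N ω n‖ + N / (Real.log N) ^ C1) := by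
  have hlogt : Tendsto (fun N : ℕ => Real.log (N : ℝ)) atTop atTop :=
    Real.tendsto_log_atTop.comp tendsto_natCast_atTop_atTop
  have hq : ∀ᶠ N : ℕ in atTop, ∀ i : Fin k, (∀ n : ℕ, Yn C1 N < n → n ≤ N → ∀ y : ℝ, y ∈ Set.Icc (0 : ℝ) 1 →
      ⌊Real.exp (b i + y) * (n : ℝ) ^ (c i)⌋₊ ∈ Ico (Qa (b i) (c i) C1 N) (Qb (b i) (c i) N)) := by
    rw [eventually_all]
    intro i
    filter_upwards [Q_facts (b i) (c i) (hc i) C1 A R 1 (hR i)] with N h
    exact h.2.2.2.2.2.2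
  filter_upwards [term_le hθ1 b c hc A R hR, Yn_facts C1, hq, hlogt.eventually_ge_atTop 1] with N h1 h2 h3 h4 d hd ω hω
  obtain ⟨y1, y2, y3, y4, y5⟩ := h2
  have hR0 : (0 : ℝ) ≤ R := Nat.cast_nonneg R
  have hla : 1 ≤ la R N := by
    unfold la
    nlinarith
  have hla0 : 0 < la R N := by linarith
  have hl0 : 0 < Real.log N := by linarith
  have hlc : ((la R N : ℝ) : ℂ) ≠ 0 := by exact_mod_cast hla0.ne'
  have hllc : ((Real.log N : ℝ) : ℂ) ≠ 0 := by exact_mod_cast hl0.ne'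
  have hYN : (Yn C1 N : ℝ) ≤ N / (Real.log N) ^ C1 := Nat.floor_le (by positivity)
  have e1 : Sf θ c (fun i => Real.exp (b i + ω i)) d N =
      ∑ n ∈ Finset.Icc 1 (Yn C1 N), θ n * ((Pw c (fun i => Real.exp (b i + ω i)) d n : ℂ) - 1) +
        ((4 * Real.log N * (la R N) ^ k : ℝ) : ℂ) * ∑ n ∈ Finset.Icc 1 N, DN θ C1 R b c d N ω n := by
    unfold Sf
    rw [← Finset.sum_filter_add_sum_filter_not (Finset.Icc 1 N) (fun n => n ≤ Yn C1 N), Finset.mul_sum]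
    congr 1
    · refine Finset.sum_congr ?_ fun _ _ => rfl
      ext n
      simp only [mem_filter, mem_Icc]
      omega
    · rw [Finset.sum_filter]
      refine Finset.sum_congr rfl fun n hn => ?_
      rw [mem_Icc] at hn
      by_cases hY : n ≤ Yn C1 N
      · rw [if_neg (by simpa using hY)]
        have e2 : DN θ C1 R b c d N ω n = 0 := by
          unfold DN GN wN
          rw [if_neg (fun h => absurd h.1 (not_lt.2 hY))]
          simp
        rw [e2, mul_zero]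
      · rw [if_pos hY]
        have e2 : ∏ i, aN (b i) (c i) C1 R N (d i) ⌊Real.exp (b i + ω i) * (n : ℝ) ^ (c i)⌋₊ =
            (Pw c (fun i => Real.exp (b i + ω i)) d n : ℂ) / ((la R N : ℝ) : ℂ) ^ k := by
          unfold Pw
          push_cast
          have e3 : ((la R N : ℝ) : ℂ) ^ k = ∏ _i : Fin k, ((la R N : ℝ) : ℂ) := by simp
          rw [e3, ← Finset.prod_div_distrib]
          refine Finset.prod_congr rfl fun i _ => ?_
          unfold aN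
          rw [if_pos (h3 i n (not_le.1 hY) hn.2 (ω i) (hω i))]
        unfold DN GN
        rw [e2]
        unfold wN
        rw [if_pos ⟨not_le.1 hY, hn.2⟩]
        simp only [Complex.ofReal_mul, Complex.ofReal_pow, Complex.ofReal_ofNat]
        field_simp
        ring
  rw [e1]
  refine (norm_add_le _ _).trans ?_
  have e3 : 0 ≤ 4 * Real.log N * (la R N) ^ k := by positivity
  rw [norm_mul, Complex.norm_real, Real.norm_eq_abs, abs_of_nonneg e3, mul_add, add_comm]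
  refine add_le_add le_rfl ?_
  calc ‖∑ n ∈ Finset.Icc 1 (Yn C1 N), θ n * ((Pw c (fun i => Real.exp (b i + ω i)) d n : ℂ) - 1)‖ ≤
        ∑ n ∈ Finset.Icc 1 (Yn C1 N), 4 * Real.log N * (la R N) ^ k := by
        refine norm_sum_le_of_le _ fun n hn => ?_
        rw [mem_Icc] at hn
        exact h1 d hd n (hn.2.trans y2) ω fun i => (hω i).2
    _ = (Yn C1 N : ℝ) * (4 * Real.log N * (la R N) ^ k) := by
        rw [Finset.sum_const, Nat.card_Icc, nsmul_eq_mul]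
        simp
    _ ≤ (N / (Real.log N) ^ C1) * (4 * Real.log N * (la R N) ^ k) := by gcongr
    _ = _ := by ring

theorem Sf_small {θ : ℕ → ℂ} (hθ : Wb θ) (hθ1 : ∀ n, ‖θ n‖ ≤ Real.log (n + 3)) {k : ℕ} (b c : Fin k → ℝ)
    (hc : ∀ i, 0 < c i) (A K : ℕ) : ∃ C : ℝ, 0 ≤ C ∧ ∀ᶠ N : ℕ in atTop, ∀ d : Fin k → ℕ,
      (∀ i, (d i : ℝ) ≤ (Real.log N) ^ A) →
        ∫⁻ ω, ‖Sf θ c (fun i => Real.exp (b i + ω i)) d N‖ₑ ^ 2 ∂(Measure.pi fun _ : Fin k => U1) ≤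
          ENNReal.ofReal (C * N ^ 2 / (Real.log N) ^ K) := by
  obtain ⟨R, hR⟩ : ∃ R : ℕ, ∀ i, c i ≤ R := by
    obtain ⟨x, hx⟩ := (Set.finite_range c).bddAbove
    exact ⟨⌈x⌉₊, fun i => (hx ⟨i, rfl⟩).trans (Nat.le_ceil x)⟩
  obtain ⟨C1, hC1⟩ : ∃ C1, C1 = K + k + 1 := ⟨_, rfl⟩
  obtain ⟨C, hC, h1⟩ := DN_small hθ hθ1 C1 R k b c hc hR A 0 (K + 2 * k + 2)
  have hlogt : Tendsto (fun N : ℕ => Real.log (N : ℝ)) atTop atTop :=
    Real.tendsto_log_atTop.comp tendsto_natCast_atTop_atTop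
  refine ⟨32 * ((R : ℝ) + 1) ^ (2 * k) * (C + 1), by positivity, ?_⟩
  filter_upwards [h1, Sf_split hθ1 b c hc C1 A R hR, hlogt.eventually_ge_atTop 1] with N h1 h2 h3 d hd
  obtain ⟨l, hl⟩ : ∃ l, l = Real.log (N : ℝ) := ⟨_, rfl⟩
  have hl0 : 0 < l := by linarith
  have h4 := h1 d hd 0 (by simp)
  simp only [er, zero_mul, Complex.ofReal_zero, Complex.exp_zero, mul_one] at h4
  obtain ⟨M, hM⟩ : ∃ M : ℝ, M = 4 * l * (la R N) ^ k := ⟨_, rfl⟩
  have hM2 : M ^ 2 = 16 * ((R : ℝ) + 1) ^ (2 * k) * l ^ (2 * k + 2) := by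
    rw [hM]
    unfold la
    rw [← hl, mul_pow ((R : ℝ) + 1), mul_pow, mul_pow, mul_pow, ← pow_mul, ← pow_mul, mul_comm k 2]
    ring
  have hM0 : 0 ≤ M := by
    rw [hM]
    have : 0 ≤ la R N := by
      unfold la
      rw [← hl]
      positivity
    positivity
  have hmeas : Measurable fun ω => ‖∑ n ∈ Finset.Icc 1 N, DN θ C1 R b c d N ω n‖ₑ ^ 2 :=
    (Finset.measurable_sum _ fun n _ => DN_meas θ C1 R b c d N n).enorm.pow_const 2
  calc ∫⁻ ω, ‖Sf θ c (fun i => Real.exp (b i + ω i)) d N‖ₑ ^ 2 ∂(Measure.pi fun _ : Fin k => U1) ≤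
        ∫⁻ ω, (ENNReal.ofReal (2 * M ^ 2) * ‖∑ n ∈ Finset.Icc 1 N, DN θ C1 R b c d N ω n‖ₑ ^ 2 +
          ENNReal.ofReal (2 * M ^ 2 * (N / l ^ C1) ^ 2)) ∂(Measure.pi fun _ : Fin k => U1) := by
        refine lintegral_mono_ae ?_
        filter_upwards [cube_ae] with ω hω
        have h5 := h2 d hd ω hω
        rw [← hl, ← hM] at h5
        rw [← ofReal_norm_eq_enorm, ← ofReal_norm_eq_enorm, ← ENNReal.ofReal_pow (norm_nonneg _),
          ← ENNReal.ofReal_pow (norm_nonneg _), ← ENNReal.ofReal_mul (by positivity),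
          ← ENNReal.ofReal_add (by positivity) (by positivity)]
        refine ENNReal.ofReal_le_ofReal ?_
        generalize ‖∑ n ∈ Finset.Icc 1 N, DN θ C1 R b c d N ω n‖ = x at h5
        have h6 := pow_le_pow_left₀ (norm_nonneg _) h5 2
        have h7 : 0 ≤ M ^ 2 := sq_nonneg M
        nlinarith [mul_nonneg h7 (sq_nonneg (x - N / l ^ C1))]
    _ = ENNReal.ofReal (2 * M ^ 2) * ∫⁻ ω, ‖∑ n ∈ Finset.Icc 1 N, DN θ C1 R b c d N ω n‖ₑ ^ 2 ∂(Measure.pi fun _ : Fin k => U1) +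
          ENNReal.ofReal (2 * M ^ 2 * (N / l ^ C1) ^ 2) := by
        rw [lintegral_add_left (hmeas.const_mul _), lintegral_const_mul _ hmeas, lintegral_const, measure_univ, mul_one]
    _ ≤ ENNReal.ofReal (2 * M ^ 2) * ENNReal.ofReal (C * N ^ 2 / (Real.log N) ^ (K + 2 * k + 2)) +
          ENNReal.ofReal (2 * M ^ 2 * (N / l ^ C1) ^ 2) := by gcongr
    _ ≤ _ := by
        rw [← ENNReal.ofReal_mul (by positivity), ← ENNReal.ofReal_add (by positivity) (by positivity)]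
        refine ENNReal.ofReal_le_ofReal ?_
        rw [← hl, hM2]
        have k1 : 2 * (16 * ((R : ℝ) + 1) ^ (2 * k) * l ^ (2 * k + 2)) * (C * N ^ 2 / l ^ (K + 2 * k + 2)) =
            32 * ((R : ℝ) + 1) ^ (2 * k) * C * (N ^ 2 / l ^ K) := by
          rw [show K + 2 * k + 2 = K + (2 * k + 2) by ring, pow_add l K]
          field_simp
          ring
        have k2 : 2 * (16 * ((R : ℝ) + 1) ^ (2 * k) * l ^ (2 * k + 2)) * (N / l ^ C1) ^ 2 ≤
            32 * ((R : ℝ) + 1) ^ (2 * k) * 1 * (N ^ 2 / l ^ K) := by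
          have e5 : l ^ C1 = l ^ K * l ^ (k + 1) := by
            rw [hC1, ← pow_add]
            ring_nf
          have e6 : l ^ (2 * k + 2) = (l ^ (k + 1)) ^ 2 := by
            rw [← pow_mul]
            ring_nf
          have e7 : 2 * (16 * ((R : ℝ) + 1) ^ (2 * k) * l ^ (2 * k + 2)) * (N / l ^ C1) ^ 2 =
              32 * ((R : ℝ) + 1) ^ (2 * k) * 1 * (N ^ 2 / l ^ K) * (1 / l ^ K) := by
            rw [e5, e6]
            field_simp
            ring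
          rw [e7]
          refine mul_le_of_le_one_right (by positivity) ?_
          rw [div_le_one (by positivity)]
          exact one_le_pow₀ (by rw [hl]; exact h3)
        calc _ ≤ 32 * ((R : ℝ) + 1) ^ (2 * k) * C * (N ^ 2 / l ^ K) + 32 * ((R : ℝ) + 1) ^ (2 * k) * 1 * (N ^ 2 / l ^ K) := by
              rw [k1]
              exact add_le_add le_rfl k2
          _ = _ := by ring

end Pool.Agent.K4H50.MB
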