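import Pool.Agent.K4H50.MB.M10
import Pool.Agent.Y901.VK.Bc

/-!
From the mean square to almost every parameter.
-/

set_option autoImplicit false

namespace Pool.Agent.K4H50.MB

open Finset MeasureTheory Filter Topology FourierTransform
open scoped ENNReal
open Pool.Agent.H376R2.MR (er)
open Pool.Agent.Y957.VK

/-- the deterministic lemma -/
theorem det2 {D : Type*} (S : ℕ → D → ℂ) (In : ℕ → D → Prop) (T : ℕ → ℝ) (E : ℝ) (J K : ℕ) (hE : 1 ≤ E)
    (hIn : ∀ N d, In N d → In (N + 1) d)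
    (hS : ∀ᶠ M : ℕ in atTop, ∀ d, In M d → ∀ N, M ≤ N → N ≤ 2 * M → ‖S (N + 1) d - S N d‖ ≤ E * (Real.log M) ^ J)
    (hT : ∀ N d, In N d → ‖S N d‖ ^ 2 ≤ T N) (hT0 : ∀ N, 0 ≤ T N)
    (hsum : Summable fun N : ℕ => Real.log N ^ (3 * K + J + 1) / (N : ℝ) ^ 3 * T N) :
    ∀ᶠ M : ℕ in atTop, ∀ d, In M d → ‖S M d‖ ≤ M / (Real.log M) ^ K := by
  have hlogt : Tendsto (fun N : ℕ => Real.log (N : ℝ)) atTop atTop :=
    Real.tendsto_log_atTop.comp tendsto_natCast_atTop_atTop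
  have e1 : ∀ᶠ N : ℕ in atTop, ∑' M : ℕ, (Real.log ((M + N : ℕ) : ℝ) ^ (3 * K + J + 1) /
      ((M + N : ℕ) : ℝ) ^ 3 * T (M + N)) < 1 :=
    (tendsto_sum_nat_add fun N : ℕ => Real.log N ^ (3 * K + J + 1) / (N : ℝ) ^ 3 * T N).eventually_lt_const
      one_pos
  have e2 : ∀ᶠ N : ℕ in atTop, Real.log (N : ℝ) ^ (K + J) ≤ 1 / (2 * E) * (N : ℝ) :=
    log_pow_small (K + J) _ (by positivity)
  have e3 : ∀ᶠ N : ℕ in atTop, 200 * E ≤ Real.log (N : ℝ) := hlogt.eventually_ge_atTop _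
  have e4 : ∀ᶠ N : ℕ in atTop, 1 ≤ N := eventually_ge_atTop 1
  filter_upwards [e1, e2, e3, e4, hS] with N h1 h2 h3 h4 h5 d hd
  by_contra hcon
  push Not at hcon
  have hInj : ∀ j, In (N + j) d := by
    intro j
    induction j with
    | zero => exact hd
    | succ j ih => exact hIn _ _ ih
  obtain ⟨l, hl⟩ : ∃ l, l = Real.log (N : ℝ) := ⟨_, rfl⟩
  rw [← hl] at h2 h3 hcon
  have hN1 : (1 : ℝ) ≤ N := by exact_mod_cast h4
  have hl1 : 1 ≤ l := by linarith
  have hl0 : 0 < l := by linarith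
  have hlp : 1 ≤ l ^ K := one_le_pow₀ hl1
  have hlJ : 1 ≤ l ^ J := one_le_pow₀ hl1
  obtain ⟨W, hW⟩ : ∃ W : ℝ, W = E * l ^ J := ⟨_, rfl⟩
  have hW1 : 1 ≤ W := by
    rw [hW]
    nlinarith
  have hdiff : ∀ j : ℕ, j ≤ N → ‖S (N + j) d - S N d‖ ≤ j * W := by
    intro j
    induction j with
    | zero => intro _; simp
    | succ j ih =>
      intro hj
      have g1 := ih (by omega)
      have g2 := h5 d hd (N + j) (by omega) (by omega)
      rw [← hl, ← hW] at g2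
      have g3 : S (N + (j + 1)) d - S N d = (S (N + j + 1) d - S (N + j) d) + (S (N + j) d - S N d) := by
        rw [← add_assoc]
        ring
      rw [g3]
      refine (norm_add_le _ _).trans ?_
      push_cast
      linarith
  obtain ⟨Y, hY⟩ : ∃ Y : ℝ, Y = N / (2 * l ^ K) := ⟨_, rfl⟩
  have hYW : W ≤ Y := by
    rw [hW, hY, le_div_iff₀ (by positivity)]
    have h6 : l ^ (K + J) * (2 * E) ≤ N := by
      have h7 := mul_le_mul_of_nonneg_right h2 (by positivity : 0 ≤ 2 * E)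
      have h8 : 1 / (2 * E) * (N : ℝ) * (2 * E) = N := by field_simp
      linarith
    calc E * l ^ J * (2 * l ^ K) = l ^ (K + J) * (2 * E) := by
          rw [pow_add]
          ring
      _ ≤ N := h6
  have hYN : Y ≤ N := by
    rw [hY]
    exact div_le_self (by linarith) (by linarith)
  have hY0 : 0 < Y := by linarith
  have h2Y : 2 * Y = N / l ^ K := by
    rw [hY]
    field_simp
  rw [← h2Y] at hcon
  obtain ⟨H, hH⟩ : ∃ H : ℕ, H = ⌊Y / W⌋₊ := ⟨_, rfl⟩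
  have hYW1 : 1 ≤ Y / W := by
    rw [le_div_iff₀ (by linarith)]
    linarith
  have hH1 : (H : ℝ) ≤ Y / W := by
    rw [hH]
    exact Nat.floor_le (by linarith)
  have hH2 : Y / W / 2 ≤ H := by
    have h5 : Y / W < H + 1 := by
      rw [hH]
      exact Nat.lt_floor_add_one _
    have h6 : (1 : ℝ) ≤ H := by
      have : 1 ≤ H := by
        rw [hH]
        exact Nat.le_floor (by simpa using hYW1)
      exact_mod_cast this
    linarith
  have hHW : (H : ℝ) * W ≤ Y := by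
    rwa [le_div_iff₀ (by linarith)] at hH1
  have hHY : (H : ℝ) ≤ Y := by
    have : (0 : ℝ) ≤ H := Nat.cast_nonneg H
    nlinarith
  have hterm : ∀ j ∈ Finset.range H, l ^ (3 * K + J + 1) / (8 * (N : ℝ) ^ 3) * Y ^ 2 ≤
      Real.log ((j + N : ℕ) : ℝ) ^ (3 * K + J + 1) / ((j + N : ℕ) : ℝ) ^ 3 * T (j + N) := by
    intro j hj
    have hjH : (j : ℝ) ≤ H := by exact_mod_cast (Finset.mem_range.1 hj).le
    have hjN : j ≤ N := by
      have : (j : ℝ) ≤ N := by linarith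
      exact_mod_cast this
    have h5 : Y ≤ ‖S (j + N) d‖ := by
      have h6 := hdiff j hjN
      rw [add_comm N j] at h6
      have h7 : ‖S N d‖ ≤ ‖S (j + N) d‖ + ‖S (j + N) d - S N d‖ := by
        have := norm_sub_le (S (j + N) d) (S (j + N) d - S N d)
        rwa [sub_sub_cancel] at this
      have h8 : (j : ℝ) * W ≤ H * W := by gcongr
      linarith
    have h6 : l ≤ Real.log ((j + N : ℕ) : ℝ) := by
      rw [hl]
      refine Real.log_le_log (by linarith) ?_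
      push_cast
      have : (0 : ℝ) ≤ j := Nat.cast_nonneg j
      linarith
    have h7 : ((j + N : ℕ) : ℝ) ≤ 2 * N := by
      push_cast
      linarith
    have h8 : (0 : ℝ) < ((j + N : ℕ) : ℝ) := by
      push_cast
      have : (0 : ℝ) ≤ j := Nat.cast_nonneg j
      linarith
    have h9 : Y ^ 2 ≤ T (j + N) := by
      refine (pow_le_pow_left₀ hY0.le h5 2).trans (hT _ _ ?_)
      rw [add_comm]
      exact hInj j
    refine mul_le_mul ?_ h9 (by positivity) (by positivity)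
    refine div_le_div₀ (by positivity) (pow_le_pow_left₀ hl0.le h6 _) (by positivity) ?_
    calc ((j + N : ℕ) : ℝ) ^ 3 ≤ (2 * (N : ℝ)) ^ 3 := pow_le_pow_left₀ h8.le h7 3
      _ = 8 * (N : ℝ) ^ 3 := by ring
  have h5 : ∑ j ∈ Finset.range H, l ^ (3 * K + J + 1) / (8 * (N : ℝ) ^ 3) * Y ^ 2 ≤
      ∑' M : ℕ, (Real.log ((M + N : ℕ) : ℝ) ^ (3 * K + J + 1) / ((M + N : ℕ) : ℝ) ^ 3 * T (M + N)) := by
    refine (Finset.sum_le_sum hterm).trans ?_
    refine ((summable_nat_add_iff N).2 hsum).sum_le_tsum (Finset.range H) (fun M _ => ?_)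
    have h9 : 0 ≤ Real.log ((M + N : ℕ) : ℝ) := Real.log_natCast_nonneg _
    have h10 := hT0 (M + N)
    positivity
  rw [Finset.sum_const, Finset.card_range, nsmul_eq_mul] at h5
  have h6 : l / (128 * E) ≤ (H : ℝ) * (l ^ (3 * K + J + 1) / (8 * (N : ℝ) ^ 3) * Y ^ 2) := by
    calc l / (128 * E) = Y / W / 2 * (l ^ (3 * K + J + 1) / (8 * (N : ℝ) ^ 3) * Y ^ 2) := by
          rw [hY, hW]
          have h7 : l ^ (3 * K + J + 1) = l * (l ^ K) ^ 3 * l ^ J := by ring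
          rw [h7]
          field_simp
          norm_num
      _ ≤ _ := mul_le_mul_of_nonneg_right hH2 (by positivity)
  have h7 : 1 ≤ l / (128 * E) := by
    rw [le_div_iff₀ (by positivity)]
    linarith
  linarith

/-- the finite set of the shifts -/
noncomputable def DS (k A N : ℕ) : Finset (Fin k → ℕ) := Fintype.piFinset fun _ : Fin k => Finset.range (⌊(Real.log N) ^ A⌋₊ + 1)

theorem mem_DS {k A N : ℕ} (d : Fin k → ℕ) : d ∈ DS k A N ↔ ∀ i, (d i : ℝ) ≤ (Real.log N) ^ A := by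
  unfold DS
  rw [Fintype.mem_piFinset]
  have h0 : 0 ≤ (Real.log N) ^ A := pow_nonneg (Real.log_natCast_nonneg N) A
  refine forall_congr' fun i => ?_
  rw [Finset.mem_range, Nat.lt_succ_iff, Nat.le_floor_iff h0]

theorem card_DS (k A N : ℕ) (hN : 1 ≤ Real.log N) : ((DS k A N).card : ℝ) ≤ 2 ^ k * (Real.log N) ^ (A * k) := by
  unfold DS
  rw [Fintype.card_piFinset]
  simp only [Finset.card_range, Finset.prod_const, Finset.card_univ, Fintype.card_fin]
  push_cast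
  have h1 : 1 ≤ (Real.log N) ^ A := one_le_pow₀ hN
  have h2 : ((⌊(Real.log N) ^ A⌋₊ : ℕ) : ℝ) ≤ (Real.log N) ^ A := Nat.floor_le (by linarith)
  calc ((⌊(Real.log N) ^ A⌋₊ : ℝ) + 1) ^ k ≤ (2 * (Real.log N) ^ A) ^ k :=
        pow_le_pow_left₀ (by positivity) (by linarith) k
    _ = _ := by rw [mul_pow, ← pow_mul]

theorem Sf_meas (θ : ℕ → ℂ) {k : ℕ} (b c : Fin k → ℝ) (d : Fin k → ℕ) (N : ℕ) :
    Measurable fun ω : Fin k → ℝ => Sf θ c (fun i => Real.exp (b i + ω i)) d N := by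
  unfold Sf Pw
  refine Finset.measurable_sum _ fun n _ => ?_
  refine Measurable.const_mul (Measurable.sub_const ?_ _) _
  refine Complex.measurable_ofReal.comp ?_
  refine Finset.measurable_prod _ fun i _ => ?_
  have h1 : Measurable fun y : ℝ => ArithmeticFunction.vonMangoldt (⌊Real.exp (b i + y) * (n : ℝ) ^ (c i)⌋₊ + d i) :=
    (measurable_of_countable fun m : ℕ => ArithmeticFunction.vonMangoldt (m + d i)).comp
      (Nat.measurable_floor.comp ((Real.measurable_exp.comp (measurable_const.add measurable_id)).mul_const _))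
  exact h1.comp (measurable_pi_apply i)

theorem cube_all {θ : ℕ → ℂ} (hθ : Wb θ) (hθ1 : ∀ n, ‖θ n‖ ≤ Real.log (n + 3)) {k : ℕ} (b c : Fin k → ℝ)
    (hc : ∀ i, 0 < c i) (A K : ℕ) : ∀ᵐ ω ∂(Measure.pi fun _ : Fin k => U1), ∀ᶠ N : ℕ in atTop, ∀ d : Fin k → ℕ,
      (∀ i, (d i : ℝ) ≤ (Real.log N) ^ A) →
        ‖Sf θ c (fun i => Real.exp (b i + ω i)) d N‖ ≤ N / (Real.log N) ^ K := by
  have hlogt : Tendsto (fun N : ℕ => Real.log (N : ℝ)) atTop atTop :=
    Real.tendsto_log_atTop.comp tendsto_natCast_atTop_atTop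
  obtain ⟨R, hR⟩ : ∃ R : ℕ, ∀ i, c i ≤ R := by
    obtain ⟨x, hx⟩ := (Set.finite_range c).bddAbove
    exact ⟨⌈x⌉₊, fun i => (hx ⟨i, rfl⟩).trans (Nat.le_ceil x)⟩
  obtain ⟨J, hJ⟩ : ∃ J, J = k + 1 := ⟨_, rfl⟩
  obtain ⟨κ, hκ⟩ : ∃ κ, κ = 3 * K + J + 1 := ⟨_, rfl⟩
  obtain ⟨C, hC, h1⟩ := Sf_small hθ hθ1 b c hc A (κ + A * k + 2)
  obtain ⟨N0, hN0⟩ := eventually_atTop.1 (h1.and (hlogt.eventually_ge_atTop 1))
  obtain ⟨T, hT⟩ : ∃ T : ℕ → (Fin k → ℝ) → ℝ≥0∞, T = fun N ω =>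
    ∑ d ∈ DS k A N, ‖Sf θ c (fun i => Real.exp (b i + ω i)) d N‖ₑ ^ 2 := ⟨_, rfl⟩
  have hTm : ∀ N, Measurable (T N) := fun N => by
    rw [hT]
    exact Finset.measurable_sum _ fun d _ => (Sf_meas θ b c d N).enorm.pow_const 2
  obtain ⟨F, hF⟩ : ∃ F : ℕ → (Fin k → ℝ) → ℝ≥0∞, F = fun N ω =>
    ENNReal.ofReal (Real.log ((N + N0 + 2 : ℕ) : ℝ) ^ κ / ((N + N0 + 2 : ℕ) : ℝ) ^ 3) * T (N + N0 + 2) ω := ⟨_, rfl⟩
  have hFm : ∀ N, Measurable (F N) := fun N => by
    rw [hF]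
    exact (hTm _).const_mul _
  have hFi : ∀ N, ∫⁻ ω, F N ω ∂(Measure.pi fun _ : Fin k => U1) ≤
      ENNReal.ofReal ((2 ^ k * C) / (((N + N0 + 2 : ℕ) : ℝ) * Real.log ((N + N0 + 2 : ℕ) : ℝ) ^ 2)) := by
    intro N
    obtain ⟨M, hM⟩ : ∃ M, M = N + N0 + 2 := ⟨_, rfl⟩
    rw [hF]
    simp only
    rw [← hM]
    obtain ⟨h2, h3⟩ := hN0 M (by omega)
    have hM1 : (1 : ℝ) ≤ M := by exact_mod_cast (by omega : 1 ≤ M)
    have hl0 : 0 < Real.log M := by linarith
    rw [lintegral_const_mul _ (hTm _), hT]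
    simp only
    rw [lintegral_finset_sum _ fun d _ => (Sf_meas θ b c d M).enorm.pow_const 2]
    have h4 : ∑ d ∈ DS k A M, ∫⁻ ω, ‖Sf θ c (fun i => Real.exp (b i + ω i)) d M‖ₑ ^ 2 ∂(Measure.pi fun _ : Fin k => U1) ≤
        ENNReal.ofReal ((2 ^ k * (Real.log M) ^ (A * k)) * (C * M ^ 2 / (Real.log M) ^ (κ + A * k + 2))) := by
      refine (Finset.sum_le_sum fun d hd => h2 d ((mem_DS d).1 hd)).trans ?_
      rw [Finset.sum_const, nsmul_eq_mul, ← ENNReal.ofReal_natCast, ← ENNReal.ofReal_mul (by positivity)]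
      refine ENNReal.ofReal_le_ofReal ?_
      exact mul_le_mul_of_nonneg_right (card_DS k A M h3) (by positivity)
    refine (mul_le_mul_right h4 _).trans ?_
    rw [← ENNReal.ofReal_mul (by positivity)]
    refine ENNReal.ofReal_le_ofReal (le_of_eq ?_)
    rw [pow_add, pow_add]
    field_simp
  have hfin : ∫⁻ ω, ∑' N, F N ω ∂(Measure.pi fun _ : Fin k => U1) ≠ ⊤ := by
    rw [lintegral_tsum fun N => (hFm N).aemeasurable]
    refine ne_of_lt (lt_of_le_of_lt (ENNReal.tsum_le_tsum hFi) ?_)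
    have h5 := (summable_nat_add_iff N0).2 (Pool.Agent.Y901.VK.bc_summable (2 ^ k * C))
    exact h5.tsum_ofReal_lt_top
  have hae := ae_lt_top (Measurable.tsum hFm) hfin
  filter_upwards [hae, cube_ae] with ω hω hω1
  have hTf : ∀ N, T N ω ≠ ⊤ := fun N => by
    rw [hT]
    exact ENNReal.sum_ne_top.2 fun d _ => ENNReal.pow_ne_top enorm_ne_top
  refine det2 (fun N d => Sf θ c (fun i => Real.exp (b i + ω i)) d N) (fun N d => ∀ i, (d i : ℝ) ≤ (Real.log N) ^ A)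
    (fun N => (T N ω).toReal) (4 * ((R : ℝ) + 1) ^ k * 2 ^ (k + 1)) J K ?_ ?_ ?_ ?_ ?_ ?_
  · have h6 : (1 : ℝ) ≤ ((R : ℝ) + 1) ^ k := one_le_pow₀ (by
      have : (0 : ℝ) ≤ R := Nat.cast_nonneg R
      linarith)
    have h7 : (1 : ℝ) ≤ 2 ^ (k + 1) := one_le_pow₀ (by norm_num)
    nlinarith
  · intro N d hd i
    refine (hd i).trans (pow_le_pow_left₀ (Real.log_natCast_nonneg N) ?_ A)
    rcases Nat.eq_zero_or_pos N with h0 | h0
    · rw [h0]; simp
    · exact Real.log_le_log (by exact_mod_cast h0) (by push_cast; linarith)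
  · -- increments
    have g1 := term_le hθ1 b c hc A R hR
    obtain ⟨N1, hN1⟩ := eventually_atTop.1 g1
    filter_upwards [eventually_ge_atTop N1, eventually_ge_atTop 3, hlogt.eventually_ge_atTop 2] with M g2 g3 g4 d hd N g5 g6
    have hM3 : (3 : ℝ) ≤ M := by exact_mod_cast g3
    have hlM : Real.log M ≤ Real.log ((2 * M + 1 : ℕ) : ℝ) := Real.log_le_log (by linarith) (by push_cast; linarith)
    have h6 := hN1 (2 * M + 1) (by omega) d (fun i => (hd i).trans (pow_le_pow_left₀ (by linarith) hlM A)) (N + 1) (by omega) ω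
      (fun i => (hω1 i).2)
    have h7 : Sf θ c (fun i => Real.exp (b i + ω i)) d (N + 1) - Sf θ c (fun i => Real.exp (b i + ω i)) d N =
        θ (N + 1) * ((Pw c (fun i => Real.exp (b i + ω i)) d (N + 1) : ℂ) - 1) := by
      unfold Sf
      rw [Finset.sum_Icc_succ_top (by omega), add_sub_cancel_left]
    rw [h7]
    refine h6.trans ?_
    have h8 : Real.log ((2 * M + 1 : ℕ) : ℝ) ≤ 2 * Real.log M := by
      have h9 : Real.log ((2 * M + 1 : ℕ) : ℝ) ≤ Real.log ((M : ℝ) ^ 2) :=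
        Real.log_le_log (by positivity) (by push_cast; nlinarith)
      rw [Real.log_pow] at h9
      exact_mod_cast h9
    have h10 : 0 ≤ Real.log ((2 * M + 1 : ℕ) : ℝ) := Real.log_natCast_nonneg _
    unfold la
    rw [hJ, mul_pow]
    calc 4 * Real.log ((2 * M + 1 : ℕ) : ℝ) * (((R : ℝ) + 1) ^ k * Real.log ((2 * M + 1 : ℕ) : ℝ) ^ k) =
          4 * ((R : ℝ) + 1) ^ k * Real.log ((2 * M + 1 : ℕ) : ℝ) ^ (k + 1) := by ring
      _ ≤ 4 * ((R : ℝ) + 1) ^ k * (2 * Real.log M) ^ (k + 1) := by gcongr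
      _ = _ := by
          rw [mul_pow]
          ring
  · intro N d hd
    have h6 : ‖Sf θ c (fun i => Real.exp (b i + ω i)) d N‖ₑ ^ 2 ≤ T N ω := by
      rw [hT]
      exact Finset.single_le_sum (f := fun d => ‖Sf θ c (fun i => Real.exp (b i + ω i)) d N‖ₑ ^ 2)
        (fun _ _ => zero_le) ((mem_DS d).2 hd)
    have h7 := ENNReal.toReal_mono (hTf N) h6
    rwa [ENNReal.toReal_pow, toReal_enorm] at h7
  · intro N
    exact ENNReal.toReal_nonneg
  · rw [← hκ, ← summable_nat_add_iff (N0 + 2)]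
    refine (ENNReal.summable_toReal hω.ne).congr fun N => ?_
    have hl0 : 0 ≤ Real.log ((N + N0 + 2 : ℕ) : ℝ) := Real.log_natCast_nonneg _
    rw [hF]
    simp only
    rw [ENNReal.toReal_mul, ENNReal.toReal_ofReal (by positivity), ← add_assoc]

end Pool.Agent.K4H50.MB
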