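import Pool.Agent.K4H50.MB.Spec
import Pool.Agent.Y957.VK.Fin1

/-!
Metric prime tuples: the sums `∑_{n ≤ N} n^{iτ}` for `(log N)^K ≤ |τ| ≤ N^A` (piece P1, helper8).
-/

set_option autoImplicit false

namespace Pool.Agent.K4H50.MB

open Finset MeasureTheory Filter Topology
open Pool.Agent.H376R2.MR (er)

namespace W1

lemma er_norm (τ x : ℝ) : ‖er τ x‖ = 1 := by
  unfold er
  rw [Complex.norm_exp_ofReal_mul_I]

lemma er_cpow (τ : ℝ) {x : ℝ} (hx : 0 < x) : er τ (Real.log x) = (x : ℂ) ^ ((τ : ℂ) * Complex.I) := by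
  unfold er
  rw [Complex.cpow_def_of_ne_zero (by exact_mod_cast hx.ne'), ← Complex.ofReal_log hx.le]
  congr 1
  push_cast
  ring

/-- the sum -/
noncomputable def S (τ : ℝ) (N : ℕ) : ℂ := ∑ n ∈ Finset.Icc 1 N, er τ (Real.log n)

lemma S_succ (τ : ℝ) (N : ℕ) : S τ (N + 1) = S τ N + er τ (Real.log ((N + 1 : ℕ) : ℝ)) := by
  unfold S
  rw [Finset.sum_Icc_succ_top (by omega)]

lemma S_le (τ : ℝ) (N : ℕ) : ‖S τ N‖ ≤ N := by
  unfold S
  refine (norm_sum_le _ _).trans ?_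
  simp [er_norm]

/-- powers of the logarithm against powers of `N` -/
lemma log_pow_le (K : ℕ) {δ : ℝ} (hδ : 0 < δ) : ∃ D : ℝ, 0 ≤ D ∧ ∀ x : ℝ, 1 ≤ x → (Real.log x) ^ K ≤ D * x ^ δ := by
  have hK : (0:ℝ) < K + 1 := by positivity
  set ε : ℝ := δ / (K + 1) with hε
  have hε0 : 0 < ε := by positivity
  refine ⟨(1 / ε) ^ K, by positivity, fun x hx => ?_⟩
  have h1 : Real.log x ≤ x ^ ε / ε := Real.log_le_rpow_div (by linarith) hε0
  have h2 : (Real.log x) ^ K ≤ (x ^ ε / ε) ^ K := pow_le_pow_left₀ (Real.log_nonneg hx) h1 K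
  refine h2.trans ?_
  rw [div_pow, one_div, inv_pow, div_eq_inv_mul]
  refine mul_le_mul_of_nonneg_left ?_ (by positivity)
  rw [← Real.rpow_natCast, ← Real.rpow_mul (by linarith)]
  refine Real.rpow_le_rpow_of_exponent_le hx ?_
  rw [hε, div_mul_eq_mul_div, div_le_iff₀ hK]
  nlinarith

/-! ### comparison with the integral -/

/-- the main term -/
noncomputable def P (τ x : ℝ) : ℂ := (x : ℂ) ^ (1 + (τ : ℂ) * Complex.I) / (1 + (τ : ℂ) * Complex.I)

lemma den_ne (τ : ℝ) : (1 + (τ : ℂ) * Complex.I) ≠ 0 := by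
  intro h
  have := congrArg Complex.re h
  simp at this

lemma P_deriv (τ : ℝ) {x : ℝ} (hx : 0 < x) : HasDerivAt (P τ) (er τ (Real.log x)) x := by
  unfold P
  have h1 : HasDerivAt (fun y : ℝ => (y : ℂ) ^ (1 + (τ : ℂ) * Complex.I))
      ((1 + (τ : ℂ) * Complex.I) * (x : ℂ) ^ ((1 + (τ : ℂ) * Complex.I) - 1)) x := by
    have h0 := hasDerivAt_ofReal_cpow_const' (x := x) hx.ne' (r := (τ : ℂ) * Complex.I) (by
      intro h
      have := congrArg Complex.re h
      simp at this)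
    have h2 := h0.const_mul ((τ : ℂ) * Complex.I + 1)
    have hne : (τ : ℂ) * Complex.I + 1 ≠ 0 := by rw [add_comm]; exact den_ne τ
    have e1 : (fun y : ℝ => ((τ : ℂ) * Complex.I + 1) * ((y : ℂ) ^ ((τ : ℂ) * Complex.I + 1) / ((τ : ℂ) * Complex.I + 1)))
        = fun y : ℝ => (y : ℂ) ^ (1 + (τ : ℂ) * Complex.I) := by
      funext y
      rw [mul_div_cancel₀ _ hne, add_comm]
    rw [e1] at h2
    have e2 : ((τ : ℂ) * Complex.I + 1) * (x : ℂ) ^ ((τ : ℂ) * Complex.I) =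
        (1 + (τ : ℂ) * Complex.I) * (x : ℂ) ^ ((1 + (τ : ℂ) * Complex.I) - 1) := by
      rw [add_sub_cancel_left, add_comm]
    rw [e2] at h2
    exact h2
  have h3 := h1.div_const (1 + (τ : ℂ) * Complex.I)
  have e3 : (1 + (τ : ℂ) * Complex.I) * (x : ℂ) ^ ((1 + (τ : ℂ) * Complex.I) - 1) / (1 + (τ : ℂ) * Complex.I) =
      er τ (Real.log x) := by
    rw [mul_div_assoc, mul_comm, div_mul_cancel₀ _ (den_ne τ), er_cpow τ hx, add_sub_cancel_left]
  rw [e3] at h3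
  exact h3

lemma er_sub (τ a b : ℝ) : ‖er τ a - er τ b‖ ≤ |τ| * |a - b| := by
  unfold er
  have h := Real.norm_exp_I_mul_ofReal_sub_one_le (x := τ * (a - b))
  have e : Complex.exp ((τ * a : ℝ) * Complex.I) - Complex.exp ((τ * b : ℝ) * Complex.I) =
      Complex.exp ((τ * b : ℝ) * Complex.I) * (Complex.exp (Complex.I * ((τ * (a - b) : ℝ) : ℂ)) - 1) := by
    rw [mul_sub, ← Complex.exp_add, mul_one]
    congr 2
    push_cast
    ring
  rw [e, norm_mul, Complex.norm_exp_ofReal_mul_I, one_mul]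
  refine h.trans ?_
  rw [Real.norm_eq_abs, abs_mul]

lemma step (τ : ℝ) {N : ℕ} (hN : 1 ≤ N) :
    ‖P τ (N + 1) - P τ N - er τ (Real.log ((N + 1 : ℕ) : ℝ))‖ ≤ |τ| / N := by
  have hN0 : (0:ℝ) < N := by exact_mod_cast hN
  set w : ℂ := er τ (Real.log ((N + 1 : ℕ) : ℝ)) with hw
  have hd : ∀ x ∈ Set.Icc (N : ℝ) (N + 1), HasDerivWithinAt (fun y : ℝ => P τ y - (y : ℂ) * w)
      (er τ (Real.log x) - w) (Set.Icc (N : ℝ) (N + 1)) x := by
    intro x hx
    have hx0 : 0 < x := by linarith [hx.1]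
    have h1 := (P_deriv τ hx0).sub ((Complex.ofRealCLM.hasDerivAt (x := x)).mul_const w)
    simp only [Complex.ofRealCLM_apply, Complex.ofReal_one, one_mul] at h1
    exact h1.hasDerivWithinAt
  have hb : ∀ x ∈ Set.Ico (N : ℝ) (N + 1), ‖er τ (Real.log x) - w‖ ≤ |τ| / N := by
    intro x hx
    have hx0 : 0 < x := by linarith [hx.1]
    refine (er_sub _ _ _).trans ?_
    rw [div_eq_mul_inv]
    refine mul_le_mul_of_nonneg_left ?_ (abs_nonneg _)
    have h1 : Real.log x ≤ Real.log ((N + 1 : ℕ) : ℝ) := Real.log_le_log hx0 (by push_cast; exact hx.2.le)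
    rw [abs_sub_comm, abs_of_nonneg (by linarith), ← Real.log_div (by positivity) hx0.ne']
    refine (Real.log_le_sub_one_of_pos (by positivity)).trans ?_
    rw [div_sub_one hx0.ne', ← one_div, div_le_div_iff₀ hx0 hN0]
    push_cast
    nlinarith [hx.1]
  have h := norm_image_sub_le_of_norm_deriv_le_segment' hd hb (N + 1) (by constructor <;> linarith)
  have e : P τ (N + 1) - P τ N - w = (P τ (N + 1) - ((N + 1 : ℝ) : ℂ) * w) - (P τ N - ((N : ℝ) : ℂ) * w) := by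
    push_cast
    ring
  rw [e]
  refine h.trans ?_
  simp

lemma comp (τ : ℝ) {N : ℕ} (hN : 1 ≤ N) : ‖S τ N - P τ N‖ ≤ 2 + 2 * |τ| * Real.log N := by
  induction N, hN using Nat.le_induction with
  | base =>
    have h1 : ‖P τ ((1:ℕ) : ℝ)‖ ≤ 1 := by
      unfold P
      rw [Nat.cast_one, Complex.ofReal_one, Complex.one_cpow, norm_div, norm_one]
      have h2 : (1:ℝ) ≤ ‖(1 + (τ : ℂ) * Complex.I)‖ := by
        have := Complex.abs_re_le_norm (1 + (τ : ℂ) * Complex.I)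
        simpa using this
      rw [div_le_one (by linarith)]
      exact h2
    have h2 := S_le τ 1
    simp only [Nat.cast_one, Real.log_one, mul_zero, add_zero] at *
    refine (norm_sub_le _ _).trans ?_
    linarith
  | succ N hN ih =>
    have hN0 : (0:ℝ) < N := by exact_mod_cast hN
    have h1 := step τ hN
    rw [S_succ]
    have e : S τ N + er τ (Real.log ((N + 1 : ℕ) : ℝ)) - P τ ((N + 1 : ℕ) : ℝ) =
        (S τ N - P τ N) - (P τ (N + 1) - P τ N - er τ (Real.log ((N + 1 : ℕ) : ℝ))) := by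
      push_cast
      ring
    rw [e]
    refine (norm_sub_le _ _).trans ?_
    have h2 : |τ| / N ≤ 2 * |τ| * (Real.log ((N + 1 : ℕ) : ℝ) - Real.log N) := by
      rw [← Real.log_div (by positivity) hN0.ne']
      have h3 : 1 / (2 * (N : ℝ)) ≤ Real.log (((N + 1 : ℕ) : ℝ) / N) := by
        have h4 := Real.one_sub_inv_le_log_of_pos (x := ((N + 1 : ℕ) : ℝ) / N) (by positivity)
        refine le_trans ?_ h4
        rw [inv_div]
        push_cast
        rw [one_sub_div (by positivity), div_le_div_iff₀ (by positivity) (by positivity)]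
        have : (1:ℝ) ≤ N := by exact_mod_cast hN
        nlinarith
      have h5 : 2 * |τ| * (1 / (2 * (N : ℝ))) ≤ 2 * |τ| * Real.log (((N + 1 : ℕ) : ℝ) / N) :=
        mul_le_mul_of_nonneg_left h3 (by positivity)
      refine le_trans (le_of_eq ?_) h5
      field_simp
    nlinarith

lemma P_norm (τ : ℝ) {N : ℕ} (hN : 1 ≤ N) (hτ : 0 < |τ|) : ‖P τ N‖ ≤ N / |τ| := by
  unfold P
  rw [norm_div]
  have h1 : |τ| ≤ ‖(1 + (τ : ℂ) * Complex.I)‖ := by
    have := Complex.abs_im_le_norm (1 + (τ : ℂ) * Complex.I)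
    simpa using this
  have h2 : ‖(((N : ℝ)) : ℂ) ^ (1 + (τ : ℂ) * Complex.I)‖ = N := by
    rw [Complex.norm_cpow_eq_rpow_re_of_pos (by exact_mod_cast hN)]
    simp
  rw [h2]
  exact div_le_div_of_nonneg_left (by positivity) hτ h1

lemma small (τ : ℝ) {N : ℕ} (hN : 1 ≤ N) (hτ : 0 < |τ|) :
    ‖S τ N‖ ≤ N / |τ| + (2 + 2 * |τ| * Real.log N) := by
  have h1 := comp τ hN
  have h2 := P_norm τ hN hτ
  calc ‖S τ N‖ = ‖P τ N + (S τ N - P τ N)‖ := by congr 1; ring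
    _ ≤ _ := (norm_add_le _ _).trans (by linarith)

/-! ### long blocks -/

lemma block (τ : ℝ) (m : ℕ) : S τ (2 * m) = S τ m + ∑ n ∈ Finset.Ioc m (2 * m), (n : ℂ) ^ (-(((-τ : ℝ)) : ℂ) * Complex.I) := by
  unfold S
  have e : Finset.Icc 1 (2 * m) = Finset.Icc 1 m ∪ Finset.Ioc m (2 * m) := by
    ext x
    simp only [Finset.mem_Icc, Finset.mem_union, Finset.mem_Ioc]
    omega
  have hd : Disjoint (Finset.Icc 1 m) (Finset.Ioc m (2 * m)) := by
    rw [Finset.disjoint_left]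
    intro x hx hy
    simp only [Finset.mem_Icc, Finset.mem_Ioc] at hx hy
    omega
  rw [e, Finset.sum_union hd]
  congr 1
  refine Finset.sum_congr rfl fun n hn => ?_
  have hn0 : (0:ℝ) < n := by
    have := (Finset.mem_Ioc.1 hn).1
    exact_mod_cast (by omega : 0 < n)
  rw [er_cpow τ hn0]
  push_cast
  rw [neg_neg]

lemma large {C : ℕ} {c : ℝ} (hc : 0 < c) (hc1 : c ≤ 1 / 10)
    (hz : ∀ (N N' : ℕ) (t κ : ℝ), 2 ≤ N → N ≤ N' → N' ≤ 2 * N → 1 / 2 ≤ κ → |t| = (N : ℝ) ^ κ →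
      ‖∑ n ∈ Finset.Ioc N N', (n : ℂ) ^ (-(t : ℂ) * Complex.I)‖ ≤
        Real.exp (C * (1 + κ) ^ C) * (N : ℝ) ^ (1 - c / (1 + κ) ^ 2 : ℝ))
    (A : ℕ) {N : ℕ} (hN : 2 ≤ N) {τ : ℝ} (h1 : Real.sqrt N < |τ|) (h2 : |τ| ≤ (N : ℝ) ^ A) :
    ∀ n : ℕ, n ≤ N → ‖S τ n‖ ≤ 2 * Real.sqrt N + 2 +
      2 * (Real.exp (C * (1 + 2 * A) ^ C) + 1) * (n : ℝ) ^ (1 - c / (1 + 2 * A) ^ 2 : ℝ) := by
  set E : ℝ := Real.exp (C * (1 + 2 * A) ^ C) with hE
  set θ : ℝ := 1 - c / (1 + 2 * A) ^ 2 with hθ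
  have hE0 : 0 < E := Real.exp_pos _
  have hA1 : (1:ℝ) ≤ (1 + 2 * A) ^ 2 := one_le_pow₀ (by have : (0:ℝ) ≤ A := Nat.cast_nonneg A; linarith)
  have hc2 : c / (1 + 2 * A) ^ 2 ≤ 1 / 10 := (div_le_self hc.le hA1).trans hc1
  have hc3 : 0 ≤ c / (1 + 2 * (A:ℝ)) ^ 2 := by positivity
  have hθ1 : 9 / 10 ≤ θ := by rw [hθ]; linarith
  have hθ2 : θ ≤ 1 := by rw [hθ]; linarith
  have h2θ : (3:ℝ) / 2 ≤ 2 ^ θ := by
    have h3 : (2:ℝ) ^ (1 - θ) ≤ 1 + (1 - θ) * 1 := by
      have := rpow_one_add_le_one_add_mul_self (s := 1) (by norm_num) (p := 1 - θ) (by linarith) (by linarith)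
      norm_num at this ⊢
      linarith
    have h4 : (2:ℝ) ^ θ * 2 ^ (1 - θ) = 2 := by
      rw [← Real.rpow_add (by norm_num)]
      norm_num
    have h5 : 0 < (2:ℝ) ^ θ := Real.rpow_pos_of_pos (by norm_num) _
    nlinarith
  intro n
  induction n using Nat.strong_induction_on with
  | _ n ih =>
    intro hn
    have hpos : 0 ≤ 2 * (E + 1) * (n : ℝ) ^ θ := by positivity
    by_cases hs : (n : ℝ) ≤ 2 * Real.sqrt N + 2
    · exact (S_le τ n).trans (by linarith)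
    rw [not_le] at hs
    obtain ⟨m, hm⟩ : ∃ m, m = n / 2 := ⟨_, rfl⟩
    have hmn : 2 * m ≤ n ∧ n ≤ 2 * m + 1 := by omega
    have hmR : Real.sqrt N ≤ m := by
      have : (n : ℝ) ≤ 2 * m + 1 := by exact_mod_cast hmn.2
      linarith
    have hN2 : (2:ℝ) ≤ N := by exact_mod_cast hN
    have hs1 : (1:ℝ) < Real.sqrt N := by
      rw [Real.lt_sqrt (by norm_num)]
      linarith
    have hm2 : 2 ≤ m := by
      have : (1:ℝ) < m := by linarith
      have : 1 < m := by exact_mod_cast this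
      omega
    have hmlt : m < n := by omega
    have hmpos : (0:ℝ) < m := by positivity
    have hm1 : (1:ℝ) < m := by linarith
    have hlm : 0 < Real.log m := Real.log_pos hm1
    have hτ0 : 0 < |τ| := by linarith
    -- the exponent
    obtain ⟨κ, hκ⟩ : ∃ κ, κ = Real.log |τ| / Real.log m := ⟨_, rfl⟩
    have hκe : |-τ| = (m : ℝ) ^ κ := by
      rw [abs_neg, hκ, Real.rpow_def_of_pos hmpos, mul_div_cancel₀ _ hlm.ne', Real.exp_log hτ0]
    have hκ1 : 1 / 2 ≤ κ := by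
      rw [hκ, le_div_iff₀ hlm]
      have h3 : Real.log (Real.sqrt N) ≤ Real.log |τ| := Real.log_le_log (by linarith) h1.le
      rw [Real.log_sqrt (by positivity)] at h3
      have h4 : Real.log m ≤ Real.log N := Real.log_le_log hmpos (by exact_mod_cast (by omega : m ≤ N))
      linarith
    have hκ2 : κ ≤ 2 * A := by
      rw [hκ, div_le_iff₀ hlm]
      have h3 : Real.log |τ| ≤ A * Real.log N := by
        have := Real.log_le_log hτ0 h2
        rwa [Real.log_pow] at this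
      have h4 : Real.log N ≤ 2 * Real.log m := by
        have h5 := Real.log_le_log (by linarith) hmR
        rw [Real.log_sqrt (by positivity)] at h5
        linarith
      have h5 := mul_le_mul_of_nonneg_left h4 (Nat.cast_nonneg A : (0:ℝ) ≤ A)
      linarith
    have h3 := hz m (2 * m) (-τ) κ hm2 (by omega) le_rfl hκ1 hκe
    have h4 : Real.exp (C * (1 + κ) ^ C) * (m : ℝ) ^ (1 - c / (1 + κ) ^ 2 : ℝ) ≤ E * (m : ℝ) ^ θ := by
      refine mul_le_mul (Real.exp_le_exp.2 ?_) (Real.rpow_le_rpow_of_exponent_le hm1.le ?_) (by positivity) hE0.le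
      · refine mul_le_mul_of_nonneg_left (pow_le_pow_left₀ (by linarith) (by linarith) _) (Nat.cast_nonneg _)
      · rw [hθ]
        have h5 : c / (1 + 2 * A) ^ 2 ≤ c / (1 + κ) ^ 2 :=
          div_le_div_of_nonneg_left hc.le (by positivity) (pow_le_pow_left₀ (by linarith) (by linarith) _)
        linarith
    have h5 := ih m hmlt (by omega)
    have h6 : ‖S τ (2 * m)‖ ≤ ‖S τ m‖ + E * (m : ℝ) ^ θ := by
      rw [block]
      exact (norm_add_le _ _).trans (by linarith)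
    have h7 : ‖S τ n‖ ≤ ‖S τ (2 * m)‖ + 1 := by
      rcases (by omega : n = 2 * m ∨ n = 2 * m + 1) with h8 | h8
      · rw [h8]; linarith
      · rw [h8, S_succ]
        refine (norm_add_le _ _).trans ?_
        rw [er_norm]
    have hmθ : 1 ≤ (m : ℝ) ^ θ := Real.one_le_rpow hm1.le (by linarith)
    have h8 : (2:ℝ) ^ θ * (m : ℝ) ^ θ ≤ (n : ℝ) ^ θ := by
      rw [← Real.mul_rpow (by norm_num) hmpos.le]
      exact Real.rpow_le_rpow (by positivity) (by exact_mod_cast hmn.1) (by linarith)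
    have h9 : 3 / 2 * (m : ℝ) ^ θ ≤ (n : ℝ) ^ θ :=
      (mul_le_mul_of_nonneg_right h2θ (by positivity)).trans h8
    have h10 : 2 * (E + 1) * (3 / 2 * (m : ℝ) ^ θ) ≤ 2 * (E + 1) * (n : ℝ) ^ θ :=
      mul_le_mul_of_nonneg_left h9 (by positivity)
    nlinarith

end W1

open W1 in
/-- **P1.** -/
theorem w_small : S_W := by
  obtain ⟨C, c, hc, hc1, hz⟩ := Pool.Agent.Y957.VK.zs_all
  intro A K
  have hA1 : (1:ℝ) ≤ (1 + 2 * A) ^ 2 := one_le_pow₀ (by have : (0:ℝ) ≤ A := Nat.cast_nonneg A; linarith)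
  set δ : ℝ := c / (1 + 2 * A) ^ 2 with hδ
  have hδ0 : 0 < δ := by positivity
  set E : ℝ := Real.exp (C * (1 + 2 * A) ^ C) with hE
  have hE0 : 0 < E := Real.exp_pos _
  obtain ⟨D1, hD1, h1⟩ := log_pow_le K (show (0:ℝ) < 1 / 2 by norm_num)
  obtain ⟨D2, hD2, h2⟩ := log_pow_le (K + 1) (show (0:ℝ) < 1 / 2 by norm_num)
  obtain ⟨D3, hD3, h3⟩ := log_pow_le K hδ0
  refine ⟨1 + 4 * D1 + 2 * D2 + 2 * (E + 1) * D3, by positivity, fun N τ hN hτ1 hτ2 => ?_⟩
  have hN2 : (2:ℝ) ≤ N := by exact_mod_cast hN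
  have hN1 : (1:ℝ) ≤ N := by linarith
  have hN0 : (0:ℝ) < N := by linarith
  have hl : 0 < Real.log N := Real.log_pos (by linarith)
  have hlK : 0 < (Real.log N) ^ K := by positivity
  have hτ0 : 0 < |τ| := lt_of_lt_of_le hlK hτ1
  have hsq : Real.sqrt N = (N : ℝ) ^ (1 / 2 : ℝ) := Real.sqrt_eq_rpow _
  have hss : Real.sqrt N * Real.sqrt N = N := Real.mul_self_sqrt hN0.le
  have hs1 : 1 ≤ Real.sqrt N := Real.one_le_sqrt.2 hN1
  have g1 := h1 N hN1
  have g2 := h2 N hN1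
  have g3 := h3 N hN1
  rw [← hsq] at g1 g2
  rw [le_div_iff₀ hlK]
  show ‖S τ N‖ * (Real.log N) ^ K ≤ _
  have f1 : Real.sqrt N * (Real.log N) ^ K ≤ D1 * N := by
    calc Real.sqrt N * (Real.log N) ^ K ≤ Real.sqrt N * (D1 * Real.sqrt N) :=
          mul_le_mul_of_nonneg_left g1 (by positivity)
      _ = D1 * (Real.sqrt N * Real.sqrt N) := by ring
      _ = _ := by rw [hss]
  have f1' : (Real.log N) ^ K ≤ D1 * N := by
    refine le_trans ?_ f1
    nlinarith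
  by_cases hc4 : |τ| ≤ Real.sqrt N
  · have h4 := small τ (by omega : 1 ≤ N) hτ0
    have f2 : Real.sqrt N * (Real.log N) ^ (K + 1) ≤ D2 * N := by
      calc Real.sqrt N * (Real.log N) ^ (K + 1) ≤ Real.sqrt N * (D2 * Real.sqrt N) :=
            mul_le_mul_of_nonneg_left g2 (by positivity)
        _ = D2 * (Real.sqrt N * Real.sqrt N) := by ring
        _ = _ := by rw [hss]
    have f3 : (N : ℝ) / |τ| * (Real.log N) ^ K ≤ N := by
      rw [div_mul_eq_mul_div, div_le_iff₀ hτ0]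
      exact mul_le_mul_of_nonneg_left hτ1 hN0.le
    have f4 : |τ| * (Real.log N) ^ (K + 1) ≤ D2 * N :=
      (mul_le_mul_of_nonneg_right hc4 (by positivity)).trans f2
    have h5 := mul_le_mul_of_nonneg_right h4 hlK.le
    refine h5.trans ?_
    have e : ((N : ℝ) / |τ| + (2 + 2 * |τ| * Real.log N)) * (Real.log N) ^ K =
        (N : ℝ) / |τ| * (Real.log N) ^ K + 2 * (Real.log N) ^ K + 2 * (|τ| * (Real.log N) ^ (K + 1)) := by
      rw [pow_succ]; ring
    rw [e]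
    have p1 : 0 ≤ D1 * N := by positivity
    have p2 : 0 ≤ 2 * (E + 1) * D3 * N := by positivity
    have p3 : 0 ≤ D2 * N := by positivity
    linarith
  · rw [not_le] at hc4
    have h4 := large hc hc1 hz A hN hc4 hτ2 N le_rfl
    rw [← hE, ← hδ] at h4
    have f5 : (N : ℝ) ^ (1 - δ) * (Real.log N) ^ K ≤ D3 * N := by
      calc (N : ℝ) ^ (1 - δ) * (Real.log N) ^ K ≤ (N : ℝ) ^ (1 - δ) * (D3 * (N : ℝ) ^ δ) :=
            mul_le_mul_of_nonneg_left g3 (by positivity)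
        _ = D3 * ((N : ℝ) ^ (1 - δ) * (N : ℝ) ^ δ) := by ring
        _ = _ := by rw [← Real.rpow_add hN0]; norm_num
    have h5 := mul_le_mul_of_nonneg_right h4 hlK.le
    refine h5.trans ?_
    have e : (2 * Real.sqrt N + 2 + 2 * (E + 1) * (N : ℝ) ^ (1 - δ)) * (Real.log N) ^ K =
        2 * (Real.sqrt N * (Real.log N) ^ K) + 2 * (Real.log N) ^ K +
          2 * (E + 1) * ((N : ℝ) ^ (1 - δ) * (Real.log N) ^ K) := by ring
    rw [e]
    have f6 : 2 * (E + 1) * ((N : ℝ) ^ (1 - δ) * (Real.log N) ^ K) ≤ 2 * (E + 1) * (D3 * N) :=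
      mul_le_mul_of_nonneg_left f5 (by positivity)
    have p3 : 0 ≤ D2 * N := by positivity
    nlinarith

end Pool.Agent.K4H50.MB
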