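import Pool.Agent.K4H50.MB.M11
import Pool.Agent.K4H50.MB.W1
import Pool.Agent.K4H50.MB.Cnt

/-!
Almost every tuple of coefficients.
-/

set_option autoImplicit false

namespace Pool.Agent.K4H50.MB

open Finset MeasureTheory Filter Topology
open scoped ENNReal
open Pool.Agent.H376R2.MR (er)
open Pool.Agent.Y957.VK

/-- from the cubes to almost every coefficient -/
theorem all_cubes {k : ℕ} (P : (Fin k → ℝ) → Prop)
    (h : ∀ b : Fin k → ℤ, ∀ᵐ ω ∂(Measure.pi fun _ : Fin k => U1), P (fun i => Real.exp (b i + ω i))) :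
    ∀ᵐ α ∂((volume : Measure (Fin k → ℝ)).restrict {α | ∀ i, 0 < α i}), P α := by
  have hmeas : MeasurableSet {α : Fin k → ℝ | ∀ i, 0 < α i} := by
    have e : {α : Fin k → ℝ | ∀ i, 0 < α i} = Set.pi Set.univ (fun _ => Set.Ioi (0 : ℝ)) := by
      ext α
      simp
    rw [e]
    exact MeasurableSet.univ_pi fun _ => measurableSet_Ioi
  rw [ae_restrict_iff' hmeas]
  have hcube : MeasurableSet (Set.pi Set.univ (fun _ : Fin k => Set.Icc (0 : ℝ) 1)) :=
    MeasurableSet.univ_pi fun _ => measurableSet_Icc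
  have key : ∀ b : Fin k → ℤ, (volume : Measure (Fin k → ℝ))
      {ω | ω ∈ Set.pi Set.univ (fun _ : Fin k => Set.Icc (0 : ℝ) 1) ∧
        ¬ P (fun i => Real.exp (b i + ω i))} = 0 := by
    intro b
    have h3 := h b
    unfold U1 at h3
    rw [← Measure.restrict_pi_pi, ← volume_pi, ae_restrict_iff' hcube] at h3
    rw [ae_iff] at h3
    refine measure_mono_null ?_ h3
    intro ω hω
    simp only [Set.mem_setOf_eq, Classical.not_imp]
    exact ⟨hω.1, hω.2⟩
  rw [ae_iff]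
  refine measure_mono_null ?_ (measure_iUnion_null fun b : Fin k → ℤ =>
    addHaar_image_eq_zero_of_differentiableOn_of_addHaar_eq_zero (volume : Measure (Fin k → ℝ))
      (f := fun ω i => Real.exp (b i + ω i)) ?_ (key b))
  · intro α hα
    simp only [Set.mem_setOf_eq, Classical.not_imp] at hα
    obtain ⟨hα1, hα2⟩ := hα
    rw [Set.mem_iUnion]
    have e : (fun i => Real.exp (((⌊Real.log (α i)⌋ : ℤ) : ℝ) + Int.fract (Real.log (α i)))) = α := by
      funext i
      rw [Int.floor_add_fract, Real.exp_log (hα1 i)]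
    refine ⟨fun i => ⌊Real.log (α i)⌋, fun i => Int.fract (Real.log (α i)), ⟨?_, ?_⟩, e⟩
    · intro i _
      exact ⟨Int.fract_nonneg _, (Int.fract_lt_one _).le⟩
    · rw [e]
      exact hα2
  · apply Differentiable.differentiableOn
    rw [differentiable_pi]
    intro i
    exact ((differentiable_apply i).const_add _).exp

theorem metric {θ : ℕ → ℂ} (hθ : Wb θ) (hθ1 : ∀ n, ‖θ n‖ ≤ Real.log (n + 3)) {k : ℕ} (c : Fin k → ℝ)
    (hc : ∀ i, 0 < c i) : ∀ᵐ α ∂((volume : Measure (Fin k → ℝ)).restrict {α | ∀ i, 0 < α i}), ∀ A K : ℕ,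
      ∀ᶠ N : ℕ in atTop, ∀ d : Fin k → ℕ, (∀ i, (d i : ℝ) ≤ (Real.log N) ^ A) →
        ‖Sf θ c α d N‖ ≤ N / (Real.log N) ^ K := by
  refine all_cubes (fun α => ∀ A K : ℕ, ∀ᶠ N : ℕ in atTop, ∀ d : Fin k → ℕ, (∀ i, (d i : ℝ) ≤ (Real.log N) ^ A) →
    ‖Sf θ c α d N‖ ≤ N / (Real.log N) ^ K) fun b => ?_
  rw [ae_all_iff]
  intro A
  rw [ae_all_iff]
  intro K
  exact cube_all hθ hθ1 (fun i => (b i : ℝ)) c hc A K

theorem one_le_log3 (n : ℕ) : 1 ≤ Real.log (n + 3) := by
  have h1 : Real.log 3 ≤ Real.log (n + 3) := Real.log_le_log (by norm_num) (by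
    have : (0 : ℝ) ≤ n := Nat.cast_nonneg n
    linarith)
  have h2 : 1 ≤ Real.log 3 := by
    rw [Real.le_log_iff_exp_le (by norm_num)]
    have := Real.exp_one_lt_d9
    linarith
  linarith

theorem lam_le3 (n : ℕ) : ‖(ArithmeticFunction.vonMangoldt n : ℂ)‖ ≤ Real.log (n + 3) := by
  rw [Complex.norm_real, Real.norm_eq_abs, abs_of_nonneg ArithmeticFunction.vonMangoldt_nonneg]
  refine (ArithmeticFunction.vonMangoldt_le_log).trans ?_
  rcases Nat.eq_zero_or_pos n with h0 | h0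
  · rw [h0]
    simp
    exact Real.log_nonneg (by norm_num)
  · exact Real.log_le_log (by exact_mod_cast h0) (by linarith)

/-- without the condition on `n` -/
theorem msum_all {k : ℕ} (c : Fin k → ℝ) (hc : ∀ i, 0 < c i) :
    ∀ᵐ α ∂((volume : Measure (Fin k → ℝ)).restrict {α | ∀ i, 0 < α i}), ∀ A K : ℕ,
      ∀ᶠ N : ℕ in atTop, ∀ d : Fin k → ℕ, (∀ i, (d i : ℝ) ≤ (Real.log N) ^ A) →
        |Msum α c d N - N| ≤ N / (Real.log N) ^ K := by
  have h1 := metric (θ := fun _ => 1) (Wb_one w_small) (fun n => by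
    rw [norm_one]
    exact one_le_log3 n) c hc
  filter_upwards [h1] with α hα A K
  filter_upwards [hα A K] with N hN d hd
  have h2 := hN d hd
  have e1 : Sf (fun _ => 1) c α d N = ((Msum α c d N - N : ℝ) : ℂ) := by
    unfold Sf Msum Pw
    push_cast
    simp only [one_mul, Finset.sum_sub_distrib, Finset.sum_const, Nat.card_Icc, nsmul_eq_mul, mul_one, Nat.add_sub_cancel]
  rw [e1, Complex.norm_real, Real.norm_eq_abs] at h2
  exact h2

/-- with a prime `n` -/
theorem lsum_all {k : ℕ} (c : Fin k → ℝ) (hc : ∀ i, 0 < c i) :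
    ∀ᵐ α ∂((volume : Measure (Fin k → ℝ)).restrict {α | ∀ i, 0 < α i}), ∀ A K : ℕ,
      ∀ᶠ N : ℕ in atTop, ∀ d : Fin k → ℕ, (∀ i, (d i : ℝ) ≤ (Real.log N) ^ A) →
        |Lsum α c d N - N| ≤ N / (Real.log N) ^ K := by
  have hlogt : Tendsto (fun N : ℕ => Real.log (N : ℝ)) atTop atTop :=
    Real.tendsto_log_atTop.comp tendsto_natCast_atTop_atTop
  have h1 := metric (θ := fun n => (ArithmeticFunction.vonMangoldt n : ℂ)) (Wb_lam w_small) lam_le3 c hc
  filter_upwards [h1] with α hα A K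
  obtain ⟨C, hC⟩ := lamw_neg 0 (K + 1)
  filter_upwards [hα A (K + 1), hlogt.eventually_ge_atTop (1 + |C|), eventually_ge_atTop 2] with N hN h3 h4 d hd
  have h2 := hN d hd
  have h5 := hC N 0 h4 (by simp)
  simp only [er, zero_mul, Complex.ofReal_zero, Complex.exp_zero, mul_one] at h5
  have hC0 := abs_nonneg C
  have hl0 : 0 < Real.log N := by linarith
  have e1 : ((Lsum α c d N - N : ℝ) : ℂ) = Sf (fun n => (ArithmeticFunction.vonMangoldt n : ℂ)) c α d N +
      ∑ n ∈ Finset.Icc 1 N, lamw n := by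
    unfold Sf Lsum lamw Pw
    push_cast
    rw [← Finset.sum_add_distrib]
    have e2 : ((N : ℕ) : ℂ) = ∑ n ∈ Finset.Icc 1 N, (1 : ℂ) := by simp
    rw [e2, ← Finset.sum_sub_distrib]
    refine Finset.sum_congr rfl fun n _ => ?_
    ring
  have h6 : |Lsum α c d N - N| = ‖((Lsum α c d N - N : ℝ) : ℂ)‖ := by
    rw [Complex.norm_real, Real.norm_eq_abs]
  rw [h6, e1]
  refine (norm_add_le _ _).trans ((add_le_add h2 h5).trans ?_)
  rw [← add_div, div_le_div_iff₀ (by positivity) (by positivity), pow_succ]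
  have h7 : (N : ℝ) + C * N ≤ N * Real.log N := by
    have : C ≤ |C| := le_abs_self C
    have hN0 : (0 : ℝ) ≤ N := Nat.cast_nonneg N
    nlinarith
  have h8 : 0 < Real.log N ^ K := by positivity
  nlinarith

end Pool.Agent.K4H50.MB
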