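import Pool.Agent.K4H50.MB.M1
import Pool.Agent.Y957.VK.E1

/-!
The Fourier transform of a step function in multiplicative coordinates.
-/

set_option autoImplicit false

namespace Pool.Agent.K4H50.MB

open Finset MeasureTheory Filter Topology FourierTransform
open Pool.Agent.H376R2.MR (er)
open Pool.Agent.Y957.VK (Neg lamw four_fsum four_smulc)

/-- the step function `a ⌊exp (b + u)⌋` -/
noncomputable def Bs (a : ℕ → ℂ) (b u : ℝ) : ℂ := a ⌊Real.exp (b + u)⌋₊

theorem Bs_meas (a : ℕ → ℂ) (b : ℝ) : Measurable (Bs a b) :=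
  (measurable_of_countable a).comp
    (Nat.measurable_floor.comp (Real.measurable_exp.comp (measurable_const.add measurable_id)))

/-- a step -/
noncomputable def St (b : ℝ) (q : ℕ) : ℝ → ℂ := (Set.Ico (Real.log q - b) (Real.log (q + 1) - b)).indicator fun _ => 1

theorem floor_iff {b u : ℝ} {q : ℕ} (hq : 1 ≤ q) :
    u ∈ Set.Ico (Real.log q - b) (Real.log (q + 1) - b) ↔ ⌊Real.exp (b + u)⌋₊ = q := by
  have hq0 : (0 : ℝ) < q := by exact_mod_cast hq
  rw [Nat.floor_eq_iff (Real.exp_pos _).le, Set.mem_Ico, ← Real.log_le_iff_le_exp hq0,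
    ← Real.lt_log_iff_exp_lt (by linarith)]
  constructor <;> rintro ⟨h1, h2⟩ <;> constructor <;> linarith

theorem Bs_eq {a : ℕ → ℂ} {Q1 Q2 : ℕ} (hQ : 1 ≤ Q1) (ha : ∀ q, q ∉ Ico Q1 Q2 → a q = 0) (b : ℝ) :
    Bs a b = fun u => ∑ q ∈ Ico Q1 Q2, a q * St b q u := by
  funext u
  unfold Bs St
  by_cases h : ⌊Real.exp (b + u)⌋₊ ∈ Ico Q1 Q2
  · rw [Finset.sum_eq_single_of_mem _ h]
    · rw [Set.indicator_of_mem, mul_one]
      exact (floor_iff (by rw [mem_Ico] at h; omega)).2 rfl
    · intro q hq hne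
      rw [Set.indicator_of_notMem, mul_zero]
      intro hcon
      exact hne ((floor_iff (by rw [mem_Ico] at hq; omega)).1 hcon).symm
  · rw [ha _ h]
    symm
    refine Finset.sum_eq_zero fun q hq => ?_
    rw [Set.indicator_of_notMem, mul_zero]
    intro hcon
    exact h ((floor_iff (by rw [mem_Ico] at hq; omega)).1 hcon ▸ hq)

theorem St_int (b : ℝ) (q : ℕ) : Integrable (St b q) := by
  unfold St
  rw [integrable_indicator_iff measurableSet_Ico]
  exact integrableOn_const (by rw [Real.volume_Ico]; exact ENNReal.ofReal_ne_top)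

theorem Bs_int {a : ℕ → ℂ} {Q1 Q2 : ℕ} (hQ : 1 ≤ Q1) (ha : ∀ q, q ∉ Ico Q1 Q2 → a q = 0) (b : ℝ) :
    Integrable (Bs a b) := by
  rw [Bs_eq hQ ha]
  exact integrable_finsetSum _ fun q _ => (St_int b q).const_mul _

/-- the transform of a step -/
theorem four_St (b : ℝ) (q d : ℕ) (hq : 1 ≤ q) (ξ : ℝ) :
    𝓕 (St b q) ξ = er (2 * Real.pi * ξ) b * (er (-(2 * Real.pi * ξ)) (Real.log (q + d)) * Ee (2 * Real.pi * ξ) d q) := by
  have hq0 : (0 : ℝ) < q := by exact_mod_cast hq
  rw [Real.fourier_real_eq_integral_exp_smul]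
  have h1 : (fun v : ℝ => Complex.exp (((-2 * Real.pi * v * ξ : ℝ) : ℂ) * Complex.I) • St b q v) =
      (Set.Ico (Real.log q - b) (Real.log (q + 1) - b)).indicator fun v => er (-(2 * Real.pi * ξ)) v := by
    funext v
    unfold St er
    by_cases hv : v ∈ Set.Ico (Real.log q - b) (Real.log (q + 1) - b)
    · rw [Set.indicator_of_mem hv, Set.indicator_of_mem hv, smul_eq_mul, mul_one]
      congr 2
      push_cast
      ring
    · rw [Set.indicator_of_notMem hv, Set.indicator_of_notMem hv, smul_zero]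
  rw [h1, integral_indicator measurableSet_Ico, integral_Ico_eq_integral_Ioc,
    ← intervalIntegral.integral_of_le (by
      have := Real.log_le_log hq0 (by linarith : (q : ℝ) ≤ q + 1)
      linarith)]
  -- substitution
  have hne : ∀ s ∈ Set.uIcc (0 : ℝ) 1, (q : ℝ) + s ≠ 0 := fun s hs => by
    rw [Set.uIcc_of_le zero_le_one] at hs
    have := hs.1
    positivity
  have h2 : ∫ s in (0 : ℝ)..1, (1 / ((q : ℝ) + s)) • (er (-(2 * Real.pi * ξ)) ∘ fun s => Real.log (q + s) - b) s =
      ∫ v in (Real.log (q + 0) - b)..(Real.log (q + 1) - b), er (-(2 * Real.pi * ξ)) v := by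
    refine intervalIntegral.integral_comp_smul_deriv (f := fun s : ℝ => Real.log (q + s) - b)
      (f' := fun s : ℝ => 1 / ((q : ℝ) + s)) (g := er (-(2 * Real.pi * ξ))) (fun s hs => ?_) ?_ ?_
    · have h4 := ((hasDerivAt_id s).const_add (q : ℝ)).log (hne s hs)
      simpa using h4.sub_const b
    · exact continuousOn_const.div (continuousOn_const.add continuousOn_id) hne
    · unfold er
      fun_prop
  rw [add_zero] at h2
  rw [← h2]
  unfold Ee
  rw [← intervalIntegral.integral_const_mul, ← intervalIntegral.integral_const_mul]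
  refine intervalIntegral.integral_congr fun s hs => ?_
  simp only [Function.comp, Complex.real_smul]
  have e1 : er (-(2 * Real.pi * ξ)) (Real.log (q + s) - b) = er (2 * Real.pi * ξ) b *
      (er (-(2 * Real.pi * ξ)) (Real.log (q + d)) *
        er (-(2 * Real.pi * ξ)) (Real.log (q + s) - Real.log (q + d))) := by
    unfold er
    rw [← Complex.exp_add, ← Complex.exp_add]
    congr 1
    push_cast
    ring
  rw [e1]
  ring

end Pool.Agent.K4H50.MB
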