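import Pool.Agent.K4H50.MB.M2
import Pool.Agent.Y691.AD.Ae1
import Pool.Agent.Y957.VK.Fin3

/-!
The Fourier transform of `Λ(⌊e^{b+u}⌋ + d) - 1` on a window: bounds.
-/

set_option autoImplicit false

namespace Pool.Agent.K4H50.MB

open Finset MeasureTheory Filter Topology FourierTransform
open Pool.Agent.H376R2.MR (er)
open Pool.Agent.Y957.VK (Neg lamw four_fsum four_smulc four_decay)

theorem four_Bs {a : ℕ → ℂ} {Q1 Q2 : ℕ} (hQ : 1 ≤ Q1) (ha : ∀ q, q ∉ Ico Q1 Q2 → a q = 0) (b : ℝ) (d : ℕ) (ξ : ℝ) :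
    𝓕 (Bs a b) ξ = er (2 * Real.pi * ξ) b * ∑ q ∈ Ico Q1 Q2,
      (a q * er (-(2 * Real.pi * ξ)) (Real.log (q + d))) * Ee (2 * Real.pi * ξ) d q := by
  rw [Bs_eq hQ ha, four_fsum _ _ fun q _ => (St_int b q).const_mul _, mul_sum]
  refine Finset.sum_congr rfl fun q hq => ?_
  rw [mem_Ico] at hq
  rw [four_smulc, four_St b q d (by omega)]
  ring

/-- the windowed weight -/
noncomputable def lw (Q1 Q2 d q : ℕ) : ℂ := if q ∈ Ico Q1 Q2 then lamw (q + d) else 0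

theorem lw_out {Q1 Q2 d q : ℕ} (h : q ∉ Ico Q1 Q2) : lw Q1 Q2 d q = 0 := by
  unfold lw
  rw [if_neg h]

/-- moderate frequencies -/
theorem hat_core {Q1 Q2 d : ℕ} (hQ : 1 ≤ Q1) (hQ2 : Q1 ≤ Q2) (b ξ M : ℝ)
    (hM : ∀ N : ℕ, Q1 + d ≤ N + 1 → N ≤ Q2 + d → ‖∑ n ∈ Icc 1 N, lamw n * er (-(2 * Real.pi * ξ)) (Real.log n)‖ ≤ M) :
    ‖𝓕 (Bs (lw Q1 Q2 d) b) ξ‖ ≤ 2 * M * (1 / Q2 + Q2 * (1 / (Q1 : ℝ) ^ 2 + |2 * Real.pi * ξ| * (d + 1) / (Q1 : ℝ) ^ 3)) := by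
  have hQ0 : (0 : ℝ) < Q1 := by exact_mod_cast hQ
  have hM0 : 0 ≤ M := (norm_nonneg _).trans (hM (Q2 + d) (by omega) le_rfl)
  rw [four_Bs hQ (fun q hq => lw_out hq) b d ξ, norm_mul, er_n, one_mul]
  set t : ℝ := 2 * Real.pi * ξ with ht
  have h1 : ∀ q, Q1 ≤ q → q ≤ Q2 → ‖∑ j ∈ Ico Q1 q, lw Q1 Q2 d j * er (-t) (Real.log (j + d))‖ ≤ 2 * M := by
    intro q hq1 hq2
    have e1 : ∑ j ∈ Ico Q1 q, lw Q1 Q2 d j * er (-t) (Real.log (j + d)) =
        ∑ n ∈ Icc 1 (q + d - 1), lamw n * er (-t) (Real.log n) -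
          ∑ n ∈ Icc 1 (Q1 + d - 1), lamw n * er (-t) (Real.log n) := by
      have e2 : ∑ j ∈ Ico Q1 q, lw Q1 Q2 d j * er (-t) (Real.log (j + d)) =
          ∑ n ∈ Ico (Q1 + d) (q + d), lamw n * er (-t) (Real.log n) := by
        rw [← Finset.sum_Ico_add' (fun n : ℕ => lamw n * er (-t) (Real.log n)) Q1 q d]
        refine Finset.sum_congr rfl fun j hj => ?_
        rw [mem_Ico] at hj
        unfold lw
        rw [if_pos (by rw [mem_Ico]; omega)]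
        push_cast
        rfl
      have e3 : ∀ n : ℕ, 1 ≤ n → Icc 1 (n - 1) = Ico 1 n := by
        intro n hn
        ext x
        simp only [mem_Icc, mem_Ico]
        omega
      rw [e2, e3 _ (by omega), e3 _ (by omega), ← Finset.sum_Ico_consecutive _ (by omega : 1 ≤ Q1 + d) (by omega : Q1 + d ≤ q + d)]
      ring
    rw [e1]
    refine (norm_sub_le _ _).trans ?_
    have a1 := hM (q + d - 1) (by omega) (by omega)
    have a2 := hM (Q1 + d - 1) (by omega) (by omega)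
    linarith
  refine (abel _ (fun q => Ee t d q) (2 * M) Q1 Q2 hQ2 h1).trans ?_
  refine mul_le_mul_of_nonneg_left (add_le_add (Ee_le t d Q2 (by omega)) ?_) (by positivity)
  calc ∑ q ∈ Ico Q1 Q2, ‖Ee t d (q + 1) - Ee t d q‖ ≤
        ∑ q ∈ Ico Q1 Q2, (1 / (Q1 : ℝ) ^ 2 + |t| * (d + 1) / (Q1 : ℝ) ^ 3) := by
        refine Finset.sum_le_sum fun q hq => ?_
        rw [mem_Ico] at hq
        have hq1 : (Q1 : ℝ) ≤ q := by exact_mod_cast hq.1
        refine (Ee_diff t d q (by omega)).trans (add_le_add ?_ ?_)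
        · exact one_div_le_one_div_of_le (by positivity) (pow_le_pow_left₀ hQ0.le hq1 2)
        · exact div_le_div_of_nonneg_left (by positivity) (by positivity) (pow_le_pow_left₀ hQ0.le hq1 3)
    _ = ((Q2 - Q1 : ℕ) : ℝ) * (1 / (Q1 : ℝ) ^ 2 + |t| * (d + 1) / (Q1 : ℝ) ^ 3) := by
        rw [Finset.sum_const, Nat.card_Ico, nsmul_eq_mul]
    _ ≤ _ := by
        refine mul_le_mul_of_nonneg_right ?_ (by positivity)
        exact_mod_cast Nat.sub_le _ _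

/-- the variation of a step function with values of norm at most `λ` -/
theorem Bs_var {a : ℕ → ℂ} {Q1 Q2 : ℕ} (hQ : 1 ≤ Q1) (ha : ∀ q, q ∉ Ico Q1 Q2 → a q = 0) (b lam : ℝ)
    (hlam : ∀ q, ‖a q‖ ≤ lam) {s : ℝ} (hs : 0 ≤ s) :
    ∫ u, ‖Bs a b (u + s) - Bs a b u‖ ≤ (2 * lam * Q2) * s := by
  have hl0 : 0 ≤ lam := (norm_nonneg _).trans (hlam 0)
  have hmono : Monotone fun u : ℝ => (2 * lam * (min ⌊Real.exp (b + u)⌋₊ Q2 : ℕ) : ℝ) := by
    intro u u' h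
    refine mul_le_mul_of_nonneg_left ?_ (by positivity)
    have h2 : ⌊Real.exp (b + u)⌋₊ ≤ ⌊Real.exp (b + u')⌋₊ :=
      Nat.floor_mono (Real.exp_le_exp.2 (by linarith))
    exact_mod_cast min_le_min_right Q2 h2
  refine Pool.Agent.Y691.AD.int_var (Bs_int hQ ha b) hmono (fun r => by positivity) (fun r => ?_) (fun r r' h => ?_) hs
  · refine mul_le_mul_of_nonneg_left ?_ (by positivity)
    exact_mod_cast min_le_right _ _
  · have h1 : ⌊Real.exp (b + r)⌋₊ ≤ ⌊Real.exp (b + r')⌋₊ :=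
      Nat.floor_mono (Real.exp_le_exp.2 (by linarith))
    unfold Bs
    by_cases h2 : min ⌊Real.exp (b + r)⌋₊ Q2 = min ⌊Real.exp (b + r')⌋₊ Q2
    · have h3 : a ⌊Real.exp (b + r')⌋₊ = a ⌊Real.exp (b + r)⌋₊ := by
        rcases lt_or_ge ⌊Real.exp (b + r')⌋₊ Q2 with h4 | h4
        · congr 1
          omega
        · have h5 : Q2 ≤ ⌊Real.exp (b + r)⌋₊ := by omega
          rw [ha _ (by rw [mem_Ico]; omega), ha _ (by rw [mem_Ico]; omega)]
      rw [h3, sub_self, norm_zero, h2, sub_self]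
    · have h3 : (min ⌊Real.exp (b + r)⌋₊ Q2 : ℕ) + 1 ≤ (min ⌊Real.exp (b + r')⌋₊ Q2 : ℕ) := by omega
      have h4 : ((min ⌊Real.exp (b + r)⌋₊ Q2 : ℕ) : ℝ) + 1 ≤ ((min ⌊Real.exp (b + r')⌋₊ Q2 : ℕ) : ℝ) := by
        exact_mod_cast h3
      refine (norm_sub_le _ _).trans ?_
      have h5 := hlam ⌊Real.exp (b + r')⌋₊
      have h6 := hlam ⌊Real.exp (b + r)⌋₊
      nlinarith

/-- all other frequencies -/
theorem hat_decay {a : ℕ → ℂ} {Q1 Q2 : ℕ} (hQ : 1 ≤ Q1) (ha : ∀ q, q ∉ Ico Q1 Q2 → a q = 0) (b lam : ℝ)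
    (hlam : ∀ q, ‖a q‖ ≤ lam) {ξ : ℝ} (hξ : 1 / 2 ≤ |ξ|) : ‖𝓕 (Bs a b) ξ‖ ≤ 2 * lam * Q2 / (4 * |ξ|) :=
  four_decay (Bs_int hQ ha b) (fun s hs _ => Bs_var hQ ha b lam hlam hs) hξ

/-- the square mean -/
theorem Bs_sq {a : ℕ → ℂ} {Q1 Q2 : ℕ} (hQ : 1 ≤ Q1) (ha : ∀ q, q ∉ Ico Q1 Q2 → a q = 0) (b lam : ℝ)
    (hlam : ∀ q, ‖a q‖ ≤ lam) (hQ2 : Q1 ≤ Q2) :
    ∫⁻ u, ‖Bs a b u‖ₑ ^ 2 ≤ ENNReal.ofReal (lam ^ 2 * (Real.log Q2 - Real.log Q1)) := by
  have hQ0 : (0 : ℝ) < Q1 := by exact_mod_cast hQ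
  have hQ20 : (0 : ℝ) < Q2 := by exact_mod_cast (by omega : 0 < Q2)
  have hl : Real.log Q1 ≤ Real.log Q2 := Real.log_le_log hQ0 (by exact_mod_cast hQ2)
  calc ∫⁻ u, ‖Bs a b u‖ₑ ^ 2 ≤ ∫⁻ u, (Set.Ico (Real.log Q1 - b) (Real.log Q2 - b)).indicator
        (fun _ => ENNReal.ofReal (lam ^ 2)) u := by
        refine lintegral_mono fun u => ?_
        by_cases hu : u ∈ Set.Ico (Real.log Q1 - b) (Real.log Q2 - b)
        · rw [Set.indicator_of_mem hu]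
          exact Pool.Agent.Y957.VK.enorm_sq_le (hlam _)
        · rw [Set.indicator_of_notMem hu]
          have h1 : Bs a b u = 0 := by
            unfold Bs
            refine ha _ fun hcon => hu ?_
            rw [mem_Ico] at hcon
            obtain ⟨h2, h3⟩ := hcon
            have h4 : (Q1 : ℝ) ≤ Real.exp (b + u) := (Nat.le_floor_iff (Real.exp_pos _).le).1 h2
            have h5 : Real.exp (b + u) < Q2 := (Nat.floor_lt (Real.exp_pos _).le).1 h3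
            rw [← Real.log_le_iff_le_exp hQ0] at h4
            rw [← Real.lt_log_iff_exp_lt hQ20] at h5
            constructor <;> linarith
          rw [h1]
          simp
    _ = _ := by
        rw [lintegral_indicator measurableSet_Ico, setLIntegral_const, Real.volume_Ico,
          ← ENNReal.ofReal_mul (by positivity)]
        congr 2
        ring

end Pool.Agent.K4H50.MB
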