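import Pool.Agent.K4H50.MB.M3
import Pool.Agent.Y220.VK.Step

/-!
One more factor (finite form), and the first factor.
-/

set_option autoImplicit false

namespace Pool.Agent.K4H50.MB

open Finset MeasureTheory Filter Topology FourierTransform
open scoped ENNReal
open Pool.Agent.H376R2.MR (er)
open Pool.Agent.Y957.VK

/-- the step function of a sequence -/
noncomputable def sq (a : ℕ → ℂ) (t : ℝ) : ℂ := a ⌊t⌋₊

theorem sq_meas (a : ℕ → ℂ) : Measurable (sq a) := (measurable_of_countable a).comp Nat.measurable_floor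

theorem sq_diff {a : ℕ → ℂ} (ha : ∀ n, ‖a n‖ ≤ 1) {x y : ℝ} (h : x ≤ y) :
    ‖sq a y - sq a x‖ ≤ 2 * ((⌊y⌋₊ : ℝ) - ⌊x⌋₊) := by
  have h1 : ⌊x⌋₊ ≤ ⌊y⌋₊ := Nat.floor_mono h
  rcases h1.eq_or_lt with h2 | h2
  · unfold sq
    rw [h2, sub_self, norm_zero]
    simp
  · have h3 : (⌊x⌋₊ : ℝ) + 1 ≤ ⌊y⌋₊ := by exact_mod_cast h2
    have h4 : ‖sq a y - sq a x‖ ≤ 2 := (norm_sub_le _ _).trans (by
      have := ha ⌊y⌋₊
      have := ha ⌊x⌋₊
      unfold sq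
      linarith)
    linarith

/-- the controlling monotone function -/
noncomputable def vq (b L y : ℝ) : ℝ :=
  if y < 0 then 0 else if y ≤ L then 1 + 2 * (⌊Real.exp (b + y)⌋₊ : ℝ) else 2 + 2 * (⌊Real.exp (b + L)⌋₊ : ℝ)

theorem vq_sub {a : ℕ → ℂ} (ha : ∀ n, ‖a n‖ ≤ 1) (b : ℝ) {L : ℝ}
    (y y' : ℝ) (hy : y ≤ y') : ‖Bw (sq a) b L y' - Bw (sq a) b L y‖ ≤ vq b L y' - vq b L y := by
  have hB1 : ∀ y, ‖Bw (sq a) b L y‖ ≤ 1 := fun y => by
    unfold Bw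
    split_ifs
    · exact ha _
    · simp
  have hz : ∀ y, y ∉ Set.Icc 0 L → Bw (sq a) b L y = 0 := fun y h => by
    unfold Bw
    rw [if_neg h]
  unfold vq
  rcases lt_or_ge y 0 with h0 | h0
  · rw [hz y (fun h => absurd h.1 (not_le.2 h0)), sub_zero, if_pos h0, sub_zero]
    rcases lt_or_ge y' 0 with h1 | h1
    · rw [hz y' (fun h => absurd h.1 (not_le.2 h1)), norm_zero, if_pos h1]
    · rw [if_neg (not_lt.2 h1)]
      have := hB1 y'
      have := Nat.cast_nonneg (α := ℝ) ⌊Real.exp (b + y')⌋₊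
      have := Nat.cast_nonneg (α := ℝ) ⌊Real.exp (b + L)⌋₊
      split_ifs <;> linarith
  · rw [if_neg (not_lt.2 h0), if_neg (not_lt.2 (h0.trans hy))]
    rcases le_or_gt y L with h1 | h1
    · rw [if_pos h1]
      rcases le_or_gt y' L with h2 | h2
      · rw [if_pos h2]
        have h3 := sq_diff ha (Real.exp_le_exp.2 (by linarith : b + y ≤ b + y'))
        unfold Bw
        rw [if_pos ⟨h0.trans hy, h2⟩, if_pos ⟨h0, h1⟩]
        linarith
      · rw [if_neg (not_le.2 h2), hz y' (fun h => absurd h.2 (not_le.2 h2)), zero_sub, norm_neg]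
        have h3 : ⌊Real.exp (b + y)⌋₊ ≤ ⌊Real.exp (b + L)⌋₊ := Nat.floor_mono (Real.exp_le_exp.2 (by linarith))
        have h4 : (⌊Real.exp (b + y)⌋₊ : ℝ) ≤ ⌊Real.exp (b + L)⌋₊ := by exact_mod_cast h3
        have := hB1 y
        linarith
    · have h1' : L < y' := lt_of_lt_of_le h1 hy
      rw [hz y' (fun h => absurd h.2 (not_le.2 h1')), hz y (fun h => absurd h.2 (not_le.2 h1)), sub_zero, norm_zero,
        if_neg (not_le.2 h1'), if_neg (not_le.2 h1), sub_self]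

theorem win_sq (a : ℕ → ℂ) (ha : ∀ n, ‖a n‖ ≤ 1) (b L : ℝ) {s : ℝ} (hs : 0 ≤ s) :
    ∫ y, ‖Bw (sq a) b L (y + s) - Bw (sq a) b L y‖ ≤ (2 + 2 * Real.exp (b + L)) * s := by
  have hB1 : ∀ y, ‖Bw (sq a) b L y‖ ≤ 1 := fun y => by
    unfold Bw
    split_ifs
    · exact ha _
    · simp
  have hBm : Measurable (Bw (sq a) b L) := Pool.Agent.Y220.VK.Bw_meas (sq_meas a) b L
  have hBs : ∀ y, y ∉ Set.Icc 0 L → Bw (sq a) b L y = 0 := fun y hy => by
    unfold Bw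
    rw [if_neg hy]
  have hm : Monotone (vq b L) := fun y y' h => by
    have h1 := vq_sub ha b (L := L) y y' h
    have h2 := norm_nonneg (Bw (sq a) b L y' - Bw (sq a) b L y)
    linarith
  refine Pool.Agent.Y691.AD.int_var (B_int hBm hB1 hBs) hm (fun r => ?_) (fun r => ?_) (vq_sub ha b) hs
  · unfold vq
    split_ifs <;> positivity
  · have h3 : (⌊Real.exp (b + L)⌋₊ : ℝ) ≤ Real.exp (b + L) := Nat.floor_le (Real.exp_pos _).le
    unfold vq
    split_ifs with h1 h2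
    · positivity
    · have h4 : (⌊Real.exp (b + r)⌋₊ : ℝ) ≤ Real.exp (b + r) := Nat.floor_le (Real.exp_pos _).le
      have h5 : Real.exp (b + r) ≤ Real.exp (b + L) := Real.exp_le_exp.2 (by linarith)
      linarith
    · linarith

/-- small in mean square, `|τ| ≤ P` -/
def MS {Ω : Type} [MeasurableSpace Ω] (m : Measure Ω) (g : Ω → ℕ → ℂ) (N : ℕ) (P S : ℝ) : Prop :=
  ∀ τ : ℝ, |τ| ≤ P → ∫⁻ ω, ‖∑ n ∈ Finset.Icc 1 N, g ω n * er τ (Real.log n)‖ₑ ^ 2 ∂m ≤ ENNReal.ofReal S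

/-- the unit interval -/
noncomputable abbrev U1 : Measure ℝ := (volume : Measure ℝ).restrict (Set.Icc (0 : ℝ) 1)

/-- one more bounded factor -/
theorem step_fin {Ω : Type} [MeasurableSpace Ω] (m : Measure Ω) [IsFiniteMeasure m] (g : Ω → ℕ → ℂ)
    (hgm : ∀ n, Measurable fun ω => g ω n) (hg1 : ∀ ω n, ‖g ω n‖ ≤ 1) (a : ℕ → ℂ) (ha : ∀ n, ‖a n‖ ≤ 1)
    (b c : ℝ) (hc : 0 < c) (N : ℕ) (hN : 1 ≤ N) (P S V : ℝ) (hS : 0 ≤ S)
    (hV : V = 2 + 2 * Real.exp (b + (c * Real.log N + 1)))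
    (h : MS m g N (P + c * (2 * Real.pi * ((1 + V) ^ 2 * N))) S) :
    MS (m.prod U1) (fun p n => g p.1 n * a ⌊Real.exp (b + p.2) * (n : ℝ) ^ c⌋₊) N P
      ((c * Real.log N + 1) * S + m.real Set.univ * N) := by
  intro τ hτ
  have hπ := Real.pi_pos
  have hN1 : (1 : ℝ) ≤ N := by exact_mod_cast hN
  have hN0 : (0 : ℝ) < N := by linarith
  have hmu : 0 ≤ m.real Set.univ := measureReal_nonneg
  obtain ⟨L, hL⟩ : ∃ L : ℝ, L = c * Real.log N + 1 := ⟨_, rfl⟩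
  rw [← hL] at hV ⊢
  have hlog0 : 0 ≤ Real.log N := Real.log_nonneg hN1
  have hL0 : 0 ≤ L := by rw [hL]; positivity
  have hV0 : 0 ≤ V := by rw [hV]; positivity
  have hT1 : 1 ≤ (1 + V) ^ 2 * (N : ℝ) := by nlinarith [sq_nonneg V]
  have hdm : ∀ n, Measurable fun ω => g ω n * er τ (Real.log n) := fun n => (hgm n).mul_const _
  have hd1 : ∀ ω n, ‖g ω n * er τ (Real.log n)‖ ≤ 1 := fun ω n => by
    rw [norm_mul, er_n, mul_one]
    exact hg1 ω n
  have hB1 : ∀ y, ‖Bw (sq a) b L y‖ ≤ 1 := fun y => by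
    unfold Bw
    split_ifs
    · exact ha _
    · simp
  have hBs : ∀ y, y ∉ Set.Icc 0 L → Bw (sq a) b L y = 0 := fun y hy => by
    unfold Bw
    rw [if_neg hy]
  have hBv : ∀ s, 0 ≤ s → s ≤ 1 → ∫ y, ‖Bw (sq a) b L (y + s) - Bw (sq a) b L y‖ ≤ V * s :=
    fun s hs _ => by
      rw [hV]
      exact win_sq a ha b L hs
  have hD' : ∀ ξ : ℝ, |ξ| ≤ 2 * Real.pi * ((1 + V) ^ 2 * N) →
      ∫⁻ ω, ‖Dn (fun n => g ω n * er τ (Real.log n)) c N ξ‖ₑ ^ 2 ∂m ≤ ENNReal.ofReal S := by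
    intro ξ hξ
    have h3 := h (τ + c * ξ) (by
      calc |τ + c * ξ| ≤ |τ| + |c * ξ| := abs_add_le _ _
        _ = |τ| + c * |ξ| := by rw [abs_mul, abs_of_pos hc]
        _ ≤ _ := by gcongr)
    refine le_trans (le_of_eq ?_) h3
    refine lintegral_congr fun ω => ?_
    congr 2
    unfold Dn
    refine Finset.sum_congr rfl fun n _ => ?_
    rw [mul_assoc, Pool.Agent.Y220.VK.er_mul]
  have hmain := planch Ω m (fun ω n => g ω n * er τ (Real.log n)) hdm hd1 (Bw (sq a) b L)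
    (Pool.Agent.Y220.VK.Bw_meas (sq_meas a) b L) hB1 L V ((1 + V) ^ 2 * N) S c hL0 hBs hBv hT1 hS N hD'
  have hprod : ∫⁻ p, ‖∑ n ∈ Finset.Icc 1 N, g p.1 n * a ⌊Real.exp (b + p.2) * (n : ℝ) ^ c⌋₊ *
      er τ (Real.log n)‖ₑ ^ 2 ∂(m.prod U1) ≤
      ∫⁻ ω, (∫⁻ u, ‖Gn (fun n => g ω n * er τ (Real.log n)) (Bw (sq a) b L) c N u‖ₑ ^ 2) ∂m := by
    refine (lintegral_prod_le _).trans (lintegral_mono fun ω => ?_)
    refine le_trans ?_ (setLIntegral_le_lintegral (Set.Icc (0 : ℝ) 1) _)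
    refine setLIntegral_mono' measurableSet_Icc fun u hu => le_of_eq ?_
    congr 2
    unfold Gn
    refine Finset.sum_congr rfl fun n hn => ?_
    rw [Finset.mem_Icc] at hn
    have hn1 : (1 : ℝ) ≤ n := by exact_mod_cast hn.1
    have hn2 : (n : ℝ) ≤ N := by exact_mod_cast hn.2
    have hn0 : (0 : ℝ) < n := by linarith
    have hl0 : 0 ≤ Real.log n := Real.log_nonneg hn1
    have hl1 : Real.log n ≤ Real.log N := Real.log_le_log hn0 hn2
    have hmem : u + c * Real.log n ∈ Set.Icc 0 L := by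
      constructor
      · have := hu.1
        positivity
      · rw [hL]
        have := hu.2
        nlinarith
    have hval : Bw (sq a) b L (u + c * Real.log n) = a ⌊Real.exp (b + u) * (n : ℝ) ^ c⌋₊ := by
      unfold Bw sq
      rw [if_pos hmem, Real.rpow_def_of_pos hn0, ← Real.exp_add]
      congr 3
      ring
    show g ω n * a ⌊Real.exp (b + u) * (n : ℝ) ^ c⌋₊ * er τ (Real.log n) = _
    rw [hval]
    ring
  refine hprod.trans (hmain.trans (ENNReal.ofReal_le_ofReal ?_))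
  refine add_le_add le_rfl ?_
  have h3 : V ^ 2 / (1 + V) ^ 2 ≤ 1 := by
    rw [div_le_one (by positivity)]
    nlinarith
  have h4 : (m.real Set.univ * (N : ℝ) ^ 2) * V ^ 2 / 8 / ((1 + V) ^ 2 * N) =
      m.real Set.univ * N / 8 * (V ^ 2 / (1 + V) ^ 2) := by
    have : (1 + V) ≠ 0 := by positivity
    field_simp
  rw [h4]
  have h5 : 0 ≤ m.real Set.univ * N := by positivity
  calc m.real Set.univ * N / 8 * (V ^ 2 / (1 + V) ^ 2) ≤ m.real Set.univ * N / 8 * 1 := by gcongr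
    _ ≤ _ := by linarith

/-- the first factor -/
theorem base_fin (w : ℕ → ℂ) (hw : ∀ n, ‖w n‖ ≤ 1) {a : ℕ → ℂ} {Q1 Q2 : ℕ} (hQ : 1 ≤ Q1) (hQ2 : Q1 ≤ Q2)
    (ha0 : ∀ q, q ∉ Ico Q1 Q2 → a q = 0) (ha : ∀ n, ‖a n‖ ≤ 1) (b c : ℝ) (hc : 0 < c) (N : ℕ)
    (P S T T0 σ : ℝ) (hS : 0 ≤ S) (hT : 1 ≤ T) (hT0 : 0 ≤ T0) (hσ : 0 ≤ σ)
    (hW : ∀ t : ℝ, T0 ≤ |t| → |t| ≤ P + c * (2 * Real.pi * T) → ‖∑ n ∈ Finset.Icc 1 N, w n * er t (Real.log n)‖ ^ 2 ≤ S)
    (hB : ∀ ξ : ℝ, ‖𝓕 (Bs a b) ξ‖ ^ 2 ≤ σ) :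
    ∀ τ : ℝ, |τ| ≤ P → ∫⁻ y, ‖∑ n ∈ Finset.Icc 1 N, w n * a ⌊Real.exp (b + y) * (n : ℝ) ^ c⌋₊ * er τ (Real.log n)‖ₑ ^ 2 ∂U1 ≤
      ENNReal.ofReal (S * (Real.log Q2 - Real.log Q1) + N ^ 2 * σ * (2 * T0 / (c * (2 * Real.pi))) +
        N ^ 2 * (2 * Q2) ^ 2 / 8 / T) := by
  intro τ hτ
  have hπ := Real.pi_pos
  set d : ℕ → ℂ := fun n => w n * er τ (Real.log n) with hd
  have hd1 : ∀ n, ‖d n‖ ≤ 1 := fun n => by
    rw [hd]
    simp only
    rw [norm_mul, er_n, mul_one]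
    exact hw n
  have hBi := Bs_int hQ ha0 b
  have hB1 : ∀ y, ‖Bs a b y‖ ≤ 1 := fun y => ha _
  have h1 : ∫⁻ y, ‖∑ n ∈ Finset.Icc 1 N, w n * a ⌊Real.exp (b + y) * (n : ℝ) ^ c⌋₊ * er τ (Real.log n)‖ₑ ^ 2 ∂U1 ≤
      ∫⁻ u, ‖Gn d (Bs a b) c N u‖ₑ ^ 2 := by
    refine le_trans ?_ (setLIntegral_le_lintegral (Set.Icc (0 : ℝ) 1) _)
    refine setLIntegral_mono' measurableSet_Icc fun u hu => le_of_eq ?_
    congr 2
    unfold Gn
    refine Finset.sum_congr rfl fun n hn => ?_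
    rw [Finset.mem_Icc] at hn
    have hn0 : (0 : ℝ) < n := by exact_mod_cast hn.1
    have hval : Bs a b (u + c * Real.log n) = a ⌊Real.exp (b + u) * (n : ℝ) ^ c⌋₊ := by
      unfold Bs
      rw [Real.rpow_def_of_pos hn0, ← Real.exp_add]
      congr 3
      ring
    rw [hval, hd]
    ring
  refine h1.trans ?_
  rw [← Pool.Agent.TH794.QD.plancherel _ (Gn_int d hBi c N)
      (Pool.Agent.Y957.AD.memLp_of_bdd (Gn_int d hBi c N) (Gn_le d hd1 hB1 c N))]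
  have hFc : Continuous (𝓕 (Bs a b)) := VectorFourier.fourierIntegral_continuous Real.continuous_fourierChar
      (by exact continuous_inner) hBi
  have hFm : Measurable (fun ξ => ‖𝓕 (Bs a b) ξ‖ₑ ^ 2) := hFc.measurable.enorm.pow_const 2
  set J : Set ℝ := Set.Icc ((-τ - T0) / (c * (2 * Real.pi))) ((-τ + T0) / (c * (2 * Real.pi))) with hJ
  have hcp : 0 < c * (2 * Real.pi) := by positivity
  -- pointwise
  have hp : ∀ ξ : ℝ, ‖𝓕 (Gn d (Bs a b) c N) ξ‖ₑ ^ 2 ≤ ENNReal.ofReal S * ‖𝓕 (Bs a b) ξ‖ₑ ^ 2 +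
      (J.indicator (fun _ => ENNReal.ofReal (N ^ 2 * σ)) ξ +
        (Set.Iic T)ᶜ.indicator (fun x => ENNReal.ofReal ((N ^ 2 * (2 * Q2) ^ 2 / 8) / 2 * (x ^ 2)⁻¹)) |ξ|) := by
    intro ξ
    rw [four_Gn _ hBi, enorm_mul, mul_pow]
    have hDN : ‖Dn d c N (2 * Real.pi * ξ)‖ₑ ^ 2 ≤ ENNReal.ofReal ((N : ℝ) ^ 2) :=
      enorm_sq_le (Dn_le _ hd1 _ _ _)
    by_cases hξ : |ξ| ≤ T
    · by_cases ht : T0 ≤ |τ + c * (2 * Real.pi * ξ)|
      · refine le_add_right (mul_le_mul' ?_ le_rfl)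
        have e1 : Dn d c N (2 * Real.pi * ξ) = ∑ n ∈ Finset.Icc 1 N, w n * er (τ + c * (2 * Real.pi * ξ)) (Real.log n) := by
          unfold Dn
          refine Finset.sum_congr rfl fun n _ => ?_
          rw [hd]
          simp only
          rw [mul_assoc, Pool.Agent.Y220.VK.er_mul]
        rw [e1, ← ofReal_norm_eq_enorm, ← ENNReal.ofReal_pow (norm_nonneg _)]
        refine ENNReal.ofReal_le_ofReal (hW _ ht ?_)
        calc |τ + c * (2 * Real.pi * ξ)| ≤ |τ| + |c * (2 * Real.pi * ξ)| := abs_add_le _ _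
          _ = |τ| + c * (2 * Real.pi * |ξ|) := by
              rw [abs_mul, abs_of_pos hc, abs_mul, abs_of_pos (by positivity : (0 : ℝ) < 2 * Real.pi)]
          _ ≤ _ := by gcongr
      · refine le_add_left (le_add_right ?_)
        push Not at ht
        rw [abs_lt] at ht
        rw [Set.indicator_of_mem, ENNReal.ofReal_mul (by positivity)]
        · refine mul_le_mul' hDN ?_
          rw [← ofReal_norm_eq_enorm, ← ENNReal.ofReal_pow (norm_nonneg _)]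
          exact ENNReal.ofReal_le_ofReal (hB ξ)
        · rw [hJ, Set.mem_Icc, div_le_iff₀ hcp, le_div_iff₀ hcp]
          constructor <;> nlinarith [ht.1, ht.2]
    · refine le_add_left (le_add_left ?_)
      rw [Set.indicator_of_mem (by simpa using hξ)]
      have hξ1 : T < |ξ| := not_le.1 hξ
      have hξ0 : 0 < |ξ| := by linarith
      have h3 : ‖𝓕 (Bs a b) ξ‖ₑ ^ 2 ≤ ENNReal.ofReal ((2 * 1 * Q2 / (4 * |ξ|)) ^ 2) :=
        enorm_sq_le (hat_decay hQ ha0 b 1 ha (by linarith))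
      calc _ ≤ ENNReal.ofReal ((N : ℝ) ^ 2) * ENNReal.ofReal ((2 * 1 * Q2 / (4 * |ξ|)) ^ 2) := mul_le_mul' hDN h3
        _ = ENNReal.ofReal ((N : ℝ) ^ 2 * (2 * 1 * Q2 / (4 * |ξ|)) ^ 2) := by rw [ENNReal.ofReal_mul (by positivity)]
        _ = _ := by
            congr 1
            field_simp
            ring
  have hmJ : ∫⁻ ξ, J.indicator (fun _ => ENNReal.ofReal (N ^ 2 * σ)) ξ =
      ENNReal.ofReal (N ^ 2 * σ * (2 * T0 / (c * (2 * Real.pi)))) := by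
    rw [lintegral_indicator measurableSet_Icc, setLIntegral_const, Real.volume_Icc, ← ENNReal.ofReal_mul (by positivity)]
    congr 2
    field_simp
    ring
  have hF2 : ∫⁻ ξ, ‖𝓕 (Bs a b) ξ‖ₑ ^ 2 ≤ ENNReal.ofReal (Real.log Q2 - Real.log Q1) := by
    rw [Pool.Agent.TH794.QD.plancherel _ hBi (Pool.Agent.Y957.AD.memLp_of_bdd hBi hB1)]
    have := Bs_sq hQ ha0 b 1 ha hQ2
    rwa [one_pow, one_mul] at this
  have hQ0 : (0 : ℝ) < Q1 := by exact_mod_cast hQ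
  have hl : Real.log Q1 ≤ Real.log Q2 := Real.log_le_log hQ0 (by exact_mod_cast hQ2)
  refine (lintegral_mono hp).trans ?_
  rw [lintegral_add_left (hFm.const_mul _), lintegral_const_mul _ hFm,
    lintegral_add_left (measurable_const.indicator measurableSet_Icc), hmJ]
  refine (add_le_add (mul_le_mul' le_rfl hF2) (add_le_add le_rfl (tail_int hT (K := N ^ 2 * (2 * Q2) ^ 2 / 8) (by positivity)))).trans ?_
  rw [← ENNReal.ofReal_mul hS, ← ENNReal.ofReal_add (by positivity) (by positivity),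
    ← ENNReal.ofReal_add (mul_nonneg hS (by linarith)) (by positivity)]
  refine ENNReal.ofReal_le_ofReal (le_of_eq ?_)
  ring

end Pool.Agent.K4H50.MB
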