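import Pool.Agent.K4H50.MB.M4

/-!
The Fourier transform of `Λ(⌊e^{b+u}⌋ + d) - 1` on a window is smaller than any power of the logarithm.
-/

set_option autoImplicit false

namespace Pool.Agent.K4H50.MB

open Finset MeasureTheory Filter Topology FourierTransform
open scoped ENNReal
open Pool.Agent.H376R2.MR (er)
open Pool.Agent.Y957.VK

theorem lamw_neg : Neg lamw := Pool.Agent.Y957.VK.lw_all.2.2

theorem lamw_le (n : ℕ) : ‖lamw n‖ ≤ Real.log (n + 3) := Pool.Agent.Y957.VK.lw_all.1 n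

/-- powers of the logarithm are small -/
theorem log_pow_small (A : ℕ) (ε : ℝ) (hε : 0 < ε) : ∀ᶠ Q : ℕ in atTop, (Real.log Q) ^ A ≤ ε * Q := by
  have h1 := (Real.isLittleO_pow_log_id_atTop (n := A)).bound hε
  filter_upwards [tendsto_natCast_atTop_atTop.eventually h1] with Q hQ
  rw [id, Real.norm_of_nonneg (Nat.cast_nonneg Q)] at hQ
  exact (le_abs_self _).trans hQ

theorem hat_small (A K r : ℕ) : ∃ C : ℝ, 0 ≤ C ∧ ∃ X : ℕ, ∀ Q1 Q2 d : ℕ, X ≤ Q1 → Q1 ≤ Q2 →
    (Q2 : ℝ) ≤ Q1 * (Real.log Q1) ^ r → (d : ℝ) ≤ (Real.log Q1) ^ A → ∀ b ξ : ℝ,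
      ‖𝓕 (Bs (lw Q1 Q2 d) b) ξ‖ ≤ C / (Real.log Q1) ^ K := by
  obtain ⟨B, hB⟩ : ∃ B : ℕ, B = K + r + 1 := ⟨_, rfl⟩
  obtain ⟨K', hK'⟩ : ∃ K' : ℕ, K' = K + 2 * r + A + B := ⟨_, rfl⟩
  obtain ⟨C0, hC0⟩ := lamw_neg 3 K'
  have hlogt : Tendsto (fun N : ℕ => Real.log (N : ℝ)) atTop atTop :=
    Real.tendsto_log_atTop.comp tendsto_natCast_atTop_atTop
  have e1 := log_pow_small A (1 / 4) (by norm_num)
  have e2 := log_pow_small B (1 / 8) (by norm_num)
  have e3 := log_pow_small r (1 / 4) (by norm_num)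
  obtain ⟨X, hX⟩ := eventually_atTop.1 (((e1.and e2).and e3).and ((hlogt.eventually_ge_atTop 2).and (eventually_ge_atTop 8)))
  refine ⟨16 * |C0| * 2 ^ K' + 8, by positivity, X, fun Q1 Q2 d hQX hQ2 hr hd b ξ => ?_⟩
  obtain ⟨⟨⟨h1, h2⟩, h3⟩, h4, h5⟩ := hX Q1 hQX
  obtain ⟨L, hL⟩ : ∃ L : ℝ, L = Real.log Q1 := ⟨_, rfl⟩
  rw [← hL] at h1 h2 h3 h4 hr hd ⊢
  have hπ := Real.pi_pos
  have hQ8 : (8 : ℝ) ≤ Q1 := by exact_mod_cast h5
  have hQ0 : (0 : ℝ) < Q1 := by linarith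
  have hQ12 : (Q1 : ℝ) ≤ Q2 := by exact_mod_cast hQ2
  have hQ20 : (0 : ℝ) < Q2 := by linarith
  have hL0 : 0 < L := by linarith
  have hLr : 1 ≤ L ^ r := one_le_pow₀ (by linarith)
  have hLA : 1 ≤ L ^ A := one_le_pow₀ (by linarith)
  have hLB : 1 ≤ L ^ B := one_le_pow₀ (by linarith)
  have hd0 : (0 : ℝ) ≤ d := Nat.cast_nonneg d
  set t : ℝ := 2 * Real.pi * ξ with ht
  by_cases hc : |t| ≤ Q1 * L ^ B
  · -- moderate
    obtain ⟨M, hM⟩ : ∃ M : ℝ, M = 2 * (|C0| * 2 ^ K') * Q2 / L ^ K' := ⟨_, rfl⟩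
    have hM0 : 0 ≤ M := by rw [hM]; positivity
    have key := hat_core (d := d) (by omega : 1 ≤ Q1) hQ2 b ξ M (fun N hN1 hN2 => by
      have hN1' : (Q1 : ℝ) ≤ N + 1 := by
        have : Q1 ≤ N + 1 := by omega
        exact_mod_cast this
      have hN2' : (N : ℝ) ≤ Q2 + d := by exact_mod_cast hN2
      have hNh : (Q1 : ℝ) / 2 ≤ N := by linarith
      have hN0 : (0 : ℝ) < N := by linarith
      have hlN : L / 2 ≤ Real.log N := by
        have f1 : Real.log ((Q1 : ℝ) / 2) ≤ Real.log N := Real.log_le_log (by positivity) hNh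
        rw [Real.log_div (by positivity) (by norm_num), ← hL] at f1
        have f2 : Real.log 2 ≤ 1 := by
          have := Real.log_two_lt_d9
          linarith
        linarith
      have f3 := hC0 N (-t) (by omega) (by
        rw [abs_neg]
        calc |t| ≤ Q1 * L ^ B := hc
          _ ≤ Q1 * (1 / 8 * Q1) := by gcongr
          _ ≤ (Q1 / 2) ^ 3 := by nlinarith [sq_nonneg (Q1 : ℝ)]
          _ ≤ _ := pow_le_pow_left₀ (by positivity) hNh 3)
      refine f3.trans ?_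
      calc C0 * N / Real.log N ^ K' ≤ |C0| * (2 * Q2) / (L / 2) ^ K' := by
            refine div_le_div₀ (by positivity) ?_ (by positivity) (pow_le_pow_left₀ (by positivity) hlN K')
            exact mul_le_mul (le_abs_self _) (by linarith) hN0.le (abs_nonneg _)
        _ = M := by
            rw [hM, div_pow]
            field_simp)
    refine key.trans ?_
    have g1 : 2 * M * (1 / (Q2 : ℝ) + Q2 * (1 / (Q1 : ℝ) ^ 2 + |2 * Real.pi * ξ| * (d + 1) / (Q1 : ℝ) ^ 3)) ≤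
        2 * M * ((1 + (Q2 / Q1) ^ 2 * (1 + L ^ B * (2 * L ^ A))) / Q2) := by
      refine mul_le_mul_of_nonneg_left ?_ (by positivity)
      rw [← ht]
      have g2 : |t| * (d + 1) / (Q1 : ℝ) ^ 3 ≤ L ^ B * (2 * L ^ A) / (Q1 : ℝ) ^ 2 := by
        rw [div_le_div_iff₀ (by positivity) (by positivity)]
        calc |t| * (d + 1) * (Q1 : ℝ) ^ 2 ≤ (Q1 * L ^ B) * (2 * L ^ A) * (Q1 : ℝ) ^ 2 := by
              gcongr
              linarith
          _ = _ := by ring
      calc 1 / (Q2 : ℝ) + Q2 * (1 / (Q1 : ℝ) ^ 2 + |t| * (d + 1) / (Q1 : ℝ) ^ 3) ≤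
            1 / (Q2 : ℝ) + Q2 * (1 / (Q1 : ℝ) ^ 2 + L ^ B * (2 * L ^ A) / (Q1 : ℝ) ^ 2) := by gcongr
        _ = _ := by field_simp
    refine g1.trans ?_
    have g3 : (Q2 : ℝ) / Q1 ≤ L ^ r := by
      rw [div_le_iff₀ hQ0]
      linarith
    have g4 : 1 + (Q2 / Q1 : ℝ) ^ 2 * (1 + L ^ B * (2 * L ^ A)) ≤ 4 * L ^ (2 * r + A + B) := by
      have g5 : (Q2 / Q1 : ℝ) ^ 2 ≤ L ^ (2 * r) := by
        rw [mul_comm, pow_mul]
        exact pow_le_pow_left₀ (by positivity) g3 2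
      have g6 : 1 + L ^ B * (2 * L ^ A) ≤ 3 * L ^ (A + B) := by
        rw [pow_add]
        nlinarith
      have g7 : (1 : ℝ) ≤ L ^ (2 * r + A + B) := one_le_pow₀ (by linarith)
      calc 1 + (Q2 / Q1 : ℝ) ^ 2 * (1 + L ^ B * (2 * L ^ A)) ≤ L ^ (2 * r + A + B) + L ^ (2 * r) * (3 * L ^ (A + B)) :=
            add_le_add g7 (mul_le_mul g5 g6 (by positivity) (by positivity))
        _ = _ := by
            rw [show 2 * r + A + B = 2 * r + (A + B) by ring, pow_add L (2 * r) (A + B)]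
            ring
    calc 2 * M * ((1 + (Q2 / Q1 : ℝ) ^ 2 * (1 + L ^ B * (2 * L ^ A))) / Q2) ≤
          2 * M * ((4 * L ^ (2 * r + A + B)) / Q2) := by gcongr
      _ = 16 * |C0| * 2 ^ K' / L ^ K := by
          rw [hM, show K' = K + (2 * r + A + B) by rw [hK']; ring, pow_add L K]
          field_simp
          ring
      _ ≤ _ := by
          refine div_le_div_of_nonneg_right ?_ (by positivity)
          linarith
  · -- large
    push Not at hc
    have ht0 : |t| = 2 * Real.pi * |ξ| := by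
      rw [ht, abs_mul, abs_of_pos (by positivity : (0 : ℝ) < 2 * Real.pi)]
    have hQB : 8 * L ^ B ≤ Q1 := by linarith
    have hξ8 : 8 ≤ |t| := by
      refine le_trans ?_ hc.le
      nlinarith
    have hπ4 : Real.pi ≤ 4 := Real.pi_le_four
    have hξ : 1 / 2 ≤ |ξ| := by
      rw [ht0] at hξ8
      nlinarith [abs_nonneg ξ]
    have hlam : ∀ q, ‖lw Q1 Q2 d q‖ ≤ 2 * L := by
      intro q
      unfold lw
      split_ifs with hq
      · rw [mem_Ico] at hq
        refine (lamw_le _).trans ?_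
        have i1 : ((q + d : ℕ) : ℝ) + 3 ≤ (Q1 : ℝ) ^ 2 := by
          have : (q : ℝ) ≤ Q2 := by exact_mod_cast hq.2.le
          push_cast
          nlinarith
        calc Real.log (((q + d : ℕ) : ℝ) + 3) ≤ Real.log ((Q1 : ℝ) ^ 2) := Real.log_le_log (by positivity) i1
          _ = 2 * L := by rw [Real.log_pow, hL]; norm_num
      · rw [norm_zero]
        positivity
    refine (hat_decay (by omega) (fun q hq => lw_out hq) b (2 * L) hlam hξ).trans ?_
    have hξ0 : 0 < |ξ| := by linarith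
    have j1 : Q1 * L ^ B / 8 ≤ |ξ| := by
      rw [ht0] at hc
      nlinarith [abs_nonneg ξ]
    calc 2 * (2 * L) * Q2 / (4 * |ξ|) ≤ 2 * (2 * L) * (Q1 * L ^ r) / (4 * (Q1 * L ^ B / 8)) := by
          gcongr
      _ = 8 / L ^ K := by
          rw [hB, pow_add, pow_add, pow_one]
          field_simp
          ring
      _ ≤ _ := by
          refine div_le_div_of_nonneg_right ?_ (by positivity)
          have : 0 ≤ 16 * |C0| * 2 ^ K' := by positivity
          linarith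

end Pool.Agent.K4H50.MB
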