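import Pool.Agent.K4H50.MB.M5

/-!
The weights on `(N / (log N)^C, N]`.
-/

set_option autoImplicit false

namespace Pool.Agent.K4H50.MB

open Finset MeasureTheory Filter Topology FourierTransform
open scoped ENNReal
open Pool.Agent.H376R2.MR (er)
open Pool.Agent.Y957.VK

/-- the sums twisted by `n^{iτ}`, `(log N)^K ≤ |τ| ≤ N^A`, are small -/
def Wb (θ : ℕ → ℂ) : Prop := ∀ A K : ℕ, ∃ C : ℝ, 0 ≤ C ∧ ∀ (N : ℕ) (τ : ℝ), 2 ≤ N → (Real.log N) ^ K ≤ |τ| →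
  |τ| ≤ (N : ℝ) ^ A → ‖∑ n ∈ Finset.Icc 1 N, θ n * er τ (Real.log n)‖ ≤ C * N / (Real.log N) ^ K

theorem Wb_one (h : S_W) : Wb fun _ => 1 := by
  intro A K
  obtain ⟨C, hC, hC2⟩ := h A K
  refine ⟨C, hC, fun N τ hN h1 h2 => ?_⟩
  simpa using hC2 N τ hN h1 h2

theorem Wb_lam (h : S_W) : Wb fun n => (ArithmeticFunction.vonMangoldt n : ℂ) := by
  intro A K
  obtain ⟨C, hC, hC2⟩ := h A K
  obtain ⟨C', hC'⟩ := lamw_neg A K
  refine ⟨C + |C'|, by positivity, fun N τ hN h1 h2 => ?_⟩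
  have e1 : ∑ n ∈ Finset.Icc 1 N, (ArithmeticFunction.vonMangoldt n : ℂ) * er τ (Real.log n) =
      ∑ n ∈ Finset.Icc 1 N, er τ (Real.log n) + ∑ n ∈ Finset.Icc 1 N, lamw n * er τ (Real.log n) := by
    rw [← Finset.sum_add_distrib]
    refine Finset.sum_congr rfl fun n _ => ?_
    unfold lamw
    ring
  rw [e1]
  refine (norm_add_le _ _).trans ((add_le_add (hC2 N τ hN h1 h2) (hC' N τ hN h2)).trans ?_)
  rw [add_mul, add_div]
  refine add_le_add le_rfl (div_le_div_of_nonneg_right ?_ (pow_nonneg (Real.log_natCast_nonneg N) K))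
  exact mul_le_mul_of_nonneg_right (le_abs_self _) (Nat.cast_nonneg N)

/-- where the sum starts -/
noncomputable def Yn (C1 N : ℕ) : ℕ := ⌊(N : ℝ) / (Real.log N) ^ C1⌋₊

/-- the weight -/
noncomputable def wN (θ : ℕ → ℂ) (C1 N n : ℕ) : ℂ := if Yn C1 N < n ∧ n ≤ N then θ n / (2 * Real.log N : ℝ) else 0

theorem Yn_facts (C1 : ℕ) : ∀ᶠ N : ℕ in atTop, 2 ≤ Yn C1 N ∧ Yn C1 N ≤ N ∧ N ≤ (Yn C1 N) ^ 2 ∧
    (N : ℝ) / (Real.log N) ^ C1 / 2 ≤ Yn C1 N ∧ Real.log N / 2 ≤ Real.log (Yn C1 N) := by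
  have hlogt : Tendsto (fun N : ℕ => Real.log (N : ℝ)) atTop atTop :=
    Real.tendsto_log_atTop.comp tendsto_natCast_atTop_atTop
  filter_upwards [log_pow_small (2 * C1) (1 / 16) (by norm_num), hlogt.eventually_ge_atTop 1, eventually_ge_atTop 1]
    with N h1 h2 h3
  have hN1 : (1 : ℝ) ≤ N := by exact_mod_cast h3
  obtain ⟨l, hl⟩ : ∃ l, l = Real.log (N : ℝ) := ⟨_, rfl⟩
  obtain ⟨q, hq⟩ : ∃ q, q = l ^ C1 := ⟨_, rfl⟩
  have hq1 : 1 ≤ q := by rw [hq]; exact one_le_pow₀ (by rw [hl]; exact h2)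
  have hqq : q ^ 2 ≤ 1 / 16 * N := by
    rw [hq, ← pow_mul, mul_comm C1 2, hl]
    exact h1
  unfold Yn
  rw [← hl, ← hq]
  obtain ⟨X, hX⟩ : ∃ X : ℝ, X = N / q := ⟨_, rfl⟩
  have hXX : 16 * N ≤ X ^ 2 := by
    rw [hX, div_pow, le_div_iff₀ (by positivity)]
    nlinarith
  have hX4 : 4 ≤ X := by
    have : 0 ≤ X := by rw [hX]; positivity
    nlinarith
  rw [← hX]
  have hY1 : X / 2 ≤ ⌊X⌋₊ := by
    have := Nat.lt_floor_add_one X
    linarith
  have hY2 : (⌊X⌋₊ : ℝ) ≤ X := Nat.floor_le (by linarith)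
  have hXN : X ≤ N := by
    rw [hX]
    exact div_le_self (by linarith) hq1
  have hY4 : (N : ℝ) ≤ (⌊X⌋₊ : ℝ) ^ 2 := by nlinarith
  refine ⟨?_, ?_, by exact_mod_cast hY4, hY1, ?_⟩
  · have : (2 : ℝ) ≤ ⌊X⌋₊ := by linarith
    exact_mod_cast this
  · exact_mod_cast hY2.trans hXN
  · have h5 := Real.log_le_log (by linarith) hY4
    rw [Real.log_pow, ← hl] at h5
    push_cast at h5
    linarith

theorem wN_le {θ : ℕ → ℂ} (hθ : ∀ n, ‖θ n‖ ≤ Real.log (n + 3)) (C1 : ℕ) : ∀ᶠ N : ℕ in atTop, ∀ n, ‖wN θ C1 N n‖ ≤ 1 := by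
  have hlogt : Tendsto (fun N : ℕ => Real.log (N : ℝ)) atTop atTop :=
    Real.tendsto_log_atTop.comp tendsto_natCast_atTop_atTop
  filter_upwards [hlogt.eventually_ge_atTop 1, eventually_ge_atTop 3] with N h2 h3
  intro n
  unfold wN
  have hN3 : (3 : ℝ) ≤ N := by exact_mod_cast h3
  split_ifs with h
  · rw [norm_div, Complex.norm_real, Real.norm_eq_abs, abs_of_pos (by linarith : 0 < 2 * Real.log N),
      div_le_one (by linarith)]
    refine (hθ n).trans ?_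
    have hn : (n : ℝ) ≤ N := by exact_mod_cast h.2
    have h4 : (n : ℝ) + 3 ≤ (N : ℝ) ^ 2 := by nlinarith
    have h5 := Real.log_le_log (by positivity) h4
    rw [Real.log_pow] at h5
    push_cast at h5
    linarith
  · simp

theorem wN_W {θ : ℕ → ℂ} (hθ : Wb θ) (C1 A K : ℕ) : ∃ C : ℝ, 0 ≤ C ∧ ∀ᶠ N : ℕ in atTop, ∀ τ : ℝ,
    (Real.log N) ^ K ≤ |τ| → |τ| ≤ (N : ℝ) ^ A →
      ‖∑ n ∈ Finset.Icc 1 N, wN θ C1 N n * er τ (Real.log n)‖ ≤ C * N / (Real.log N) ^ K := by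
  obtain ⟨C, hC, hC2⟩ := hθ (2 * A) K
  have hlogt : Tendsto (fun N : ℕ => Real.log (N : ℝ)) atTop atTop :=
    Real.tendsto_log_atTop.comp tendsto_natCast_atTop_atTop
  refine ⟨C + C * 2 ^ K, by positivity, ?_⟩
  filter_upwards [Yn_facts C1, hlogt.eventually_ge_atTop 1, eventually_ge_atTop 2] with N h1 h2 h3 τ hτ1 hτ2
  obtain ⟨g1, g2, g3, g4, g5⟩ := h1
  obtain ⟨Y, hY⟩ : ∃ Y, Y = Yn C1 N := ⟨_, rfl⟩
  rw [← hY] at g1 g2 g3 g4 g5
  have hN1 : (1 : ℝ) ≤ N := by exact_mod_cast (by omega : 1 ≤ N)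
  have hY1 : (1 : ℝ) ≤ Y := by exact_mod_cast (by omega : 1 ≤ Y)
  have hYN : (Y : ℝ) ≤ N := by exact_mod_cast g2
  have hl0 : 0 < Real.log N := by linarith
  have hlY : Real.log Y ≤ Real.log N := Real.log_le_log (by linarith) hYN
  have e1 : ∑ n ∈ Finset.Icc 1 N, wN θ C1 N n * er τ (Real.log n) =
      (∑ n ∈ Finset.Icc 1 N, θ n * er τ (Real.log n) - ∑ n ∈ Finset.Icc 1 Y, θ n * er τ (Real.log n)) /
        (2 * Real.log N : ℝ) := by
    have e2 : ∑ n ∈ Finset.Icc 1 N, θ n * er τ (Real.log n) - ∑ n ∈ Finset.Icc 1 Y, θ n * er τ (Real.log n) =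
        ∑ n ∈ Finset.Icc 1 N, if Y < n then θ n * er τ (Real.log n) else 0 := by
      rw [← Finset.sum_filter, sub_eq_iff_eq_add, ← Finset.sum_filter_add_sum_filter_not (Finset.Icc 1 N) (fun n => Y < n)]
      congr 1
      refine Finset.sum_congr ?_ fun _ _ => rfl
      ext n
      simp only [mem_filter, mem_Icc]
      omega
    rw [e2, Finset.sum_div]
    refine Finset.sum_congr rfl fun n hn => ?_
    rw [mem_Icc] at hn
    unfold wN
    rw [← hY]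
    by_cases h : Y < n
    · rw [if_pos ⟨h, hn.2⟩, if_pos h]
      ring
    · rw [if_neg (fun hc => h hc.1), if_neg h]
      simp
  rw [e1, norm_div, Complex.norm_real, Real.norm_eq_abs, abs_of_pos (by linarith : 0 < 2 * Real.log N),
    div_le_iff₀ (by linarith)]
  have f1 := hC2 N τ h3 hτ1 (hτ2.trans (pow_le_pow_right₀ hN1 (by omega)))
  have f2 := hC2 Y τ g1 (le_trans (pow_le_pow_left₀ (by linarith) hlY K) hτ1) (hτ2.trans (by
    rw [pow_mul]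
    refine pow_le_pow_left₀ (by linarith) ?_ A
    exact_mod_cast g3))
  have f3 : C * (Y : ℝ) / (Real.log Y) ^ K ≤ C * 2 ^ K * N / (Real.log N) ^ K := by
    calc C * (Y : ℝ) / (Real.log Y) ^ K ≤ C * N / (Real.log N / 2) ^ K := by
          refine div_le_div₀ (by positivity) (by gcongr) (by positivity) (pow_le_pow_left₀ (by positivity) g5 K)
      _ = _ := by
          rw [div_pow]
          field_simp
  calc ‖∑ n ∈ Finset.Icc 1 N, θ n * er τ (Real.log n) - ∑ n ∈ Finset.Icc 1 Y, θ n * er τ (Real.log n)‖ ≤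
        C * N / (Real.log N) ^ K + C * 2 ^ K * N / (Real.log N) ^ K :=
        (norm_sub_le _ _).trans (add_le_add f1 (f2.trans f3))
    _ = (C + C * 2 ^ K) * N / (Real.log N) ^ K := by ring
    _ ≤ _ := by
        refine le_mul_of_one_le_right (by positivity) (by linarith)

end Pool.Agent.K4H50.MB
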