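import Pool.Agent.K4H50.MB.M6

/-!
The windows of the factors.
-/

set_option autoImplicit false

namespace Pool.Agent.K4H50.MB

open Finset MeasureTheory Filter Topology FourierTransform
open scoped ENNReal
open Pool.Agent.H376R2.MR (er)
open Pool.Agent.Y957.VK

/-- start of the window -/
noncomputable def Qa (b c : ℝ) (C1 N : ℕ) : ℕ := ⌊Real.exp b * (Yn C1 N : ℝ) ^ c⌋₊

/-- end of the window -/
noncomputable def Qb (b c : ℝ) (N : ℕ) : ℕ := ⌊Real.exp (b + 1) * (N : ℝ) ^ c⌋₊ + 1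

theorem Q_facts (b c : ℝ) (hc : 0 < c) (C1 A R X : ℕ) (hR : c ≤ R) : ∀ᶠ N : ℕ in atTop,
    X ≤ Qa b c C1 N ∧ Qa b c C1 N ≤ Qb b c N ∧
    (Qb b c N : ℝ) ≤ Qa b c C1 N * (Real.log (Qa b c C1 N)) ^ (C1 * R + 1) ∧
    (Real.log N) ^ A ≤ (Real.log (Qa b c C1 N)) ^ (A + 1) ∧
    c / 4 * Real.log N ≤ Real.log (Qa b c C1 N) ∧
    (Qb b c N : ℝ) + (Real.log N) ^ A + 3 ≤ (N : ℝ) ^ (R + 1) ∧
    (∀ n : ℕ, Yn C1 N < n → n ≤ N → ∀ y : ℝ, y ∈ Set.Icc (0 : ℝ) 1 →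
      ⌊Real.exp (b + y) * (n : ℝ) ^ c⌋₊ ∈ Ico (Qa b c C1 N) (Qb b c N)) := by
  have hlogt : Tendsto (fun N : ℕ => Real.log (N : ℝ)) atTop atTop :=
    Real.tendsto_log_atTop.comp tendsto_natCast_atTop_atTop
  obtain ⟨κ, hκ⟩ : ∃ κ : ℝ, κ = c / 4 := ⟨_, rfl⟩
  have hκ0 : 0 < κ := by rw [hκ]; positivity
  -- how large the logarithm must be
  have g1 : ∀ᶠ N : ℕ in atTop, (4 * Real.exp 1 * 2 ^ R) / κ ^ (C1 * R + 1) ≤ Real.log (N : ℝ) := hlogt.eventually_ge_atTop _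
  have g2 : ∀ᶠ N : ℕ in atTop, 1 / κ ^ (A + 1) ≤ Real.log (N : ℝ) := hlogt.eventually_ge_atTop _
  have g3 : ∀ᶠ N : ℕ in atTop, (2 * (Real.log 2 - b)) / (c / 2) ≤ Real.log (N : ℝ) := hlogt.eventually_ge_atTop _
  have g4 : ∀ᶠ N : ℕ in atTop, 1 ≤ Real.log (N : ℝ) := hlogt.eventually_ge_atTop _
  have g5 : ∀ᶠ N : ℕ in atTop, 2 * (Real.log (X + 2) - b) / (c / 2) ≤ Real.log (N : ℝ) := hlogt.eventually_ge_atTop _
  have g6 := log_pow_small A (1 / 3) (by norm_num)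
  have g7 : ∀ᶠ N : ℕ in atTop, 3 * (Real.exp (b + 1) + 4) ≤ (N : ℝ) :=
    tendsto_natCast_atTop_atTop.eventually_ge_atTop _
  filter_upwards [Yn_facts C1, g1, g2, g3, g4, g5, g6, g7, eventually_ge_atTop 2] with N h0 h1 h2 h3 h4 h5 h6 h7 h8
  obtain ⟨y1, y2, y3, y4, y5⟩ := h0
  obtain ⟨Y, hY⟩ : ∃ Y, Y = Yn C1 N := ⟨_, rfl⟩
  rw [← hY] at y1 y2 y3 y4 y5
  have hN1 : (1 : ℝ) ≤ N := by exact_mod_cast (by omega : 1 ≤ N)
  have hY1 : (1 : ℝ) ≤ Y := by exact_mod_cast (by omega : 1 ≤ Y)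
  have hN0 : (0 : ℝ) < N := by linarith
  have hY0 : (0 : ℝ) < Y := by linarith
  have hYN : (Y : ℝ) ≤ N := by exact_mod_cast y2
  obtain ⟨l, hl⟩ : ∃ l, l = Real.log (N : ℝ) := ⟨_, rfl⟩
  rw [← hl] at h1 h2 h3 h4 h5 h6 y4 y5 ⊢
  have hl0 : 0 < l := by linarith
  -- the real number below
  obtain ⟨Z, hZ⟩ : ∃ Z : ℝ, Z = Real.exp b * (Y : ℝ) ^ c := ⟨_, rfl⟩
  have hZ0 : 0 < Z := by rw [hZ]; positivity
  have hlZ : Real.log Z = b + c * Real.log Y := by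
    rw [hZ, Real.log_mul (Real.exp_pos b).ne' (by positivity), Real.log_exp, Real.log_rpow hY0]
  have hlZ2 : b + c / 2 * l ≤ Real.log Z := by
    rw [hlZ]
    nlinarith
  have hZX : (X : ℝ) + 2 ≤ Z := by
    have k1 : Real.log (X + 2) ≤ Real.log Z := by
      rw [div_le_iff₀ (by positivity)] at h5
      nlinarith
    exact (Real.log_le_log_iff (by positivity) hZ0).1 k1
  have hX0 : (0 : ℝ) ≤ X := Nat.cast_nonneg X
  obtain ⟨Q, hQ⟩ : ∃ Q, Q = Qa b c C1 N := ⟨_, rfl⟩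
  obtain ⟨Q', hQ'⟩ : ∃ Q', Q' = Qb b c N := ⟨_, rfl⟩
  rw [← hQ, ← hQ']
  have hQZ : Q = ⌊Z⌋₊ := by rw [hQ, hZ, hY]; rfl
  have hQ1 : (Q : ℝ) ≤ Z := by rw [hQZ]; exact Nat.floor_le hZ0.le
  have hQ2 : Z < Q + 1 := by rw [hQZ]; exact Nat.lt_floor_add_one Z
  have hQh : Z / 2 ≤ Q := by linarith
  have hQ0 : (0 : ℝ) < Q := by linarith
  obtain ⟨W, hW⟩ : ∃ W : ℝ, W = Real.exp (b + 1) * (N : ℝ) ^ c := ⟨_, rfl⟩
  have hW0 : 0 < W := by rw [hW]; positivity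
  have hQ'W : Q' = ⌊W⌋₊ + 1 := by rw [hQ', hW]; rfl
  have hQ'1 : (Q' : ℝ) ≤ W + 1 := by
    rw [hQ'W]
    push_cast
    have := Nat.floor_le hW0.le
    linarith
  have hQ'2 : W < Q' := by
    rw [hQ'W]
    push_cast
    exact Nat.lt_floor_add_one W
  have hZW : Z ≤ W := by
    rw [hZ, hW]
    have : Real.exp b ≤ Real.exp (b + 1) := Real.exp_le_exp.2 (by linarith)
    gcongr
  have hQQ : Q ≤ Q' := by
    rw [hQZ, hQ'W]
    exact (Nat.floor_mono hZW).trans (Nat.le_succ _)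
  have hQ2' : (2 : ℝ) ≤ Q := by
    have : 2 ≤ Q := by
      rw [hQZ]
      exact Nat.le_floor (by push_cast; linarith)
    exact_mod_cast this
  have hlQ : c / 4 * l ≤ Real.log Q := by
    have k1 : Real.log (Z / 2) ≤ Real.log Q := Real.log_le_log (by positivity) hQh
    rw [Real.log_div hZ0.ne' (by norm_num)] at k1
    rw [div_le_iff₀ (by positivity)] at h3
    nlinarith
  have hlQ0 : 0 < Real.log Q := Real.log_pos (by linarith)
  rw [← hκ] at hlQ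
  have hκl : 0 < κ * l := by positivity
  refine ⟨?_, hQQ, ?_, ?_, by rw [← hκ]; exact hlQ, ?_, ?_⟩
  · rw [hQZ]
    exact Nat.le_floor (by linarith)
  · -- ratio
    have k1 : (N : ℝ) ^ c ≤ (2 * l ^ C1) ^ R * (Y : ℝ) ^ c := by
      have hlC : 1 ≤ l ^ C1 := one_le_pow₀ h4
      have k2 : (N : ℝ) ≤ (2 * l ^ C1) * Y := by
        rw [div_div, div_le_iff₀ (by positivity)] at y4
        linarith
      calc (N : ℝ) ^ c ≤ ((2 * l ^ C1) * Y) ^ c := Real.rpow_le_rpow hN0.le k2 hc.le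
        _ = (2 * l ^ C1) ^ c * (Y : ℝ) ^ c := Real.mul_rpow (by positivity) hY0.le
        _ ≤ (2 * l ^ C1) ^ (R : ℝ) * (Y : ℝ) ^ c := by
            refine mul_le_mul_of_nonneg_right ?_ (by positivity)
            exact Real.rpow_le_rpow_of_exponent_le (by linarith) hR
        _ = _ := by rw [Real.rpow_natCast]
    have k3 : W ≤ Real.exp 1 * (2 * l ^ C1) ^ R * Z := by
      rw [hW, hZ, Real.exp_add]
      calc Real.exp b * Real.exp 1 * (N : ℝ) ^ c ≤ Real.exp b * Real.exp 1 * ((2 * l ^ C1) ^ R * (Y : ℝ) ^ c) := by gcongr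
        _ = _ := by ring
    have k4 : 4 * Real.exp 1 * 2 ^ R * l ^ (C1 * R) ≤ (Real.log Q) ^ (C1 * R + 1) := by
      rw [div_le_iff₀ (by positivity)] at h1
      calc 4 * Real.exp 1 * 2 ^ R * l ^ (C1 * R) ≤ (l * κ ^ (C1 * R + 1)) * l ^ (C1 * R) := by gcongr
        _ = (κ * l) ^ (C1 * R + 1) := by
            rw [mul_pow]
            ring
        _ ≤ _ := pow_le_pow_left₀ hκl.le hlQ _
    calc (Q' : ℝ) ≤ 2 * W := by linarith
      _ ≤ 2 * (Real.exp 1 * (2 * l ^ C1) ^ R * (2 * Q)) := by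
          refine mul_le_mul_of_nonneg_left (k3.trans ?_) (by norm_num)
          gcongr
          linarith
      _ = (4 * Real.exp 1 * 2 ^ R * l ^ (C1 * R)) * Q := by
          rw [mul_pow, ← pow_mul]
          ring
      _ ≤ (Real.log Q) ^ (C1 * R + 1) * Q := by gcongr
      _ = _ := by ring
  · rw [div_le_iff₀ (by positivity)] at h2
    calc l ^ A = 1 * l ^ A := (one_mul _).symm
      _ ≤ (l * κ ^ (A + 1)) * l ^ A := by gcongr
      _ = (κ * l) ^ (A + 1) := by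
          rw [mul_pow]
          ring
      _ ≤ _ := pow_le_pow_left₀ hκl.le hlQ _
  · have k1 : (N : ℝ) ^ c ≤ (N : ℝ) ^ R := by
      rw [← Real.rpow_natCast]
      exact Real.rpow_le_rpow_of_exponent_le hN1 hR
    have k2 : (1 : ℝ) ≤ (N : ℝ) ^ R := one_le_pow₀ hN1
    have k3 : W ≤ Real.exp (b + 1) * (N : ℝ) ^ R := by
      rw [hW]
      gcongr
    have k4 : (N : ℝ) ≤ (N : ℝ) ^ (R + 1) := by
      rw [pow_succ]
      nlinarith
    have k5 : (Real.exp (b + 1) + 4) * (N : ℝ) ^ R ≤ 1 / 3 * (N : ℝ) ^ (R + 1) := by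
      rw [pow_succ]
      nlinarith
    nlinarith
  · intro n hn1 hn2 y hy
    rw [← hY] at hn1
    have hn1' : (Y : ℝ) ≤ n := by exact_mod_cast hn1.le
    have hn2' : (n : ℝ) ≤ N := by exact_mod_cast hn2
    have hn0 : (0 : ℝ) < n := by linarith
    rw [mem_Ico]
    constructor
    · rw [hQZ, hZ]
      refine Nat.floor_mono ?_
      have : Real.exp b ≤ Real.exp (b + y) := Real.exp_le_exp.2 (by linarith [hy.1])
      gcongr
    · rw [hQ'W, hW, Nat.lt_succ_iff]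
      refine Nat.floor_mono ?_
      have : Real.exp (b + y) ≤ Real.exp (b + 1) := Real.exp_le_exp.2 (by linarith [hy.2])
      gcongr

end Pool.Agent.K4H50.MB
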