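import Pool.Agent.K4H50.MB.M7

/-!
The first factor, with all parameters chosen.
-/

set_option autoImplicit false

namespace Pool.Agent.K4H50.MB

open Finset MeasureTheory Filter Topology FourierTransform
open scoped ENNReal
open Pool.Agent.H376R2.MR (er)
open Pool.Agent.Y957.VK

theorem MS_add {Ω : Type} [MeasurableSpace Ω] {m : Measure Ω} {g h : Ω → ℕ → ℂ} {N : ℕ} {P S T : ℝ}
    (hg : ∀ n, Measurable fun ω => g ω n) (hS : 0 ≤ S) (hT : 0 ≤ T)
    (h1 : MS m g N P S) (h2 : MS m h N P T) :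
    MS m (fun ω n => g ω n + h ω n) N P (2 * S + 2 * T) := by
  intro τ hτ
  have h3 := h1 τ hτ
  have h4 := h2 τ hτ
  have hm : Measurable fun ω => ‖∑ n ∈ Finset.Icc 1 N, g ω n * er τ (Real.log n)‖ₑ ^ 2 :=
    (Finset.measurable_sum _ fun n _ => (hg n).mul_const _).enorm.pow_const 2
  calc ∫⁻ ω, ‖∑ n ∈ Finset.Icc 1 N, (g ω n + h ω n) * er τ (Real.log n)‖ₑ ^ 2 ∂m ≤
        ∫⁻ ω, (2 * ‖∑ n ∈ Finset.Icc 1 N, g ω n * er τ (Real.log n)‖ₑ ^ 2 +
          2 * ‖∑ n ∈ Finset.Icc 1 N, h ω n * er τ (Real.log n)‖ₑ ^ 2) ∂m := by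
        refine lintegral_mono fun ω => ?_
        have e1 : ∑ n ∈ Finset.Icc 1 N, (g ω n + h ω n) * er τ (Real.log n) =
            ∑ n ∈ Finset.Icc 1 N, g ω n * er τ (Real.log n) + ∑ n ∈ Finset.Icc 1 N, h ω n * er τ (Real.log n) := by
          rw [← Finset.sum_add_distrib]
          exact Finset.sum_congr rfl fun n _ => by ring
        simp only [e1]
        generalize (∑ n ∈ Finset.Icc 1 N, g ω n * er τ (Real.log n)) = x
        generalize (∑ n ∈ Finset.Icc 1 N, h ω n * er τ (Real.log n)) = y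
        rw [← ofReal_norm_eq_enorm, ← ofReal_norm_eq_enorm, ← ofReal_norm_eq_enorm, ← ENNReal.ofReal_pow (norm_nonneg _),
          ← ENNReal.ofReal_pow (norm_nonneg _), ← ENNReal.ofReal_pow (norm_nonneg _),
          show (2 : ℝ≥0∞) = ENNReal.ofReal 2 by simp, ← ENNReal.ofReal_mul (by norm_num), ← ENNReal.ofReal_mul (by norm_num),
          ← ENNReal.ofReal_add (by positivity) (by positivity)]
        refine ENNReal.ofReal_le_ofReal ?_
        have h5 := norm_add_le x y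
        have h6 := norm_nonneg (x + y)
        nlinarith [sq_nonneg (‖x‖ - ‖y‖), norm_nonneg x, norm_nonneg y]
    _ = 2 * ∫⁻ ω, ‖∑ n ∈ Finset.Icc 1 N, g ω n * er τ (Real.log n)‖ₑ ^ 2 ∂m +
          2 * ∫⁻ ω, ‖∑ n ∈ Finset.Icc 1 N, h ω n * er τ (Real.log n)‖ₑ ^ 2 ∂m := by
        rw [lintegral_add_left (hm.const_mul 2), lintegral_const_mul _ hm, lintegral_const_mul' _ _ (by norm_num)]
    _ ≤ 2 * ENNReal.ofReal S + 2 * ENNReal.ofReal T := by gcongr
    _ = _ := by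
        rw [ENNReal.ofReal_add (by positivity) (by positivity), ENNReal.ofReal_mul (by norm_num), ENNReal.ofReal_mul (by norm_num)]
        simp

theorem MS_congr {Ω : Type} [MeasurableSpace Ω] {m : Measure Ω} {g h : Ω → ℕ → ℂ} {N : ℕ} {P S : ℝ}
    (he : ∀ᵐ ω ∂m, ∀ n ∈ Finset.Icc 1 N, g ω n = h ω n) (h2 : MS m h N P S) : MS m g N P S := by
  intro τ hτ
  refine le_trans (le_of_eq ?_) (h2 τ hτ)
  refine lintegral_congr_ae ?_
  filter_upwards [he] with ω hω
  congr 2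
  exact Finset.sum_congr rfl fun n hn => by rw [hω n hn]

theorem MS_mono {Ω : Type} [MeasurableSpace Ω] {m : Measure Ω} {g : Ω → ℕ → ℂ} {N : ℕ} {P P' S S' : ℝ}
    (hP : P' ≤ P) (hS : S ≤ S') (h2 : MS m g N P S) : MS m g N P' S' := fun τ hτ =>
  (h2 τ (hτ.trans hP)).trans (ENNReal.ofReal_le_ofReal hS)

theorem MS_smul {Ω : Type} [MeasurableSpace Ω] {m : Measure Ω} {g : Ω → ℕ → ℂ} {N : ℕ} {P S : ℝ} {z : ℂ}
    (hz : ‖z‖ ≤ 1) (h2 : MS m g N P S) : MS m (fun ω n => z * g ω n) N P S := by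
  intro τ hτ
  refine le_trans (lintegral_mono fun ω => ?_) (h2 τ hτ)
  have e1 : ∑ n ∈ Finset.Icc 1 N, z * g ω n * er τ (Real.log n) = z * ∑ n ∈ Finset.Icc 1 N, g ω n * er τ (Real.log n) := by
    rw [Finset.mul_sum]
    exact Finset.sum_congr rfl fun n _ => by ring
  simp only [e1]
  rw [enorm_mul, mul_pow]
  have h3 : ‖z‖ₑ ^ 2 ≤ 1 := by
    have : ‖z‖ₑ ≤ 1 := by
      rw [← ofReal_norm_eq_enorm]
      exact ENNReal.ofReal_le_one.2 hz
    exact pow_le_one₀ zero_le this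
  calc _ ≤ 1 * ‖∑ n ∈ Finset.Icc 1 N, g ω n * er τ (Real.log n)‖ₑ ^ 2 := mul_le_mul' h3 le_rfl
    _ = _ := one_mul _

theorem MS_snd {Ω : Type} [MeasurableSpace Ω] {m : Measure Ω} [IsProbabilityMeasure m] {g : ℝ → ℕ → ℂ} {N : ℕ} {P S : ℝ}
    (hg : ∀ n, Measurable fun y => g y n) (h2 : MS U1 g N P S) : MS (m.prod U1) (fun p n => g p.2 n) N P S := by
  intro τ hτ
  refine le_trans (le_of_eq ?_) (h2 τ hτ)
  have hm : Measurable fun y => ‖∑ n ∈ Finset.Icc 1 N, g y n * er τ (Real.log n)‖ₑ ^ 2 :=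
    (Finset.measurable_sum _ fun n _ => (hg n).mul_const _).enorm.pow_const 2
  exact (measurePreserving_snd (μ := m) (ν := U1)).lintegral_comp hm

/-- from the product to the space of all coordinates -/
theorem MS_pi {k : ℕ} {g : (Fin (k + 1) → ℝ) → ℕ → ℂ} {g' : (Fin k → ℝ) × ℝ → ℕ → ℂ} {N : ℕ} {P S : ℝ}
    (he : ∀ ω n, g ω n = g' (fun j => ω j.succ, ω 0) n)
    (h2 : MS ((Measure.pi fun _ : Fin k => U1).prod U1) g' N P S) : MS (Measure.pi fun _ : Fin (k + 1) => U1) g N P S := by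
  intro τ hτ
  refine le_trans (le_of_eq ?_) (h2 τ hτ)
  have mp1 := measurePreserving_piFinSuccAbove (fun _ : Fin (k + 1) => U1) 0
  have mp2 : MeasurePreserving (Prod.swap : ℝ × (Fin k → ℝ) → (Fin k → ℝ) × ℝ)
      (U1.prod (Measure.pi fun _ : Fin k => U1)) ((Measure.pi fun _ : Fin k => U1).prod U1) := Measure.measurePreserving_swap
  rw [← mp2.lintegral_comp_emb MeasurableEquiv.prodComm.measurableEmbedding,
    ← mp1.lintegral_comp_emb (MeasurableEquiv.measurableEmbedding _)]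
  refine lintegral_congr fun ω => ?_
  congr 2
  refine Finset.sum_congr rfl fun n _ => ?_
  rw [he]
  rfl

/-- the normalisation -/
noncomputable def la (R N : ℕ) : ℝ := ((R : ℝ) + 1) * Real.log N

/-- the factor -/
noncomputable def aN (b c : ℝ) (C1 R N d q : ℕ) : ℂ :=
  if q ∈ Ico (Qa b c C1 N) (Qb b c N) then (ArithmeticFunction.vonMangoldt (q + d) : ℂ) / (la R N : ℝ) else 0

/-- the factor minus its mean -/
noncomputable def eN (b c : ℝ) (C1 R N d q : ℕ) : ℂ := ((la R N)⁻¹ : ℝ) * lw (Qa b c C1 N) (Qb b c N) d q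

theorem eN_small (b c : ℝ) (hc : 0 < c) (C1 A K R : ℕ) (hR : c ≤ R) : ∃ C : ℝ, 0 ≤ C ∧ ∀ᶠ N : ℕ in atTop,
    ∀ d : ℕ, (d : ℝ) ≤ (Real.log N) ^ A → (∀ q, ‖eN b c C1 R N d q‖ ≤ 1) ∧ (∀ q, ‖aN b c C1 R N d q‖ ≤ 1) ∧
      ∀ ξ : ℝ, ‖𝓕 (Bs (eN b c C1 R N d) b) ξ‖ ≤ C / (Real.log N) ^ K := by
  obtain ⟨C, hC, X, hX⟩ := hat_small (A + 1) K (C1 * R + 1)
  have hlogt : Tendsto (fun N : ℕ => Real.log (N : ℝ)) atTop atTop :=
    Real.tendsto_log_atTop.comp tendsto_natCast_atTop_atTop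
  refine ⟨C * (4 / c) ^ K, by positivity, ?_⟩
  filter_upwards [Q_facts b c hc C1 A R (X + 1) hR, hlogt.eventually_ge_atTop 1, eventually_ge_atTop 2] with N h1 h2 h3 d hd
  obtain ⟨q1, q2, q3, q4, q5, q6, q7⟩ := h1
  have hN1 : (1 : ℝ) ≤ N := by exact_mod_cast (by omega : 1 ≤ N)
  have hR0 : (0 : ℝ) ≤ R := Nat.cast_nonneg R
  have hla : 1 ≤ la R N := by
    unfold la
    nlinarith
  have hla0 : 0 < la R N := by linarith
  have hlog : ∀ q ∈ Ico (Qa b c C1 N) (Qb b c N), Real.log (((q + d : ℕ) : ℝ) + 3) ≤ la R N := by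
    intro q hq
    rw [mem_Ico] at hq
    have hq2 : (q : ℝ) ≤ Qb b c N := by exact_mod_cast hq.2.le
    have h4 : ((q + d : ℕ) : ℝ) + 3 ≤ (N : ℝ) ^ (R + 1) := by
      push_cast
      linarith
    have h5 := Real.log_le_log (by positivity) h4
    rw [Real.log_pow] at h5
    unfold la
    push_cast at h5 ⊢
    exact h5
  refine ⟨fun q => ?_, fun q => ?_, fun ξ => ?_⟩
  · unfold eN lw
    split_ifs with hq
    · rw [norm_mul, Complex.norm_real, Real.norm_eq_abs, abs_of_pos (inv_pos.2 hla0), inv_mul_le_iff₀ hla0, mul_one]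
      exact (lamw_le _).trans (hlog q hq)
    · simp
  · unfold aN
    split_ifs with hq
    · rw [norm_div, Complex.norm_real, Complex.norm_real, Real.norm_eq_abs, Real.norm_eq_abs, abs_of_pos hla0,
        abs_of_nonneg ArithmeticFunction.vonMangoldt_nonneg, div_le_one hla0]
      refine (ArithmeticFunction.vonMangoldt_le_log).trans (le_trans ?_ (hlog q hq))
      rcases Nat.eq_zero_or_pos (q + d) with h0 | h0
      · rw [h0]
        simp
        exact Real.log_nonneg (by norm_num)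
      · exact Real.log_le_log (by exact_mod_cast h0) (by linarith)
    · simp
  · have e1 : Bs (eN b c C1 R N d) b = fun u => (((la R N)⁻¹ : ℝ) : ℂ) * Bs (lw (Qa b c C1 N) (Qb b c N) d) b u := rfl
    rw [e1, four_smulc, norm_mul, Complex.norm_real, Real.norm_eq_abs, abs_of_pos (inv_pos.2 hla0)]
    have h4 := hX (Qa b c C1 N) (Qb b c N) d (by omega) q2 q3 (hd.trans q4) b ξ
    have h5 : (la R N)⁻¹ ≤ 1 := inv_le_one_of_one_le₀ hla
    have h6 : 0 < Real.log N := by linarith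
    have h7 : 0 < c / 4 * Real.log N := by positivity
    calc (la R N)⁻¹ * ‖𝓕 (Bs (lw (Qa b c C1 N) (Qb b c N) d) b) ξ‖ ≤ 1 * ‖𝓕 (Bs (lw (Qa b c C1 N) (Qb b c N) d) b) ξ‖ := by
          gcongr
      _ ≤ C / (Real.log (Qa b c C1 N)) ^ K := by rw [one_mul]; exact h4
      _ ≤ C / (c / 4 * Real.log N) ^ K := div_le_div_of_nonneg_left hC (by positivity) (pow_le_pow_left₀ h7.le q5 K)
      _ = _ := by
          rw [mul_pow, div_pow, div_pow]
          field_simp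

end Pool.Agent.K4H50.MB
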