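import Pool.Agent.K4H50.MB.M8

/-!
The recursion over the factors.
-/

set_option autoImplicit false

namespace Pool.Agent.K4H50.MB

open Finset MeasureTheory Filter Topology FourierTransform
open scoped ENNReal
open Pool.Agent.H376R2.MR (er)
open Pool.Agent.Y957.VK

theorem base_small {θ : ℕ → ℂ} (hθ : Wb θ) (hθ1 : ∀ n, ‖θ n‖ ≤ Real.log (n + 3)) (b c : ℝ) (hc : 0 < c)
    (C1 A P K R : ℕ) (hR : c ≤ R) : ∃ C : ℝ, 0 ≤ C ∧ ∀ᶠ N : ℕ in atTop,
    ∀ d : ℕ, (d : ℝ) ≤ (Real.log N) ^ A →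
      MS U1 (fun y n => wN θ C1 N n * eN b c C1 R N d ⌊Real.exp (b + y) * (n : ℝ) ^ c⌋₊) N ((N : ℝ) ^ P)
        (C * N ^ 2 / (Real.log N) ^ K) := by
  obtain ⟨Ce, hCe, he⟩ := eN_small b c hc C1 A (K + 1) R hR
  obtain ⟨Cw, hCw, hw⟩ := wN_W hθ C1 (P + 2 * R + 5) (K + 1)
  have hlogt : Tendsto (fun N : ℕ => Real.log (N : ℝ)) atTop atTop :=
    Real.tendsto_log_atTop.comp tendsto_natCast_atTop_atTop
  have hπ := Real.pi_pos
  refine ⟨Cw ^ 2 * (R + 1) + Ce ^ 2 / c + 1, by positivity, ?_⟩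
  have g7 : ∀ᶠ N : ℕ in atTop, 8 * ((R : ℝ) + 1) ≤ (N : ℝ) := tendsto_natCast_atTop_atTop.eventually_ge_atTop _
  filter_upwards [he, hw, wN_le hθ1 C1, Q_facts b c hc C1 A R 1 hR, hlogt.eventually_ge_atTop 1,
    log_pow_small K 1 one_pos, g7, eventually_ge_atTop 2] with N h1 h2 h3 h4 h5 h6 h7 h8 d hd
  obtain ⟨e1, e2, e3⟩ := h1 d hd
  obtain ⟨q1, q2, q3, q4, q5, q6, q7⟩ := h4
  have hN1 : (1 : ℝ) ≤ N := by exact_mod_cast (by omega : 1 ≤ N)
  have hN2 : (2 : ℝ) ≤ N := by exact_mod_cast h8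
  have hN0 : (0 : ℝ) < N := by linarith
  have hR0 : (0 : ℝ) ≤ R := Nat.cast_nonneg R
  obtain ⟨l, hl⟩ : ∃ l, l = Real.log (N : ℝ) := ⟨_, rfl⟩
  rw [← hl] at h5 h6 q4 q5 q6 hd ⊢
  have hl0 : 0 < l := by linarith
  obtain ⟨Q1, hQ1⟩ : ∃ Q, Q = Qa b c C1 N := ⟨_, rfl⟩
  obtain ⟨Q2, hQ2⟩ : ∃ Q, Q = Qb b c N := ⟨_, rfl⟩
  rw [← hQ1] at q1 q2 q3 q4 q5
  rw [← hQ2] at q2 q3 q6
  have hQ10 : (1 : ℝ) ≤ Q1 := by exact_mod_cast q1
  have hQ12 : (Q1 : ℝ) ≤ Q2 := by exact_mod_cast q2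
  have hQ20 : (1 : ℝ) ≤ Q2 := by linarith
  have hl2 : 0 ≤ l ^ A := by positivity
  have hQN : (Q2 : ℝ) ≤ (N : ℝ) ^ (R + 1) := by linarith
  obtain ⟨T, hT⟩ : ∃ T : ℝ, T = N * (Q2 : ℝ) ^ 2 / 2 := ⟨_, rfl⟩
  have hT1 : 1 ≤ T := by
    rw [hT]
    nlinarith
  have hTN : T ≤ (N : ℝ) ^ (2 * R + 3) / 2 := by
    rw [hT]
    refine div_le_div_of_nonneg_right ?_ (by norm_num)
    calc (N : ℝ) * (Q2 : ℝ) ^ 2 ≤ N * ((N : ℝ) ^ (R + 1)) ^ 2 := by gcongr
      _ = _ := by ring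
  have hlogQ : Real.log Q2 ≤ (R + 1) * l := by
    have := Real.log_le_log (by linarith) hQN
    rw [Real.log_pow, ← hl] at this
    push_cast at this
    exact this
  have hlogQ1 : 0 ≤ Real.log Q1 := Real.log_nonneg hQ10
  have hfr : (N : ℝ) ^ P + c * (2 * Real.pi * T) ≤ (N : ℝ) ^ (P + 2 * R + 5) := by
    have i1 : c * (2 * Real.pi * T) ≤ (N : ℝ) ^ (2 * R + 4) := by
      have i2 : c * (2 * Real.pi) ≤ 8 * ((R : ℝ) + 1) * 1 := by
        have := Real.pi_le_four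
        nlinarith
      calc c * (2 * Real.pi * T) = (c * (2 * Real.pi)) * T := by ring
        _ ≤ N * ((N : ℝ) ^ (2 * R + 3) / 2) := mul_le_mul (by linarith) hTN (by linarith) (by linarith)
        _ ≤ _ := by
            rw [pow_succ (N : ℝ) (2 * R + 3)]
            have : 0 ≤ (N : ℝ) ^ (2 * R + 3) := by positivity
            nlinarith
    have i3 : (N : ℝ) ^ P ≤ (N : ℝ) ^ (P + 2 * R + 4) := pow_le_pow_right₀ hN1 (by omega)
    have i4 : (N : ℝ) ^ (2 * R + 4) ≤ (N : ℝ) ^ (P + 2 * R + 4) := pow_le_pow_right₀ hN1 (by omega)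
    rw [show P + 2 * R + 5 = (P + 2 * R + 4) + 1 by ring, pow_succ (N : ℝ)]
    nlinarith [pow_pos hN0 (P + 2 * R + 4)]
  have hout : ∀ q, q ∉ Ico Q1 Q2 → eN b c C1 R N d q = 0 := fun q hq => by
    unfold eN
    rw [lw_out (by rw [← hQ1, ← hQ2]; exact hq), mul_zero]
  have key := base_fin (wN θ C1 N) h3 q1 q2 hout e1 b c hc N ((N : ℝ) ^ P) ((Cw * N / l ^ (K + 1)) ^ 2) T
    (l ^ (K + 1)) ((Ce / l ^ (K + 1)) ^ 2) (by positivity) hT1 (by positivity) (by positivity)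
    (fun t ht1 ht2 => by
      refine pow_le_pow_left₀ (norm_nonneg _) ?_ 2
      rw [hl] at ht1 ⊢
      exact h2 t ht1 (ht2.trans hfr))
    (fun ξ => pow_le_pow_left₀ (norm_nonneg _) (by rw [hl]; exact e3 ξ) 2)
  refine MS_mono le_rfl ?_ key
  have k1 : (Cw * N / l ^ (K + 1)) ^ 2 * (Real.log Q2 - Real.log Q1) ≤ Cw ^ 2 * (R + 1) * (N ^ 2 / l ^ K) := by
    calc (Cw * N / l ^ (K + 1)) ^ 2 * (Real.log Q2 - Real.log Q1) ≤ (Cw * N / l ^ (K + 1)) ^ 2 * ((R + 1) * l) := by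
          refine mul_le_mul_of_nonneg_left (by linarith) (by positivity)
      _ = Cw ^ 2 * (R + 1) * (N ^ 2 / l ^ K) * (1 / l ^ (K + 1)) := by
          rw [pow_succ l K]
          field_simp
      _ ≤ _ := by
          refine mul_le_of_le_one_right (by positivity) ?_
          rw [div_le_one (by positivity)]
          exact one_le_pow₀ h5
  have k2 : (N : ℝ) ^ 2 * (Ce / l ^ (K + 1)) ^ 2 * (2 * l ^ (K + 1) / (c * (2 * Real.pi))) ≤ Ce ^ 2 / c * (N ^ 2 / l ^ K) := by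
    calc (N : ℝ) ^ 2 * (Ce / l ^ (K + 1)) ^ 2 * (2 * l ^ (K + 1) / (c * (2 * Real.pi))) =
          Ce ^ 2 / c * (N ^ 2 / l ^ K) * (1 / (Real.pi * l)) := by
          rw [pow_succ l K]
          field_simp
      _ ≤ _ := by
          refine mul_le_of_le_one_right (by positivity) ?_
          rw [div_le_one (by positivity)]
          nlinarith [Real.pi_gt_three]
  have k3 : (N : ℝ) ^ 2 * (2 * Q2) ^ 2 / 8 / T ≤ 1 * (N ^ 2 / l ^ K) := by
    have : (Q2 : ℝ) ≠ 0 := by positivity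
    calc (N : ℝ) ^ 2 * (2 * Q2) ^ 2 / 8 / T = N := by
          rw [hT]
          field_simp
          ring
      _ ≤ _ := by
          rw [one_mul, le_div_iff₀ (by positivity)]
          nlinarith
  calc _ ≤ Cw ^ 2 * (R + 1) * (N ^ 2 / l ^ K) + Ce ^ 2 / c * (N ^ 2 / l ^ K) + 1 * (N ^ 2 / l ^ K) :=
        add_le_add (add_le_add k1 k2) k3
    _ = _ := by ring

/-- the product of all factors -/
noncomputable def GN (θ : ℕ → ℂ) (C1 R : ℕ) {k : ℕ} (b c : Fin k → ℝ) (d : Fin k → ℕ) (N : ℕ) (ω : Fin k → ℝ) (n : ℕ) : ℂ :=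
  wN θ C1 N n * ∏ i, aN (b i) (c i) C1 R N (d i) ⌊Real.exp (b i + ω i) * (n : ℝ) ^ (c i)⌋₊

/-- minus its mean, halved -/
noncomputable def DN (θ : ℕ → ℂ) (C1 R : ℕ) {k : ℕ} (b c : Fin k → ℝ) (d : Fin k → ℕ) (N : ℕ) (ω : Fin k → ℝ) (n : ℕ) : ℂ :=
  (GN θ C1 R b c d N ω n - wN θ C1 N n / ((la R N : ℝ) : ℂ) ^ k) / 2

theorem fac_meas (a : ℕ → ℂ) (b c : ℝ) (n : ℕ) : Measurable fun y : ℝ => a ⌊Real.exp (b + y) * (n : ℝ) ^ c⌋₊ :=
  (measurable_of_countable a).comp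
    (Nat.measurable_floor.comp ((Real.measurable_exp.comp (measurable_const.add measurable_id)).mul_const _))

theorem DN_meas (θ : ℕ → ℂ) (C1 R : ℕ) {k : ℕ} (b c : Fin k → ℝ) (d : Fin k → ℕ) (N n : ℕ) :
    Measurable fun ω => DN θ C1 R b c d N ω n := by
  unfold DN GN
  refine Measurable.div_const (Measurable.sub_const (Measurable.const_mul ?_ _) _) _
  refine Finset.measurable_prod _ fun i _ => ?_
  exact (fac_meas (aN (b i) (c i) C1 R N (d i)) (b i) (c i) n).comp (measurable_pi_apply i)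

theorem DN_le (θ : ℕ → ℂ) (C1 R : ℕ) {k : ℕ} (b c : Fin k → ℝ) (d : Fin k → ℕ) (N : ℕ) (ω : Fin k → ℝ) (n : ℕ)
    (hw : ∀ n, ‖wN θ C1 N n‖ ≤ 1) (ha : ∀ i q, ‖aN (b i) (c i) C1 R N (d i) q‖ ≤ 1) (hl : 1 ≤ la R N) :
    ‖DN θ C1 R b c d N ω n‖ ≤ 1 := by
  unfold DN GN
  rw [norm_div, Complex.norm_two, div_le_one (by norm_num)]
  refine (norm_sub_le _ _).trans ?_
  have h1 : ‖wN θ C1 N n * ∏ i, aN (b i) (c i) C1 R N (d i) ⌊Real.exp (b i + ω i) * (n : ℝ) ^ (c i)⌋₊‖ ≤ 1 := by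
    rw [norm_mul, norm_prod]
    exact mul_le_one₀ (hw n) (Finset.prod_nonneg fun _ _ => norm_nonneg _)
      (Finset.prod_le_one (fun _ _ => norm_nonneg _) fun i _ => ha i _)
  have h2 : ‖wN θ C1 N n / ((la R N : ℝ) : ℂ) ^ k‖ ≤ 1 := by
    rw [norm_div, norm_pow, Complex.norm_real, Real.norm_eq_abs, abs_of_pos (by linarith)]
    rw [div_le_one (by positivity)]
    exact (hw n).trans (one_le_pow₀ hl)
  linarith

instance : IsProbabilityMeasure U1 := ⟨by simp [U1]⟩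

theorem DN_small {θ : ℕ → ℂ} (hθ : Wb θ) (hθ1 : ∀ n, ‖θ n‖ ≤ Real.log (n + 3)) (C1 R : ℕ) : ∀ (k : ℕ) (b c : Fin k → ℝ),
    (∀ i, 0 < c i) → (∀ i, c i ≤ R) → ∀ A P K : ℕ, ∃ C : ℝ, 0 ≤ C ∧ ∀ᶠ N : ℕ in atTop,
      ∀ d : Fin k → ℕ, (∀ i, (d i : ℝ) ≤ (Real.log N) ^ A) →
        MS (Measure.pi fun _ : Fin k => U1) (DN θ C1 R b c d N) N ((N : ℝ) ^ P) (C * N ^ 2 / (Real.log N) ^ K) := by
  intro k
  induction k with
  | zero =>
    intro b c _ _ A P K
    refine ⟨0, le_rfl, Eventually.of_forall fun N d _ τ _ => ?_⟩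
    have e1 : ∀ ω n, DN θ C1 R b c d N ω n = 0 := fun ω n => by
      unfold DN GN
      simp
    simp only [e1]
    simp
  | succ k ih =>
    intro b c hc hR A P K
    obtain ⟨C, hC, h1⟩ := ih (fun j => b j.succ) (fun j => c j.succ) (fun j => hc _) (fun j => hR _) A (P + 2 * R + 5) (K + 1)
    obtain ⟨C', hC', h2⟩ := base_small hθ hθ1 (b 0) (c 0) (hc 0) C1 A P K R (hR 0)
    obtain ⟨Ce, hCe, he⟩ := eN_small (b 0) (c 0) (hc 0) C1 A K R (hR 0)
    have hall : ∀ᶠ N : ℕ in atTop, ∀ j : Fin k, ∀ d : ℕ, (d : ℝ) ≤ (Real.log N) ^ A →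
        (∀ q, ‖aN (b j.succ) (c j.succ) C1 R N d q‖ ≤ 1) := by
      rw [eventually_all]
      intro j
      obtain ⟨_, _, h⟩ := eN_small (b j.succ) (c j.succ) (hc j.succ) C1 A K R (hR _)
      filter_upwards [h] with N hN d hd
      exact (hN d hd).2.1
    have hlogt : Tendsto (fun N : ℕ => Real.log (N : ℝ)) atTop atTop :=
      Real.tendsto_log_atTop.comp tendsto_natCast_atTop_atTop
    have g7 : ∀ᶠ N : ℕ in atTop, 32 * ((R : ℝ) + 1) ≤ (N : ℝ) := tendsto_natCast_atTop_atTop.eventually_ge_atTop _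
    refine ⟨2 * ((R + 1) * C + 1) + 2 * C', by positivity, ?_⟩
    filter_upwards [h1, h2, he, hall, wN_le hθ1 C1, Q_facts (b 0) (c 0) (hc 0) C1 A R 1 (hR 0), hlogt.eventually_ge_atTop 1,
      log_pow_small K 1 one_pos, g7, eventually_ge_atTop 2] with N h1 h2 h3 h4 h5 h6 h7 h8 h9 h10 d hd
    obtain ⟨q1, q2, q3, q4, q5, q6, q7⟩ := h6
    have hN1 : (1 : ℝ) ≤ N := by exact_mod_cast (by omega : 1 ≤ N)
    have hN2 : (2 : ℝ) ≤ N := by exact_mod_cast h10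
    have hN0 : (0 : ℝ) < N := by linarith
    have hR0 : (0 : ℝ) ≤ R := Nat.cast_nonneg R
    have hπ := Real.pi_pos
    have hla : 1 ≤ la R N := by
      unfold la
      nlinarith
    have hla0 : 0 < la R N := by linarith
    have hd' : ∀ j : Fin k, (d j.succ : ℝ) ≤ (Real.log N) ^ A := fun j => hd _
    have h1' := h1 (fun j => d j.succ) hd'
    have hDm := DN_meas θ C1 R (fun j => b j.succ) (fun j => c j.succ) (fun j => d j.succ) N
    have hD1 := fun ω n => DN_le θ C1 R (fun j => b j.succ) (fun j => c j.succ) (fun j => d j.succ) N ω n h5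
      (fun j q => h4 j _ (hd' j) q) hla
    obtain ⟨V, hV⟩ : ∃ V : ℝ, V = 2 + 2 * Real.exp (b 0 + (c 0 * Real.log N + 1)) := ⟨_, rfl⟩
    have hVe : Real.exp (b 0 + (c 0 * Real.log N + 1)) = Real.exp (b 0 + 1) * (N : ℝ) ^ (c 0) := by
      rw [Real.rpow_def_of_pos hN0, ← Real.exp_add]
      congr 1
      ring
    have hVN : 1 + V ≤ 2 * (N : ℝ) ^ (R + 1) := by
      have i1 : Real.exp (b 0 + 1) * (N : ℝ) ^ (c 0) < Qb (b 0) (c 0) N := by
        unfold Qb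
        push_cast
        exact Nat.lt_floor_add_one _
      have i2 : 0 ≤ (Real.log N) ^ A := by positivity
      rw [hV, hVe]
      linarith
    have hV0 : 0 ≤ V := by rw [hV]; positivity
    have hfr : (N : ℝ) ^ P + c 0 * (2 * Real.pi * ((1 + V) ^ 2 * N)) ≤ (N : ℝ) ^ (P + 2 * R + 5) := by
      have i0 : (1 + V) ^ 2 * (N : ℝ) ≤ 4 * (N : ℝ) ^ (2 * R + 3) := by
        calc (1 + V) ^ 2 * (N : ℝ) ≤ (2 * (N : ℝ) ^ (R + 1)) ^ 2 * N := by gcongr
          _ = _ := by ring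
      have i1 : c 0 * (2 * Real.pi * ((1 + V) ^ 2 * N)) ≤ (N : ℝ) ^ (2 * R + 4) := by
        have i2 : c 0 * (2 * Real.pi) * 4 ≤ N := by
          have := Real.pi_le_four
          have := hR 0
          have := hc 0
          nlinarith
        calc c 0 * (2 * Real.pi * ((1 + V) ^ 2 * N)) = (c 0 * (2 * Real.pi)) * ((1 + V) ^ 2 * N) := by ring
          _ ≤ (c 0 * (2 * Real.pi)) * (4 * (N : ℝ) ^ (2 * R + 3)) := by
              have := hc 0
              gcongr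
          _ = (c 0 * (2 * Real.pi) * 4) * (N : ℝ) ^ (2 * R + 3) := by ring
          _ ≤ N * (N : ℝ) ^ (2 * R + 3) := by gcongr
          _ = _ := by ring
      have i3 : (N : ℝ) ^ P ≤ (N : ℝ) ^ (P + 2 * R + 4) := pow_le_pow_right₀ hN1 (by omega)
      have i4 : (N : ℝ) ^ (2 * R + 4) ≤ (N : ℝ) ^ (P + 2 * R + 4) := pow_le_pow_right₀ hN1 (by omega)
      rw [show P + 2 * R + 5 = (P + 2 * R + 4) + 1 by ring, pow_succ (N : ℝ)]
      nlinarith [pow_pos hN0 (P + 2 * R + 4)]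
    have hst := step_fin (Measure.pi fun _ : Fin k => U1)
      (DN θ C1 R (fun j => b j.succ) (fun j => c j.succ) (fun j => d j.succ) N) hDm hD1
      (aN (b 0) (c 0) C1 R N (d 0)) (h3 (d 0) (hd 0)).2.1 (b 0) (c 0) (hc 0) N (by omega) ((N : ℝ) ^ P)
      (C * N ^ 2 / (Real.log N) ^ (K + 1)) V (by positivity) hV (MS_mono hfr le_rfl h1')
    have hba := h2 (d 0) (hd 0)
    have hm2 : ∀ n, Measurable fun y : ℝ => wN θ C1 N n * eN (b 0) (c 0) C1 R N (d 0) ⌊Real.exp (b 0 + y) * (n : ℝ) ^ (c 0)⌋₊ :=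
      fun n => (fac_meas (eN (b 0) (c 0) C1 R N (d 0)) (b 0) (c 0) n).const_mul _
    obtain ⟨z, hz⟩ : ∃ z : ℂ, z = 1 / (2 * ((la R N : ℝ) : ℂ) ^ k) := ⟨_, rfl⟩
    have hz1 : ‖z‖ ≤ 1 := by
      rw [hz, norm_div, norm_mul, norm_pow, Complex.norm_real, Complex.norm_two, norm_one, Real.norm_eq_abs,
        abs_of_pos hla0, div_le_one (by positivity)]
      have : 1 ≤ la R N ^ k := one_le_pow₀ hla
      linarith
    have hsn := MS_smul hz1 (MS_snd (m := Measure.pi fun _ : Fin k => U1) hm2 hba)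
    have hc0 := hc 0
    have hlN : 0 < Real.log N := by linarith
    have hsum := MS_add (fun n => ((hDm n).comp measurable_fst).mul
      ((fac_meas (aN (b 0) (c 0) C1 R N (d 0)) (b 0) (c 0) n).comp measurable_snd)) (by positivity) (by positivity) hst hsn
    refine MS_pi (g' := fun p n => DN θ C1 R b c d N (Fin.cons p.2 p.1 : Fin (k + 1) → ℝ) n) (fun ω n => ?_) ?_
    · simp only
      congr 1
      funext i
      refine Fin.cases ?_ (fun j => ?_) i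
      · simp
      · simp
    refine MS_mono le_rfl ?_ (MS_congr ?_ hsum)
    · -- the constants
      obtain ⟨l, hl⟩ : ∃ l, l = Real.log (N : ℝ) := ⟨_, rfl⟩
      have hmu : (Measure.pi fun _ : Fin k => U1).real Set.univ = 1 := probReal_univ
      rw [hmu, ← hl]
      rw [← hl] at h7 h8
      have hl0 : 0 < l := by linarith
      have k1 : (c 0 * l + 1) * (C * N ^ 2 / l ^ (K + 1)) ≤ (R + 1) * C * (N ^ 2 / l ^ K) := by
        have := hR 0
        calc (c 0 * l + 1) * (C * N ^ 2 / l ^ (K + 1)) ≤ ((R + 1) * l) * (C * N ^ 2 / l ^ (K + 1)) := by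
              refine mul_le_mul_of_nonneg_right ?_ (by positivity)
              nlinarith
          _ = _ := by
              rw [pow_succ l K]
              field_simp
      have k2 : (N : ℝ) ≤ N ^ 2 / l ^ K := by
        rw [le_div_iff₀ (by positivity)]
        nlinarith
      calc 2 * ((c 0 * l + 1) * (C * N ^ 2 / l ^ (K + 1)) + 1 * N) + 2 * (C' * N ^ 2 / l ^ K) ≤
            2 * ((R + 1) * C * (N ^ 2 / l ^ K) + 1 * (N ^ 2 / l ^ K)) + 2 * (C' * N ^ 2 / l ^ K) := by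
            gcongr
        _ = _ := by ring
    · -- the identity
      have hae : ∀ᵐ p ∂((Measure.pi fun _ : Fin k => U1).prod U1), p.2 ∈ Set.Icc (0 : ℝ) 1 :=
        Measure.quasiMeasurePreserving_snd.ae (ae_restrict_mem measurableSet_Icc)
      filter_upwards [hae] with p hp n hn
      rw [mem_Icc] at hn
      unfold DN GN
      rw [Fin.prod_univ_succ]
      simp only [Fin.cons_zero, Fin.cons_succ, Function.comp_def, Pi.mul_apply]
      by_cases hY : Yn C1 N < n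
      · have hmem := q7 n hY hn.2 p.2 hp
        have hlc : ((la R N : ℝ) : ℂ) ≠ 0 := by exact_mod_cast hla0.ne'
        have e1 : aN (b 0) (c 0) C1 R N (d 0) ⌊Real.exp (b 0 + p.2) * (n : ℝ) ^ (c 0)⌋₊ =
            eN (b 0) (c 0) C1 R N (d 0) ⌊Real.exp (b 0 + p.2) * (n : ℝ) ^ (c 0)⌋₊ + 1 / ((la R N : ℝ) : ℂ) := by
          unfold aN eN lw lamw
          rw [if_pos hmem, if_pos hmem]
          push_cast
          field_simp
          ring
        rw [hz, e1]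
        generalize (∏ i : Fin k, aN (b i.succ) (c i.succ) C1 R N (d i.succ) ⌊Real.exp (b i.succ + p.1 i) * (n : ℝ) ^ (c i.succ)⌋₊) = Pr
        generalize eN (b 0) (c 0) C1 R N (d 0) ⌊Real.exp (b 0 + p.2) * (n : ℝ) ^ (c 0)⌋₊ = E
        generalize wN θ C1 N n = W
        rw [pow_succ]
        field_simp
        ring
      · have e1 : wN θ C1 N n = 0 := by
          unfold wN
          rw [if_neg (fun h => hY h.1)]
        rw [e1]
        simp

end Pool.Agent.K4H50.MB
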