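import Pool.Agent.Y957.VK.Stm3

/-!
Metric prime tuples, uniformly in the shifts (helper50): statements of two separate pieces.
-/

set_option autoImplicit false

namespace Pool.Agent.K4H50.MB

open Finset MeasureTheory Filter Topology
open Pool.Agent.H376R2.MR (er)

/-- (P1) the sums `∑_{n ≤ N} n^{iτ}` for `(log N)^K ≤ |τ| ≤ N^A` -/
def S_W : Prop := ∀ A K : ℕ, ∃ C : ℝ, 0 ≤ C ∧ ∀ (N : ℕ) (τ : ℝ), 2 ≤ N → (Real.log N) ^ K ≤ |τ| →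
  |τ| ≤ (N : ℝ) ^ A → ‖∑ n ∈ Finset.Icc 1 N, er τ (Real.log n)‖ ≤ C * N / (Real.log N) ^ K

/-- the weighted sum -/
noncomputable def Lsum {k : ℕ} (α c : Fin k → ℝ) (d : Fin k → ℕ) (N : ℕ) : ℝ :=
  ∑ n ∈ Finset.Icc 1 N, ArithmeticFunction.vonMangoldt n *
    ∏ i, ArithmeticFunction.vonMangoldt (⌊α i * (n : ℝ) ^ (c i)⌋₊ + d i)

/-- the same without the condition on `n` -/
noncomputable def Msum {k : ℕ} (α c : Fin k → ℝ) (d : Fin k → ℕ) (N : ℕ) : ℝ :=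
  ∑ n ∈ Finset.Icc 1 N, ∏ i, ArithmeticFunction.vonMangoldt (⌊α i * (n : ℝ) ^ (c i)⌋₊ + d i)

/-- (P2) from the weights to the numbers of primes, uniformly in the shifts `d i ≤ (log N)^A` -/
def S_COUNT : Prop := ∀ (k : ℕ) (α c : Fin k → ℝ), (∀ i, 0 < α i) → (∀ i, 0 < c i) →
  (∀ A : ℕ, ∀ ε : ℝ, 0 < ε → ∃ N₀ : ℕ, ∀ N : ℕ, N₀ ≤ N → ∀ d : Fin k → ℕ,
    (∀ i, (d i : ℝ) ≤ (Real.log N) ^ A) → |Lsum α c d N - N| ≤ ε * N) →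
  ∀ A : ℕ, ∀ ε : ℝ, 0 < ε → ∃ N₀ : ℕ, ∀ N : ℕ, N₀ ≤ N → ∀ d : Fin k → ℕ,
    (∀ i, (d i : ℝ) ≤ (Real.log N) ^ A) →
      |(((Finset.Icc 1 N).filter fun n : ℕ => n.Prime ∧ ∀ i, (⌊α i * (n : ℝ) ^ (c i)⌋₊ + d i).Prime).card : ℝ) *
        (Real.log N * ∏ i, (c i * Real.log N)) / N - 1| ≤ ε

/-- (P2') the same without the condition on `n` -/
def S_COUNT' : Prop := ∀ (k : ℕ) (α c : Fin k → ℝ), (∀ i, 0 < α i) → (∀ i, 0 < c i) →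
  (∀ A : ℕ, ∀ ε : ℝ, 0 < ε → ∃ N₀ : ℕ, ∀ N : ℕ, N₀ ≤ N → ∀ d : Fin k → ℕ,
    (∀ i, (d i : ℝ) ≤ (Real.log N) ^ A) → |Msum α c d N - N| ≤ ε * N) →
  ∀ A : ℕ, ∀ ε : ℝ, 0 < ε → ∃ N₀ : ℕ, ∀ N : ℕ, N₀ ≤ N → ∀ d : Fin k → ℕ,
    (∀ i, (d i : ℝ) ≤ (Real.log N) ^ A) →
      |(((Finset.Icc 1 N).filter fun n : ℕ => ∀ i, (⌊α i * (n : ℝ) ^ (c i)⌋₊ + d i).Prime).card : ℝ) *
        (∏ i, (c i * Real.log N)) / N - 1| ≤ ε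

end Pool.Agent.K4H50.MB
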